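import Pool.Agent.H30R2.PS.Per

set_option autoImplicit false
set_option linter.unusedSectionVars false

/-! The character sum of the permanents. -/

namespace Pool.Agent.H30R2.PS

open Finset

variable {w : ℕ}

section bij

variable (o : Fin (2 * w) × Four → Option (Fin 3))
  (hb : ∀ u, Function.Bijective fun s => o (u, s))

/-- the row label using a given slot -/
noncomputable def so (a : Slot w) : Four :=
  (Equiv.ofBijective _ (hb a.1)).symm (some a.2)

theorem o_so (a : Slot w) : o (a.1, so o hb a) = some a.2 :=
  (Equiv.ofBijective _ (hb a.1)).apply_symm_apply (some a.2)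

theorem eq_so {u : Fin (2 * w)} {s : Four} {i : Fin 3} (h : o (u, s) = some i) :
    s = so o hb (u, i) := by
  refine (hb u).1 ?_
  show o (u, s) = o (u, so o hb (u, i))
  rw [h]
  exact (o_so o hb (u, i)).symm

/-- the labels -/
noncomputable def LL (a : Slot w) : ZMod 2 := lab a.2 (so o hb a)

theorem FO_bij_iff (π : Slot w ≃ Fin (3 * w) × Bool) (t : Slot w → ZMod 2) :
    Function.Bijective (FO π t o) ↔
      ∀ p, (t + LL o hb) (π.symm (p, false)) ≠ (t + LL o hb) (π.symm (p, true)) := by
  have hval : ∀ a : Slot w, FO π t o (a.1, so o hb a) =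
      Sum.inl ((π a).1, (t + LL o hb) a) := by
    intro a
    unfold FO
    rw [o_so o hb a]
    show Sum.inl ((π (a.1, a.2)).1, lab a.2 (so o hb a) + t (a.1, a.2)) = _
    rw [Pi.add_apply, add_comm (t a)]
    rfl
  constructor
  · intro hbij p heq
    set a := π.symm (p, false) with ha
    set a' := π.symm (p, true) with ha'
    have h1 : FO π t o (a.1, so o hb a) = FO π t o (a'.1, so o hb a') := by
      rw [hval, hval, heq]
      have h2 : (π a).1 = (π a').1 := by
        rw [ha, ha', Equiv.apply_symm_apply, Equiv.apply_symm_apply]
      rw [h2]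
    have h3 := hbij.1 h1
    have h4 : (some a.2 : Option (Fin 3)) = some a'.2 := by
      rw [← o_so o hb a, ← o_so o hb a', h3]
    have h5 : a = a' := Prod.ext (Prod.ext_iff.mp h3).1 (Option.some.inj h4)
    have h6 : (p, false) = (p, true) := π.symm.injective h5
    exact Bool.false_ne_true (congrArg Prod.snd h6)
  · intro hc
    rw [Fintype.bijective_iff_injective_and_card]
    refine ⟨?_, ?_⟩
    · rintro ⟨u, s⟩ ⟨u', s'⟩ h
      cases ho : o (u, s) with
      | none =>
        cases ho' : o (u', s') with
        | none =>
          have h1 : FO π t o (u, s) = Sum.inr u := by unfold FO; rw [ho]; rfl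
          have h2 : FO π t o (u', s') = Sum.inr u' := by unfold FO; rw [ho']; rfl
          rw [h1, h2] at h
          have h3 : u = u' := Sum.inr.inj h
          subst h3
          have h4 : s = s' := (hb u).1 (ho.trans ho'.symm)
          rw [h4]
        | some i' =>
          have h1 : FO π t o (u, s) = Sum.inr u := by unfold FO; rw [ho]; rfl
          have h2 : FO π t o (u', s') = Sum.inl ((π (u', i')).1, lab i' s' + t (u', i')) := by
            unfold FO; rw [ho']; rfl
          rw [h1, h2] at h
          exact absurd h Sum.inr_ne_inl
      | some i =>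
        cases ho' : o (u', s') with
        | none =>
          have h1 : FO π t o (u, s) = Sum.inl ((π (u, i)).1, lab i s + t (u, i)) := by
            unfold FO; rw [ho]; rfl
          have h2 : FO π t o (u', s') = Sum.inr u' := by unfold FO; rw [ho']; rfl
          rw [h1, h2] at h
          exact absurd h Sum.inl_ne_inr
        | some i' =>
          have hs : s = so o hb (u, i) := eq_so o hb ho
          have hs' : s' = so o hb (u', i') := eq_so o hb ho'
          have h1 : FO π t o (u, s) = Sum.inl ((π (u, i)).1, (t + LL o hb) (u, i)) := by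
            rw [hs]
            exact hval (u, i)
          have h2 : FO π t o (u', s') = Sum.inl ((π (u', i')).1, (t + LL o hb) (u', i')) := by
            rw [hs']
            exact hval (u', i')
          rw [h1, h2] at h
          have h3 := Sum.inl.inj h
          have h4 : (π (u, i)).1 = (π (u', i')).1 := (Prod.ext_iff.mp h3).1
          have h5 : (t + LL o hb) (u, i) = (t + LL o hb) (u', i') := (Prod.ext_iff.mp h3).2
          by_cases haa : (u, i) = (u', i')
          · have h6 : u = u' := congrArg Prod.fst haa
            have h7 : i = i' := congrArg Prod.snd haa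
            subst h6
            subst h7
            rw [hs, hs']
          · exfalso
            have h8 : (π (u, i)).2 ≠ (π (u', i')).2 := fun h9 =>
              haa (π.injective (Prod.ext h4 h9))
            have h10 : ∀ a : Slot w, a = π.symm ((π a).1, (π a).2) := fun a => by
              rw [Prod.mk.eta, Equiv.symm_apply_apply]
            cases hb1 : (π (u, i)).2 with
            | false =>
              have hb2 : (π (u', i')).2 = true := by
                cases hb3 : (π (u', i')).2 with
                | false => exact absurd (hb1.trans hb3.symm) h8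
                | true => rfl
              refine hc (π (u, i)).1 ?_
              rw [h10 (u, i), h10 (u', i'), hb1, hb2, ← h4] at h5
              exact h5
            | true =>
              have hb2 : (π (u', i')).2 = false := by
                cases hb3 : (π (u', i')).2 with
                | false => rfl
                | true => exact absurd (hb1.trans hb3.symm) h8
              refine hc (π (u, i)).1 ?_
              rw [h10 (u, i), h10 (u', i'), hb1, hb2, ← h4] at h5
              exact h5.symm
    · rw [Fintype.card_sum, Fintype.card_prod, Fintype.card_prod, Fintype.card_prod,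
        Fintype.card_fin, Fintype.card_fin, ZMod.card]
      ring

theorem chi_LL : chi (LL o hb) = ∏ x, wgt x.2 (o x) := by
  unfold chi
  rw [Fintype.prod_prod_type, Fintype.prod_prod_type]
  refine Finset.prod_congr rfl fun u _ => ?_
  rw [← Equiv.prod_comp (Equiv.ofBijective _ (hb u)).symm, Fintype.prod_option]
  have h1 : wgt ((u, (Equiv.ofBijective _ (hb u)).symm none) : Fin (2 * w) × Four).2
      (o (u, (Equiv.ofBijective _ (hb u)).symm none)) = 1 := by
    have h2 : o (u, (Equiv.ofBijective _ (hb u)).symm none) = none :=
      (Equiv.ofBijective _ (hb u)).apply_symm_apply none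
    rw [h2]
    rfl
  rw [h1, one_mul]
  refine Finset.prod_congr rfl fun i _ => ?_
  have h2 : o (u, (Equiv.ofBijective _ (hb u)).symm (some i)) = some i :=
    (Equiv.ofBijective _ (hb u)).apply_symm_apply (some i)
  rw [h2]
  rfl

end bij

open Classical in
theorem sum_c (π : Slot w ≃ Fin (3 * w) × Bool) :
    ∑ c : Slot w → ZMod 2, (if ∀ p, c (π.symm (p, false)) ≠ c (π.symm (p, true))
      then chi c else 0) = (-2) ^ (3 * w) := by
  let e : (Fin (3 * w) → Bool → ZMod 2) ≃ (Slot w → ZMod 2) :=
    (Equiv.curry _ _ _).symm.trans (Equiv.arrowCongr π.symm (Equiv.refl _))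
  have he : ∀ y p b, e y (π.symm (p, b)) = y p b := by
    intro y p b
    show Function.uncurry y (π (π.symm (p, b))) = y p b
    rw [Equiv.apply_symm_apply]
    rfl
  rw [← Equiv.sum_comp e]
  have h1 : ∀ y : Fin (3 * w) → Bool → ZMod 2,
      (if ∀ p, e y (π.symm (p, false)) ≠ e y (π.symm (p, true)) then chi (e y) else 0) =
      ∏ p, (if y p false ≠ y p true then sg (y p false) * sg (y p true) else 0) := by
    intro y
    have h2 : chi (e y) = ∏ p, sg (y p false) * sg (y p true) := by
      unfold chi
      rw [← Equiv.prod_comp π.symm, Fintype.prod_prod_type]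
      refine Finset.prod_congr rfl fun p _ => ?_
      rw [Fintype.prod_bool, he, he, mul_comm]
    by_cases h : ∀ p, y p false ≠ y p true
    · rw [if_pos (fun p => by rw [he, he]; exact h p), h2]
      exact Finset.prod_congr rfl fun p _ => (if_pos (h p)).symm
    · rw [if_neg (fun h' => h fun p => by rw [← he y, ← he y]; exact h' p)]
      rw [not_forall] at h
      obtain ⟨p, hp⟩ := h
      exact (Finset.prod_eq_zero (mem_univ p) (if_neg hp)).symm
  rw [Finset.sum_congr rfl (fun y _ => h1 y)]
  rw [← Fintype.prod_sum (fun (_ : Fin (3 * w)) (y : Bool → ZMod 2) =>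
    if y false ≠ y true then sg (y false) * sg (y true) else 0)]
  have h3 : ∑ y : Bool → ZMod 2, (if y false ≠ y true then sg (y false) * sg (y true) else 0)
      = -2 := by
    have h4 : ∑ y : Bool → ZMod 2,
        (@ite _ (y false ≠ y true) (inferInstance) (sg (y false) * sg (y true)) 0) = -2 := by
      decide +kernel
    rw [← h4]
  rw [h3, Finset.prod_const, Finset.card_univ, Fintype.card_fin]

open Classical in
theorem sum_one (π : Slot w ≃ Fin (3 * w) × Bool) (o : Fin (2 * w) × Four → Option (Fin 3)) :
    ∑ t : Slot w → ZMod 2, (if Function.Bijective (FO π t o) then chi t else 0) =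
      (if ∀ u, Function.Bijective (fun s => o (u, s)) then ∏ x, wgt x.2 (o x) else 0) *
        (-2) ^ (3 * w) := by
  by_cases hb : ∀ u, Function.Bijective (fun s => o (u, s))
  · rw [if_pos hb]
    have h1 : ∀ t : Slot w → ZMod 2,
        (if Function.Bijective (FO π t o) then chi t else 0) =
        chi (LL o hb) * (if ∀ p, (t + LL o hb) (π.symm (p, false)) ≠
          (t + LL o hb) (π.symm (p, true)) then chi (t + LL o hb) else 0) := by
      intro t
      have h2 := FO_bij_iff o hb π t
      by_cases h : Function.Bijective (FO π t o)
      · rw [if_pos h, if_pos (h2.mp h), chi_add]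
        have h3 : chi (LL o hb) * chi (LL o hb) = 1 := by
          unfold chi
          rw [← Finset.prod_mul_distrib]
          exact Finset.prod_eq_one fun s _ => sg_mul_self _
        calc chi t = chi t * (chi (LL o hb) * chi (LL o hb)) := by rw [h3, mul_one]
          _ = _ := by ring
      · rw [if_neg h, if_neg (fun h' => h (h2.mpr h')), mul_zero]
    rw [Finset.sum_congr rfl (fun t _ => h1 t), ← Finset.mul_sum, chi_LL]
    congr 1
    rw [← sum_c π]
    exact Equiv.sum_comp (Equiv.addRight (LL o hb))
      (fun c => if ∀ p, c (π.symm (p, false)) ≠ c (π.symm (p, true)) then chi c else 0)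
  · rw [if_neg hb, zero_mul]
    rw [not_forall] at hb
    obtain ⟨u, hu⟩ := hb
    have hcard : Fintype.card Four = Fintype.card (Option (Fin 3)) := by
      rw [Fintype.card_prod, ZMod.card, Fintype.card_option, Fintype.card_fin]
    have hns : ¬ Function.Surjective (fun s => o (u, s)) := fun hs =>
      hu ((Fintype.bijective_iff_surjective_and_card _).mpr ⟨hs, hcard⟩)
    unfold Function.Surjective at hns
    rw [not_forall] at hns
    obtain ⟨b, hbb⟩ := hns
    rw [not_exists] at hbb
    cases b with
    | some i => exact sum_unused π o u i hbb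
    | none =>
      refine Finset.sum_eq_zero fun t _ => if_neg ?_
      intro hbij
      obtain ⟨⟨u', s⟩, hx⟩ := hbij.2 (Sum.inr u)
      unfold FO at hx
      cases ho : o (u', s) with
      | none =>
        rw [ho] at hx
        have h1 : u' = u := Sum.inr.inj hx
        rw [h1] at ho
        exact hbb s ho
      | some j =>
        rw [ho] at hx
        exact Sum.inl_ne_inr hx

open Classical in
theorem sum_o : ∑ o : Fin (2 * w) × Four → Option (Fin 3),
    (if ∀ u, Function.Bijective (fun s => o (u, s)) then ∏ x, wgt x.2 (o x) else 0) =
      8 ^ (2 * w) := by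
  rw [← Equiv.sum_comp (Equiv.curry _ _ _).symm]
  have h1 : ∀ y : Fin (2 * w) → Four → Option (Fin 3),
      (if ∀ u, Function.Bijective (fun s => (Equiv.curry _ _ _).symm y (u, s))
        then ∏ x, wgt x.2 ((Equiv.curry _ _ _).symm y x) else 0) =
      ∏ u, (if Function.Bijective (y u) then ∏ s, wgt s (y u s) else 0) := by
    intro y
    by_cases h : ∀ u, Function.Bijective (y u)
    · have h' : ∀ u, Function.Bijective
          (fun s => (Equiv.curry (Fin (2 * w)) Four (Option (Fin 3))).symm y (u, s)) := h
      rw [if_pos h', Fintype.prod_prod_type]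
      exact Finset.prod_congr rfl fun u _ => (if_pos (h u)).symm
    · have h' : ¬ ∀ u, Function.Bijective
          (fun s => (Equiv.curry (Fin (2 * w)) Four (Option (Fin 3))).symm y (u, s)) := h
      rw [if_neg h']
      rw [not_forall] at h
      obtain ⟨u, hu⟩ := h
      exact (Finset.prod_eq_zero (mem_univ u) (if_neg hu)).symm
  rw [Finset.sum_congr rfl (fun y _ => h1 y)]
  rw [← Fintype.prod_sum (fun (_ : Fin (2 * w)) (y : Four → Option (Fin 3)) =>
    if Function.Bijective y then ∏ s, wgt s (y s) else 0)]
  have h2 : ∑ y : Four → Option (Fin 3),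
      (if Function.Bijective y then ∏ s, wgt s (y s) else 0) = 8 := by
    rw [← per8]
  rw [h2, Finset.prod_const, Finset.card_univ, Fintype.card_fin]

/-- The character sum of the permanents does not vanish. -/
theorem sum_PP (π : Slot w ≃ Fin (3 * w) × Bool) :
    ∑ t : Slot w → ZMod 2, chi t * PP π t = 8 ^ (2 * w) * (-2) ^ (3 * w) := by
  classical
  have h1 : ∀ t : Slot w → ZMod 2, chi t * PP π t =
      ∑ o : Fin (2 * w) × Four → Option (Fin 3),
        if Function.Bijective (FO π t o) then chi t else 0 := by
    intro t
    unfold PP
    rw [Finset.mul_sum]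
    refine Finset.sum_congr rfl fun o _ => ?_
    rw [mul_ite, mul_one, mul_zero]
  rw [Finset.sum_congr rfl (fun t _ => h1 t), Finset.sum_comm,
    Finset.sum_congr rfl (fun o _ => sum_one π o), ← Finset.sum_mul, sum_o]

end Pool.Agent.H30R2.PS
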