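import Pool.Agent.H30R2.PS.Cnt
import Pool.Agent.H30R2.PS.Per2

set_option autoImplicit false
set_option linter.unusedSectionVars false

/-! The union bound and the lower bound for the permanent. -/

namespace Pool.Agent.H30R2.PS

open Finset

theorem choose_ge : ∀ (l n : ℕ), l ≤ n → ((n : ℝ) / l) ^ l ≤ (n.choose l : ℝ) := by
  intro l
  induction l with
  | zero =>
    intro n _
    rw [pow_zero, Nat.choose_zero_right, Nat.cast_one]
  | succ l ih =>
    intro n hn
    obtain ⟨n, rfl⟩ : ∃ n', n = n' + 1 := ⟨n - 1, by omega⟩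
    have hn' : l ≤ n := by omega
    have h1 : ((n + 1 : ℕ) : ℝ) * n.choose l = (n + 1).choose (l + 1) * ((l + 1 : ℕ) : ℝ) := by
      exact_mod_cast Nat.add_one_mul_choose_eq n l
    have hl0 : (0 : ℝ) < ((l + 1 : ℕ) : ℝ) := by exact_mod_cast Nat.succ_pos l
    have h2 : ((n + 1).choose (l + 1) : ℝ) = ((n + 1 : ℕ) : ℝ) / ((l + 1 : ℕ) : ℝ) * n.choose l := by
      rw [div_mul_eq_mul_div, h1, mul_div_assoc, div_self hl0.ne', mul_one]
    rw [h2, pow_succ, mul_comm]
    refine mul_le_mul_of_nonneg_left (le_trans ?_ (ih n hn')) (by positivity)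
    rcases Nat.eq_zero_or_pos l with rfl | hl
    · rw [pow_zero, pow_zero]
    · refine pow_le_pow_left₀ (by positivity) ?_ l
      have hl1 : (0 : ℝ) < l := by exact_mod_cast hl
      rw [div_le_div_iff₀ hl0 hl1]
      push_cast
      have : (l : ℝ) ≤ n := by exact_mod_cast hn'
      nlinarith

theorem numeric {w l : ℕ} (hl : 0 < l) (hlw : 9600 * l ≤ 6 * w) {a b : ℝ} (hb0 : 0 ≤ b)
    (ha : ∀ z : ℝ, 0 < z → a * z ^ l ≤ (1 + z ^ 3) ^ (2 * w))
    (hb : ∀ z : ℝ, 0 < z → b * z ^ l ≤ (1 + z ^ 2) ^ (3 * w)) :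
    a * b ≤ (1 / 2) ^ l * ((6 * w).choose l : ℝ) := by
  have hl0 : (0 : ℝ) < l := by exact_mod_cast hl
  have hw0 : (0 : ℝ) < w := by
    have : 0 < w := by omega
    exact_mod_cast this
  have hlw' : (9600 : ℝ) * l ≤ 6 * w := by exact_mod_cast hlw
  set ξ : ℝ := l / (6 * w) with hξ
  have hξ0 : 0 < ξ := by positivity
  have hξ1 : ξ ≤ 1 / 9600 := by
    rw [hξ, div_le_div_iff₀ (by positivity) (by norm_num)]
    linarith
  set y : ℝ := ξ ^ ((6 : ℕ) : ℝ)⁻¹ with hy
  have hy0 : 0 < y := Real.rpow_pos_of_pos hξ0 _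
  have hy6 : y ^ 6 = ξ := Real.rpow_inv_natCast_pow hξ0.le (by norm_num)
  have h1 : a * (y ^ 2) ^ l ≤ Real.exp (l / 3) := by
    refine (ha (y ^ 2) (by positivity)).trans ?_
    have h2 : (y ^ 2) ^ 3 = ξ := by rw [← pow_mul]; exact hy6
    rw [h2]
    calc (1 + ξ) ^ (2 * w) ≤ Real.exp ξ ^ (2 * w) :=
          pow_le_pow_left₀ (by positivity) (by rw [add_comm]; exact Real.add_one_le_exp ξ) _
      _ = Real.exp (l / 3) := by
          rw [← Real.exp_nat_mul]
          congr 1
          rw [hξ]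
          push_cast
          field_simp
          norm_num
  have h3 : b * (y ^ 3) ^ l ≤ Real.exp (l / 2) := by
    refine (hb (y ^ 3) (by positivity)).trans ?_
    have h2 : (y ^ 3) ^ 2 = ξ := by rw [← pow_mul]; exact hy6
    rw [h2]
    calc (1 + ξ) ^ (3 * w) ≤ Real.exp ξ ^ (3 * w) :=
          pow_le_pow_left₀ (by positivity) (by rw [add_comm]; exact Real.add_one_le_exp ξ) _
      _ = Real.exp (l / 2) := by
          rw [← Real.exp_nat_mul]
          congr 1
          rw [hξ]
          push_cast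
          field_simp
          norm_num
  have h4 : 1 ≤ ((6 * w).choose l : ℝ) * (y ^ 6) ^ l := by
    have h5 := choose_ge l (6 * w) (by omega)
    have h6 : (((6 * w : ℕ) : ℝ) / l) ^ l * (y ^ 6) ^ l = 1 := by
      rw [← mul_pow, hy6, hξ]
      push_cast
      have : (6 * (w : ℝ)) / l * (l / (6 * w)) = 1 := by field_simp
      rw [this, one_pow]
    rw [← h6]
    exact mul_le_mul_of_nonneg_right h5 (by positivity)
  have h7 : (a * b) * (y ^ 5) ^ l ≤ Real.exp (5 / 6) ^ l := by
    calc (a * b) * (y ^ 5) ^ l = (a * (y ^ 2) ^ l) * (b * (y ^ 3) ^ l) := by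
          rw [← pow_mul, ← pow_mul, ← pow_mul]
          have : y ^ (5 * l) = y ^ (2 * l) * y ^ (3 * l) := by
            rw [← pow_add]
            congr 1
            ring
          rw [this]
          ring
      _ ≤ Real.exp (l / 3) * Real.exp (l / 2) :=
          mul_le_mul h1 h3 (by positivity) (Real.exp_pos _).le
      _ = Real.exp (5 / 6) ^ l := by
          rw [← Real.exp_add, ← Real.exp_nat_mul]
          congr 1
          ring
  have h8 : Real.exp (5 / 6) * y ≤ 1 / 2 := by
    have h9 : (Real.exp (5 / 6) * y) ^ 6 ≤ (1 / 2) ^ 6 := by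
      rw [mul_pow, hy6, ← Real.exp_nat_mul]
      have h10 : ((6 : ℕ) : ℝ) * (5 / 6) = (5 : ℕ) * 1 := by norm_num
      rw [h10, Real.exp_nat_mul]
      have h11 : Real.exp 1 ^ 5 ≤ (27183 / 10000) ^ 5 := by
        refine pow_le_pow_left₀ (Real.exp_pos _).le ?_ 5
        have := Real.exp_one_lt_d9
        linarith
      calc Real.exp 1 ^ 5 * ξ ≤ (27183 / 10000) ^ 5 * (1 / 9600) :=
            mul_le_mul h11 hξ1 hξ0.le (by norm_num)
        _ ≤ (1 / 2) ^ 6 := by norm_num
    exact le_of_pow_le_pow_left₀ (by norm_num) (by norm_num) h9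
  have h12 : (a * b) * (y ^ 5) ^ l ≤ ((1 / 2) ^ l * ((6 * w).choose l : ℝ)) * (y ^ 5) ^ l := by
    calc (a * b) * (y ^ 5) ^ l ≤ Real.exp (5 / 6) ^ l := h7
      _ ≤ Real.exp (5 / 6) ^ l * (((6 * w).choose l : ℝ) * (y ^ 6) ^ l) :=
          le_mul_of_one_le_right (by positivity) h4
      _ = ((Real.exp (5 / 6) * y) ^ l * ((6 * w).choose l : ℝ)) * (y ^ 5) ^ l := by
          rw [mul_pow, pow_succ y 5, mul_pow]
          ring
      _ ≤ ((1 / 2) ^ l * ((6 * w).choose l : ℝ)) * (y ^ 5) ^ l := by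
          refine mul_le_mul_of_nonneg_right ?_ (by positivity)
          refine mul_le_mul_of_nonneg_right ?_ (Nat.cast_nonneg _)
          exact pow_le_pow_left₀ (by positivity) h8 l
  exact le_of_mul_le_mul_right h12 (by positivity)

variable {w : ℕ}

open Classical in
/-- character sums over a finite group -/
theorem char_sum {M : Type*} [AddCommGroup M] [Fintype M] (L : M →+ ZMod 2) :
    ∑ x : M, sg (L x) = if ∀ x, L x = 0 then (Fintype.card M : ℤ) else 0 := by
  by_cases h : ∀ x, L x = 0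
  · rw [if_pos h, Finset.sum_congr rfl (fun x _ => by rw [h x])]
    have : sg 0 = 1 := rfl
    rw [this, Finset.sum_const, Finset.card_univ, nsmul_eq_mul, mul_one]
  · rw [if_neg h]
    rw [not_forall] at h
    obtain ⟨x0, h0⟩ := h
    have h1 : L x0 = 1 := by
      have h2 : ∀ c : ZMod 2, c ≠ 0 → c = 1 := by decide
      exact h2 _ h0
    have h2 : ∑ x : M, sg (L x) = ∑ x : M, sg (L (x0 + x)) :=
      (Equiv.sum_comp (Equiv.addLeft x0) (fun x => sg (L x))).symm
    have h3 : ∑ x : M, sg (L (x0 + x)) = - ∑ x : M, sg (L x) := by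
      rw [← Finset.sum_neg_distrib]
      refine Finset.sum_congr rfl fun x _ => ?_
      rw [map_add, sg_add, h1]
      have : sg 1 = -1 := rfl
      rw [this, neg_one_mul]
    linarith

theorem pair_add_left (h h' z : Gp w) : pair (h + h') z = pair h z + pair h' z := by
  unfold pair
  have h1 : ∀ p, (h + h').1 p * z.1 p = h.1 p * z.1 p + h'.1 p * z.1 p := fun p => add_mul _ _ _
  have h2 : ∀ u, (((h + h').2 u).1 * (z.2 u).1 + ((h + h').2 u).2 * (z.2 u).2) =
      ((h.2 u).1 * (z.2 u).1 + (h.2 u).2 * (z.2 u).2) +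
      ((h'.2 u).1 * (z.2 u).1 + (h'.2 u).2 * (z.2 u).2) := by
    intro u
    show ((h.2 u).1 + (h'.2 u).1) * (z.2 u).1 + ((h.2 u).2 + (h'.2 u).2) * (z.2 u).2 = _
    ring
  rw [Finset.sum_congr rfl (fun p _ => h1 p), Finset.sum_congr rfl (fun u _ => h2 u),
    Finset.sum_add_distrib, Finset.sum_add_distrib]
  ring

theorem pair_comm (h z : Gp w) : pair h z = pair z h := by
  unfold pair
  congr 1
  · exact Finset.sum_congr rfl fun p _ => mul_comm _ _
  · exact Finset.sum_congr rfl fun u _ => by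
      rw [mul_comm (h.2 u).1, mul_comm (h.2 u).2]

theorem pair_zero_left (z : Gp w) : pair 0 z = 0 := by
  have h := pair_add_left 0 0 z
  rw [add_zero] at h
  have h2 : pair 0 z + 0 = pair 0 z + pair 0 z := by rw [add_zero]; exact h
  exact (add_left_cancel h2).symm

theorem pair_nondeg (h : Gp w) (hz : ∀ z, pair h z = 0) : h = 0 := by
  refine Prod.ext ?_ ?_
  · funext p
    have h1 := hz (Pi.single p 1, 0)
    unfold pair at h1
    rw [Finset.sum_eq_single p, Finset.sum_eq_zero] at h1
    · have h2 : h.1 p * (Pi.single p 1 : Fin (3 * w) → ZMod 2) p + 0 = 0 := h1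
      rw [Pi.single_eq_same, mul_one, add_zero] at h2
      exact h2
    · intro u _
      show (h.2 u).1 * 0 + (h.2 u).2 * 0 = 0
      rw [mul_zero, mul_zero, add_zero]
    · intro b _ hb
      show h.1 b * (Pi.single p 1 : Fin (3 * w) → ZMod 2) b = 0
      rw [Pi.single_eq_of_ne hb, mul_zero]
    · intro hn
      exact absurd (mem_univ p) hn
  · funext u
    have key : ∀ v : Four, (h.2 u).1 * v.1 + (h.2 u).2 * v.2 = 0 := by
      intro v
      have h1 := hz (0, Pi.single u v)
      unfold pair at h1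
      rw [Finset.sum_eq_zero, Finset.sum_eq_single u] at h1
      · have h2 : 0 + ((h.2 u).1 * ((Pi.single u v : Fin (2 * w) → Four) u).1 +
          (h.2 u).2 * ((Pi.single u v : Fin (2 * w) → Four) u).2) = 0 := h1
        rw [Pi.single_eq_same, zero_add] at h2
        exact h2
      · intro b _ hb
        show (h.2 b).1 * ((Pi.single u v : Fin (2 * w) → Four) b).1 +
          (h.2 b).2 * ((Pi.single u v : Fin (2 * w) → Four) b).2 = 0
        rw [Pi.single_eq_of_ne hb]
        show (h.2 b).1 * 0 + (h.2 b).2 * 0 = 0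
        rw [mul_zero, mul_zero, add_zero]
      · intro hn
        exact absurd (mem_univ u) hn
      · intro p _
        show h.1 p * 0 = 0
        rw [mul_zero]
    have h3 : (h.2 u).1 = 0 := by
      have := key (1, 0)
      rw [mul_one, mul_zero, add_zero] at this
      exact this
    have h4 : (h.2 u).2 = 0 := by
      have := key (0, 1)
      rw [mul_one, mul_zero, zero_add] at this
      exact this
    exact Prod.ext h3 h4

open Classical in
/-- the size of the orthogonal complement -/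
theorem perp_card (H : Submodule (ZMod 2) (Gp w)) :
    (univ.filter fun z : Gp w => ∀ h ∈ H, pair h z = 0).card * Nat.card H =
      Fintype.card (Gp w) := by
  have : Fintype H := Fintype.ofFinite _
  rw [Nat.card_eq_fintype_card]
  have h1 : ∑ z : Gp w, ∑ h : H, sg (pair h.1 z) =
      ((univ.filter fun z : Gp w => ∀ h ∈ H, pair h z = 0).card : ℤ) * Fintype.card H := by
    rw [Finset.card_filter, Nat.cast_sum, Finset.sum_mul]
    refine Finset.sum_congr rfl fun z _ => ?_
    let L : H →+ ZMod 2 :=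
      { toFun := fun h => pair h.1 z
        map_zero' := pair_zero_left z
        map_add' := fun h h' => pair_add_left h.1 h'.1 z }
    have h2 : ∑ h : H, sg (pair h.1 z) = _ := char_sum L
    rw [h2]
    by_cases hz : ∀ h ∈ H, pair h z = 0
    · have hz' : ∀ h : H, L h = 0 := fun h => hz h.1 h.2
      rw [if_pos hz, if_pos hz', Nat.cast_one, one_mul]
    · have hz' : ¬ ∀ h : H, L h = 0 := fun hh => hz fun h hH => hh ⟨h, hH⟩
      rw [if_neg hz, if_neg hz', Nat.cast_zero, zero_mul]
  have h3 : ∑ z : Gp w, ∑ h : H, sg (pair h.1 z) = (Fintype.card (Gp w) : ℤ) := by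
    rw [Finset.sum_comm, Finset.sum_eq_single (0 : H)]
    · have h4 : ∀ z : Gp w, sg (pair (0 : H).1 z) = 1 := by
        intro z
        have h5 : pair (0 : H).1 z = 0 := pair_zero_left z
        rw [h5]
        rfl
      rw [Finset.sum_congr rfl (fun z _ => h4 z), Finset.sum_const, Finset.card_univ,
        nsmul_eq_mul, mul_one]
    · intro h _ hne
      let L : Gp w →+ ZMod 2 :=
        { toFun := fun z => pair h.1 z
          map_zero' := by rw [pair_comm]; exact pair_zero_left h.1
          map_add' := fun z z' => by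
            rw [pair_comm, pair_add_left, pair_comm z, pair_comm z'] }
      have h2 : ∑ z : Gp w, sg (pair h.1 z) = _ := char_sum L
      rw [h2, if_neg]
      intro hz
      exact hne (Subtype.ext (pair_nondeg h.1 hz))
    · intro hn
      exact absurd (mem_univ _) hn
  have h6 := h1.symm.trans h3
  exact_mod_cast h6

open Classical in
/-- the bad bijections for one subspace -/
theorem bad_one (H : Submodule (ZMod 2) (Gp w)) (τ : ℕ) (hτ : 3200 * τ ≤ w) :
    ((univ.filter fun π : Slot w ≃ Fin (3 * w) × Bool =>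
      ∃ l : Slot w → ZMod 2, τ < wt l ∧ wt l ≤ 2 * τ ∧ ∀ h ∈ H, dot l (BB π h) = 0).card : ℝ) ≤
      ((univ.filter fun z : Gp w => ∀ h ∈ H, pair h z = 0).card : ℝ) *
        (Fintype.card (Slot w ≃ Fin (3 * w) × Bool) * (1 / 2) ^ τ) := by
  set Hp : Finset (Gp w) := univ.filter fun z : Gp w => ∀ h ∈ H, pair h z = 0 with hHp
  set D : Finset ℕ := Finset.Ico (τ + 1) (2 * τ + 1) with hD
  have hsub : (univ.filter fun π : Slot w ≃ Fin (3 * w) × Bool =>
      ∃ l : Slot w → ZMod 2, τ < wt l ∧ wt l ≤ 2 * τ ∧ ∀ h ∈ H, dot l (BB π h) = 0) ⊆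
      Hp.biUnion fun z => D.biUnion fun n =>
        (univ.filter fun l : Slot w → ZMod 2 => wt l = n ∧ dd l = z.2).biUnion fun l =>
          univ.filter fun π : Slot w ≃ Fin (3 * w) × Bool => cc π l = z.1 := by
    intro π hπ
    rw [Finset.mem_filter] at hπ
    obtain ⟨_, l, h1, h2, h3⟩ := hπ
    rw [Finset.mem_biUnion]
    refine ⟨(cc π l, dd l), ?_, ?_⟩
    · rw [hHp, Finset.mem_filter]
      exact ⟨mem_univ _, fun h hh => by rw [← dot_BB]; exact h3 h hh⟩
    · rw [Finset.mem_biUnion]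
      refine ⟨wt l, ?_, ?_⟩
      · rw [hD, Finset.mem_Ico]
        omega
      · rw [Finset.mem_biUnion]
        exact ⟨l, Finset.mem_filter.mpr ⟨mem_univ _, rfl, rfl⟩,
          Finset.mem_filter.mpr ⟨mem_univ _, rfl⟩⟩
  set P : ℝ := ((Fintype.card (Slot w ≃ Fin (3 * w) × Bool) : ℕ) : ℝ) with hP
  have hP0 : 0 ≤ P := Nat.cast_nonneg _
  have hone : ∀ z : Gp w, ∀ n ∈ D,
      (∑ l ∈ univ.filter (fun l : Slot w → ZMod 2 => wt l = n ∧ dd l = z.2),
        ((univ.filter fun π : Slot w ≃ Fin (3 * w) × Bool => cc π l = z.1).card : ℝ)) ≤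
        P * (1 / 2) ^ n := by
    intro z n hn
    rw [hD, Finset.mem_Ico] at hn
    have hn0 : 0 < n := by omega
    have hnw : 9600 * n ≤ 6 * w := by omega
    have hC : (0 : ℝ) < ((6 * w).choose n : ℝ) := by
      exact_mod_cast Nat.choose_pos (by omega)
    have h1 : ∀ l ∈ univ.filter (fun l : Slot w → ZMod 2 => wt l = n ∧ dd l = z.2),
        ((univ.filter fun π : Slot w ≃ Fin (3 * w) × Bool => cc π l = z.1).card : ℝ) =
          P * Ny w n z.1 / ((6 * w).choose n : ℝ) := by
      intro l hl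
      rw [Finset.mem_filter] at hl
      have h2 := card_cc l z.1
      rw [hl.2.1] at h2
      rw [eq_div_iff hC.ne', hP]
      exact_mod_cast h2
    rw [Finset.sum_congr rfl h1, Finset.sum_const, nsmul_eq_mul]
    have h3 := numeric hn0 hnw
      (a := ((univ.filter fun l : Slot w → ZMod 2 => wt l = n ∧ dd l = z.2).card : ℝ))
      (b := (Ny w n z.1 : ℝ)) (Nat.cast_nonneg _)
      (fun y hy => Nl_le n z.2 hy) (fun y hy => Ny_le n z.1 hy)
    rw [← mul_div_assoc, div_le_iff₀ hC]
    calc ((univ.filter fun l : Slot w → ZMod 2 => wt l = n ∧ dd l = z.2).card : ℝ) *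
          (P * Ny w n z.1)
        = P * (((univ.filter fun l : Slot w → ZMod 2 => wt l = n ∧ dd l = z.2).card : ℝ) *
          Ny w n z.1) := by ring
      _ ≤ P * ((1 / 2) ^ n * ((6 * w).choose n : ℝ)) := mul_le_mul_of_nonneg_left h3 hP0
      _ = _ := by ring
  calc ((univ.filter fun π : Slot w ≃ Fin (3 * w) × Bool =>
        ∃ l : Slot w → ZMod 2, τ < wt l ∧ wt l ≤ 2 * τ ∧ ∀ h ∈ H, dot l (BB π h) = 0).card : ℝ)
      ≤ ((Hp.biUnion fun z => D.biUnion fun n =>
        (univ.filter fun l : Slot w → ZMod 2 => wt l = n ∧ dd l = z.2).biUnion fun l =>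
          univ.filter fun π : Slot w ≃ Fin (3 * w) × Bool => cc π l = z.1).card : ℝ) := by
        exact_mod_cast Finset.card_le_card hsub
    _ ≤ ∑ z ∈ Hp, ((D.biUnion fun n =>
        (univ.filter fun l : Slot w → ZMod 2 => wt l = n ∧ dd l = z.2).biUnion fun l =>
          univ.filter fun π : Slot w ≃ Fin (3 * w) × Bool => cc π l = z.1).card : ℝ) := by
        exact_mod_cast Finset.card_biUnion_le
    _ ≤ ∑ z ∈ Hp, ∑ n ∈ D, ∑ l ∈ univ.filter (fun l : Slot w → ZMod 2 => wt l = n ∧ dd l = z.2),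
          ((univ.filter fun π : Slot w ≃ Fin (3 * w) × Bool => cc π l = z.1).card : ℝ) := by
        refine Finset.sum_le_sum fun z _ => ?_
        refine le_trans (b := ∑ n ∈ D,
          (((univ.filter fun l : Slot w → ZMod 2 => wt l = n ∧ dd l = z.2).biUnion fun l =>
          univ.filter fun π : Slot w ≃ Fin (3 * w) × Bool => cc π l = z.1).card : ℝ)) ?_ ?_
        · exact_mod_cast Finset.card_biUnion_le
        · refine Finset.sum_le_sum fun n _ => ?_
          exact_mod_cast Finset.card_biUnion_le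
    _ ≤ ∑ _z ∈ Hp, P * (1 / 2) ^ τ := by
        refine Finset.sum_le_sum fun z _ => ?_
        calc (∑ n ∈ D, ∑ l ∈ univ.filter (fun l : Slot w → ZMod 2 => wt l = n ∧ dd l = z.2),
              ((univ.filter fun π : Slot w ≃ Fin (3 * w) × Bool => cc π l = z.1).card : ℝ))
            ≤ ∑ n ∈ D, P * (1 / 2) ^ n := Finset.sum_le_sum fun n hn => hone z n hn
          _ = P * ∑ n ∈ D, (1 / 2 : ℝ) ^ n := (Finset.mul_sum _ _ _).symm
          _ ≤ P * (1 / 2) ^ τ := by
              refine mul_le_mul_of_nonneg_left ?_ hP0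
              refine (geom_sum_Ico_le_of_lt_one (by norm_num) (by norm_num)).trans ?_
              rw [pow_succ]
              norm_num
    _ = _ := by rw [Finset.sum_const, nsmul_eq_mul]

end Pool.Agent.H30R2.PS
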