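import Pool.Agent.H30R2.PS.Final

set_option autoImplicit false
set_option linter.unusedSectionVars false

/-! A random model in which the matrices of the family have entries 0 and 1. -/

namespace Pool.Agent.H30R2.PS

open Finset

variable {w : ℕ}

/-- the quadruples in two halves -/
def th (w : ℕ) : Fin (2 * w) ≃ Fin w × Bool :=
  finProdFinEquiv.symm.trans ((finTwoEquiv.prodCongr (Equiv.refl _)).trans (Equiv.prodComm _ _))

/-- a pair of bijections, one for each half -/
abbrev Om (w : ℕ) := (Fin w × Fin 3 ≃ Fin (3 * w)) × (Fin w × Fin 3 ≃ Fin (3 * w))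

/-- the bijection of the half `b` -/
def half (ω : Om w) (b : Bool) : Fin w × Fin 3 ≃ Fin (3 * w) := if b then ω.2 else ω.1

/-- the bijection given by two bijections of the halves -/
def piOf (ω : Om w) : Slot w ≃ Fin (3 * w) × Bool where
  toFun s := (half ω (th w s.1).2 ((th w s.1).1, s.2), (th w s.1).2)
  invFun q := ((th w).symm (((half ω q.2).symm q.1).1, q.2), ((half ω q.2).symm q.1).2)
  left_inv s := by
    refine Prod.ext ?_ ?_
    · show (th w).symm (((half ω (th w s.1).2).symm
        (half ω (th w s.1).2 ((th w s.1).1, s.2))).1, (th w s.1).2) = s.1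
      rw [Equiv.symm_apply_apply]
      show (th w).symm (th w s.1) = s.1
      rw [Equiv.symm_apply_apply]
    · show ((half ω (th w s.1).2).symm (half ω (th w s.1).2 ((th w s.1).1, s.2))).2 = s.2
      rw [Equiv.symm_apply_apply]
  right_inv q := by
    refine Prod.ext ?_ ?_
    · show half ω (th w ((th w).symm (((half ω q.2).symm q.1).1, q.2))).2
        ((th w ((th w).symm (((half ω q.2).symm q.1).1, q.2))).1,
          ((half ω q.2).symm q.1).2) = q.1
      rw [Equiv.apply_symm_apply]
      show half ω q.2 ((half ω q.2).symm q.1) = q.1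
      rw [Equiv.apply_symm_apply]
    · show (th w ((th w).symm (((half ω q.2).symm q.1).1, q.2))).2 = q.2
      rw [Equiv.apply_symm_apply]

theorem piOf_fst_inj (ω : Om w) (v : Fin (2 * w)) (i j : Fin 3)
    (h : (piOf ω (v, i)).1 = (piOf ω (v, j)).1) : i = j := by
  have h1 : half ω (th w v).2 ((th w v).1, i) = half ω (th w v).2 ((th w v).1, j) := h
  exact (Prod.ext_iff.mp ((half ω (th w v).2).injective h1)).2

/-- the restriction of a vector to a half -/
def resh (l : Slot w → ZMod 2) (b : Bool) (q : Fin w × Fin 3) : ZMod 2 :=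
  l ((th w).symm (q.1, b), q.2)

theorem cc_piOf (ω : Om w) (l : Slot w → ZMod 2) (p : Fin (3 * w)) :
    cc (piOf ω) l p = resh l false (ω.1.symm p) + resh l true (ω.2.symm p) := rfl

theorem wt_split (l : Slot w → ZMod 2) : wt l = wt (resh l false) + wt (resh l true) := by
  let e : (Fin w × Fin 3) × Bool ≃ Slot w :=
    { toFun := fun q => ((th w).symm (q.1.1, q.2), q.1.2)
      invFun := fun s => (((th w s.1).1, s.2), (th w s.1).2)
      left_inv := fun q => by
        refine Prod.ext (Prod.ext ?_ rfl) ?_
        · show (th w ((th w).symm (q.1.1, q.2))).1 = q.1.1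
          rw [Equiv.apply_symm_apply]
        · show (th w ((th w).symm (q.1.1, q.2))).2 = q.2
          rw [Equiv.apply_symm_apply]
      right_inv := fun s => by
        refine Prod.ext ?_ rfl
        show (th w).symm (th w s.1) = s.1
        rw [Equiv.symm_apply_apply] }
  unfold wt
  rw [Finset.card_filter, Finset.card_filter, Finset.card_filter, ← Equiv.sum_comp e,
    Fintype.sum_prod_type, ← Finset.sum_add_distrib]
  refine Finset.sum_congr rfl fun q _ => ?_
  rw [Fintype.sum_bool, add_comm]
  rfl

theorem natcard_filter {α : Type*} [Fintype α] (p : α → Prop) [DecidablePred p] :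
    Nat.card {a // p a} = (univ.filter p).card := by
  rw [Nat.card_eq_fintype_card, Fintype.card_subtype]

/-- the image of a vector under a random bijection is uniformly distributed -/
theorem card_push {S T : Type} [Fintype S] [DecidableEq S] [Fintype T] [DecidableEq T]
    (x : S → ZMod 2) (y : T → ZMod 2) (h : wt y = wt x) :
    Nat.card {π : S ≃ T // ∀ t, x (π.symm t) = y t} *
      (Fintype.card T).choose (wt x) = Fintype.card (S ≃ T) := by
  rw [natcard_filter]
  have hconst : ∀ z : T → ZMod 2, wt z = wt x →
      (univ.filter fun π : S ≃ T => ∀ t, x (π.symm t) = z t).card =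
      (univ.filter fun π : S ≃ T => ∀ t, x (π.symm t) = y t).card := by
    intro z hz
    obtain ⟨τ, hτ⟩ := exists_perm_of_wt z y (hz.trans h.symm)
    refine Finset.card_bij (fun π _ => π.trans τ) ?_ ?_ ?_
    · intro π hπ
      rw [Finset.mem_filter] at hπ ⊢
      refine ⟨mem_univ _, fun t => ?_⟩
      show x (π.symm (τ.symm t)) = y t
      rw [hπ.2, ← hτ, Equiv.apply_symm_apply]
    · intro π _ π' _ h'
      refine Equiv.ext fun s => ?_
      exact τ.injective (Equiv.congr_fun h' s)
    · intro π hπ
      rw [Finset.mem_filter] at hπ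
      refine ⟨π.trans τ.symm, ?_, ?_⟩
      · rw [Finset.mem_filter]
        refine ⟨mem_univ _, fun t => ?_⟩
        show x (π.symm (τ t)) = z t
        rw [hπ.2, hτ]
      · refine Equiv.ext fun s => ?_
        show τ (τ.symm (π s)) = π s
        rw [Equiv.apply_symm_apply]
  have h1 : ∑ z ∈ univ.filter (fun z : T → ZMod 2 => wt z = wt x),
      (univ.filter fun π : S ≃ T => ∀ t, x (π.symm t) = z t).card = Fintype.card (S ≃ T) := by
    have h2 : ∀ z : T → ZMod 2, (univ.filter fun π : S ≃ T => ∀ t, x (π.symm t) = z t).card =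
        ∑ π : S ≃ T, if (fun t => x (π.symm t)) = z then 1 else 0 := by
      intro z
      rw [Finset.card_filter]
      refine Finset.sum_congr rfl fun π _ => ?_
      by_cases h3 : (fun t => x (π.symm t)) = z
      · rw [if_pos h3, if_pos (congrFun h3)]
      · rw [if_neg h3, if_neg (fun h4 => h3 (funext h4))]
    rw [Finset.sum_congr rfl (fun z _ => h2 z), Finset.sum_comm]
    have h3 : ∀ π : S ≃ T, (∑ z ∈ univ.filter (fun z : T → ZMod 2 => wt z = wt x),
        if (fun t => x (π.symm t)) = z then 1 else 0) = 1 := by
      intro π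
      rw [Finset.sum_ite_eq, if_pos]
      rw [Finset.mem_filter]
      refine ⟨mem_univ _, ?_⟩
      unfold wt
      refine Finset.card_bij (fun t _ => π.symm t) ?_ ?_ ?_
      · intro t ht
        rw [Finset.mem_filter] at ht ⊢
        exact ⟨mem_univ _, ht.2⟩
      · intro t _ t' _ h
        exact π.symm.injective h
      · intro s hs
        rw [Finset.mem_filter] at hs
        refine ⟨π s, ?_, π.symm_apply_apply s⟩
        rw [Finset.mem_filter]
        refine ⟨mem_univ _, ?_⟩
        show x (π.symm (π s)) ≠ 0
        rw [Equiv.symm_apply_apply]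
        exact hs.2
    rw [Finset.sum_congr rfl (fun π _ => h3 π), Finset.sum_const, Finset.card_univ, smul_eq_mul,
      mul_one]
  rw [← h1, Finset.sum_congr rfl (fun z hz => hconst z (Finset.mem_filter.mp hz).2),
    Finset.sum_const, card_wt, smul_eq_mul, mul_comm]

/-- the number of pairs of bijections with given parities -/
theorem card_cc_bip (l : Slot w → ZMod 2) (κ : Fin (3 * w) → ZMod 2) :
    (univ.filter fun ω : Om w => cc (piOf ω) l = κ).card *
      ((3 * w).choose (wt (resh l false)) * (3 * w).choose (wt (resh l true))) ≤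
      Fintype.card (Om w) * Ny w (wt l) κ := by
  set Y : Finset (Fin (3 * w) × Bool → ZMod 2) := univ.filter fun y =>
    wt y = wt l ∧ ∀ p, y (p, false) + y (p, true) = κ p with hY
  set Y' : Finset (Fin (3 * w) × Bool → ZMod 2) := Y.filter fun y =>
    wt (fun p => y (p, false)) = wt (resh l false) ∧
    wt (fun p => y (p, true)) = wt (resh l true) with hY'
  have hsub : (univ.filter fun ω : Om w => cc (piOf ω) l = κ) ⊆ Y'.biUnion fun y =>
      (univ.filter fun π : Fin w × Fin 3 ≃ Fin (3 * w) =>
        ∀ t, resh l false (π.symm t) = y (t, false)) ×ˢ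
      (univ.filter fun π : Fin w × Fin 3 ≃ Fin (3 * w) =>
        ∀ t, resh l true (π.symm t) = y (t, true)) := by
    intro ω hω
    rw [Finset.mem_filter] at hω
    have hwt : ∀ (π : Fin w × Fin 3 ≃ Fin (3 * w)) (x : Fin w × Fin 3 → ZMod 2),
        wt (fun p => x (π.symm p)) = wt x := by
      intro π x
      unfold wt
      refine Finset.card_bij (fun t _ => π.symm t) ?_ ?_ ?_
      · intro t ht
        rw [Finset.mem_filter] at ht ⊢
        exact ⟨mem_univ _, ht.2⟩
      · intro t _ t' _ h
        exact π.symm.injective h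
      · intro s hs
        rw [Finset.mem_filter] at hs
        refine ⟨π s, ?_, π.symm_apply_apply s⟩
        rw [Finset.mem_filter]
        refine ⟨mem_univ _, ?_⟩
        show x (π.symm (π s)) ≠ 0
        rw [Equiv.symm_apply_apply]
        exact hs.2
    rw [Finset.mem_biUnion]
    refine ⟨fun q => if q.2 then resh l true (ω.2.symm q.1) else resh l false (ω.1.symm q.1),
      ?_, ?_⟩
    · rw [hY', Finset.mem_filter, hY, Finset.mem_filter]
      refine ⟨⟨mem_univ _, ?_, fun p => ?_⟩, hwt ω.1 (resh l false), hwt ω.2 (resh l true)⟩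
      · rw [wt_split, ← hwt ω.1 (resh l false), ← hwt ω.2 (resh l true)]
        unfold wt
        rw [Finset.card_filter, Finset.card_filter, Finset.card_filter,
          Fintype.sum_prod_type, ← Finset.sum_add_distrib]
        refine Finset.sum_congr rfl fun q _ => ?_
        rw [Fintype.sum_bool, add_comm]
        rfl
      · rw [← hω.2]
        rfl
    · rw [Finset.mem_product, Finset.mem_filter, Finset.mem_filter]
      exact ⟨⟨mem_univ _, fun t => rfl⟩, ⟨mem_univ _, fun t => rfl⟩⟩
  have h1 : ∀ y ∈ Y', ((univ.filter fun π : Fin w × Fin 3 ≃ Fin (3 * w) =>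
        ∀ t, resh l false (π.symm t) = y (t, false)) ×ˢ
      (univ.filter fun π : Fin w × Fin 3 ≃ Fin (3 * w) =>
        ∀ t, resh l true (π.symm t) = y (t, true))).card *
      ((3 * w).choose (wt (resh l false)) * (3 * w).choose (wt (resh l true))) =
      Fintype.card (Om w) := by
    intro y hy
    rw [hY', Finset.mem_filter] at hy
    have h2 : (univ.filter fun π : Fin w × Fin 3 ≃ Fin (3 * w) =>
        ∀ t, resh l false (π.symm t) = y (t, false)).card *
        (3 * w).choose (wt (resh l false)) = Fintype.card (Fin w × Fin 3 ≃ Fin (3 * w)) := by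
      have h4 := card_push (resh l false) (fun t => y (t, false)) hy.2.1
      rw [Fintype.card_fin] at h4
      rw [← natcard_filter]
      exact h4
    have h3 : (univ.filter fun π : Fin w × Fin 3 ≃ Fin (3 * w) =>
        ∀ t, resh l true (π.symm t) = y (t, true)).card *
        (3 * w).choose (wt (resh l true)) = Fintype.card (Fin w × Fin 3 ≃ Fin (3 * w)) := by
      have h4 := card_push (resh l true) (fun t => y (t, true)) hy.2.2
      rw [Fintype.card_fin] at h4
      rw [← natcard_filter]
      exact h4
    rw [Finset.card_product, Fintype.card_prod, mul_mul_mul_comm, h2, h3]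
  calc (univ.filter fun ω : Om w => cc (piOf ω) l = κ).card *
        ((3 * w).choose (wt (resh l false)) * (3 * w).choose (wt (resh l true)))
      ≤ (∑ y ∈ Y', ((univ.filter fun π : Fin w × Fin 3 ≃ Fin (3 * w) =>
        ∀ t, resh l false (π.symm t) = y (t, false)) ×ˢ
      (univ.filter fun π : Fin w × Fin 3 ≃ Fin (3 * w) =>
        ∀ t, resh l true (π.symm t) = y (t, true))).card) *
        ((3 * w).choose (wt (resh l false)) * (3 * w).choose (wt (resh l true))) :=
        Nat.mul_le_mul_right _ ((Finset.card_le_card hsub).trans Finset.card_biUnion_le)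
    _ = ∑ _y ∈ Y', Fintype.card (Om w) := by
        rw [Finset.sum_mul]
        exact Finset.sum_congr rfl h1
    _ = Fintype.card (Om w) * Y'.card := by
        rw [Finset.sum_const, smul_eq_mul, mul_comm]
    _ ≤ Fintype.card (Om w) * Ny w (wt l) κ :=
        Nat.mul_le_mul_left _ (Finset.card_le_card (Finset.filter_subset _ _))

end Pool.Agent.H30R2.PS
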