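import Pool.Agent.H30R2.PS.Bip

set_option autoImplicit false
set_option linter.unusedSectionVars false

/-! The union bound in the bipartite model. -/

namespace Pool.Agent.H30R2.PS

open Finset

theorem numeric2 {w l : ℕ} (hl : 0 < l) (hlw : 608000 * l ≤ 6 * w) {a b : ℝ} (hb0 : 0 ≤ b)
    (ha : ∀ z : ℝ, 0 < z → a * z ^ l ≤ (1 + z ^ 3) ^ (2 * w))
    (hb : ∀ z : ℝ, 0 < z → b * z ^ l ≤ (1 + z ^ 2) ^ (3 * w)) :
    a * b ≤ (1 / 2) ^ l * ((3 * w : ℝ) / l) ^ l := by
  have hl0 : (0 : ℝ) < l := by exact_mod_cast hl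
  have hw0 : (0 : ℝ) < w := by
    have : 0 < w := by omega
    exact_mod_cast this
  have hlw' : (608000 : ℝ) * l ≤ 6 * w := by exact_mod_cast hlw
  set ξ : ℝ := l / (6 * w) with hξ
  have hξ0 : 0 < ξ := by positivity
  have hξ1 : ξ ≤ 1 / 608000 := by
    rw [hξ, div_le_div_iff₀ (by positivity) (by norm_num)]
    linarith
  set y : ℝ := ξ ^ ((6 : ℕ) : ℝ)⁻¹ with hy
  have hy0 : 0 < y := Real.rpow_pos_of_pos hξ0 _
  have hy6 : y ^ 6 = ξ := Real.rpow_inv_natCast_pow hξ0.le (by norm_num)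
  have h1 : a * (y ^ 2) ^ l ≤ Real.exp (l / 3) := by
    refine (ha (y ^ 2) (by positivity)).trans ?_
    have h2 : (y ^ 2) ^ 3 = ξ := by rw [← pow_mul]; exact hy6
    rw [h2]
    calc (1 + ξ) ^ (2 * w) ≤ Real.exp ξ ^ (2 * w) :=
          pow_le_pow_left₀ (by positivity) (by rw [add_comm]; exact Real.add_one_le_exp ξ) _
      _ = Real.exp (l / 3) := by
          rw [← Real.exp_nat_mul]
          congr 1
          rw [hξ]
          push_cast
          field_simp
          norm_num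
  have h3 : b * (y ^ 3) ^ l ≤ Real.exp (l / 2) := by
    refine (hb (y ^ 3) (by positivity)).trans ?_
    have h2 : (y ^ 3) ^ 2 = ξ := by rw [← pow_mul]; exact hy6
    rw [h2]
    calc (1 + ξ) ^ (3 * w) ≤ Real.exp ξ ^ (3 * w) :=
          pow_le_pow_left₀ (by positivity) (by rw [add_comm]; exact Real.add_one_le_exp ξ) _
      _ = Real.exp (l / 2) := by
          rw [← Real.exp_nat_mul]
          congr 1
          rw [hξ]
          push_cast
          field_simp
          norm_num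
  have h4 : ((3 * w : ℝ) / l) ^ l * (y ^ 6) ^ l = (1 / 2) ^ l := by
    rw [← mul_pow, hy6, hξ]
    congr 1
    field_simp
    norm_num
  have h7 : (a * b) * (y ^ 5) ^ l ≤ Real.exp (5 / 6) ^ l := by
    calc (a * b) * (y ^ 5) ^ l = (a * (y ^ 2) ^ l) * (b * (y ^ 3) ^ l) := by
          rw [← pow_mul, ← pow_mul, ← pow_mul]
          have : y ^ (5 * l) = y ^ (2 * l) * y ^ (3 * l) := by
            rw [← pow_add]
            congr 1
            ring
          rw [this]
          ring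
      _ ≤ Real.exp (l / 3) * Real.exp (l / 2) :=
          mul_le_mul h1 h3 (by positivity) (Real.exp_pos _).le
      _ = Real.exp (5 / 6) ^ l := by
          rw [← Real.exp_add, ← Real.exp_nat_mul]
          congr 1
          ring
  have h8 : Real.exp (5 / 6) * y ≤ 1 / 4 := by
    have h9 : (Real.exp (5 / 6) * y) ^ 6 ≤ (1 / 4) ^ 6 := by
      rw [mul_pow, hy6, ← Real.exp_nat_mul]
      have h10 : ((6 : ℕ) : ℝ) * (5 / 6) = (5 : ℕ) * 1 := by norm_num
      rw [h10, Real.exp_nat_mul]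
      have h11 : Real.exp 1 ^ 5 ≤ (27183 / 10000) ^ 5 := by
        refine pow_le_pow_left₀ (Real.exp_pos _).le ?_ 5
        have := Real.exp_one_lt_d9
        linarith
      calc Real.exp 1 ^ 5 * ξ ≤ (27183 / 10000) ^ 5 * (1 / 608000) :=
            mul_le_mul h11 hξ1 hξ0.le (by norm_num)
        _ ≤ (1 / 4) ^ 6 := by norm_num
    exact le_of_pow_le_pow_left₀ (by norm_num) (by norm_num) h9
  have h12 : (a * b) * (y ^ 6) ^ l ≤ ((1 / 2) ^ l * ((3 * w : ℝ) / l) ^ l) * (y ^ 6) ^ l := by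
    calc (a * b) * (y ^ 6) ^ l = ((a * b) * (y ^ 5) ^ l) * y ^ l := by
          rw [pow_succ y 5, mul_pow]
          ring
      _ ≤ Real.exp (5 / 6) ^ l * y ^ l := mul_le_mul_of_nonneg_right h7 (by positivity)
      _ = (Real.exp (5 / 6) * y) ^ l := (mul_pow _ _ _).symm
      _ ≤ (1 / 4) ^ l := pow_le_pow_left₀ (by positivity) h8 l
      _ = (1 / 2) ^ l * (1 / 2) ^ l := by
          rw [← mul_pow]
          norm_num
      _ = ((1 / 2) ^ l * ((3 * w : ℝ) / l) ^ l) * (y ^ 6) ^ l := by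
          rw [mul_assoc, h4]
  exact le_of_mul_le_mul_right h12 (by positivity)

theorem choose_ge2 (w l l1 l2 : ℕ) (h : l1 + l2 = l) (hl : 0 < l) (hw : l ≤ 3 * w) :
    ((3 * w : ℝ) / l) ^ l ≤ ((3 * w).choose l1 : ℝ) * ((3 * w).choose l2 : ℝ) := by
  have hl0 : (0 : ℝ) < l := by exact_mod_cast hl
  have key : ∀ k, k ≤ l → ((3 * w : ℝ) / l) ^ k ≤ ((3 * w).choose k : ℝ) := by
    intro k hk
    refine le_trans ?_ (choose_ge k (3 * w) (by omega))
    rcases Nat.eq_zero_or_pos k with rfl | hk0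
    · rw [pow_zero, pow_zero]
    · have hk1 : (0 : ℝ) < k := by exact_mod_cast hk0
      refine pow_le_pow_left₀ (by positivity) ?_ k
      push_cast
      refine div_le_div_of_nonneg_left (by positivity) hk1 ?_
      exact_mod_cast hk
  rw [← h, pow_add]
  rw [h]
  exact mul_le_mul (key l1 (by omega)) (key l2 (by omega)) (by positivity) (Nat.cast_nonneg _)

variable {w : ℕ}

open Classical in
/-- the bad pairs of bijections for one subspace -/
theorem bad_one_bip (H : Submodule (ZMod 2) (Gp w)) (τ : ℕ) (hτ : 210000 * τ ≤ w) :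
    ((univ.filter fun ω : Om w =>
      ∃ l : Slot w → ZMod 2, τ < wt l ∧ wt l ≤ 2 * τ ∧ ∀ h ∈ H, dot l (BB (piOf ω) h) = 0).card : ℝ)
      ≤ ((univ.filter fun z : Gp w => ∀ h ∈ H, pair h z = 0).card : ℝ) *
        (Fintype.card (Om w) * (1 / 2) ^ τ) := by
  set Hp : Finset (Gp w) := univ.filter fun z : Gp w => ∀ h ∈ H, pair h z = 0 with hHp
  set D : Finset ℕ := Finset.Ico (τ + 1) (2 * τ + 1) with hD
  have hsub : (univ.filter fun ω : Om w =>
      ∃ l : Slot w → ZMod 2, τ < wt l ∧ wt l ≤ 2 * τ ∧ ∀ h ∈ H, dot l (BB (piOf ω) h) = 0) ⊆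
      Hp.biUnion fun z => D.biUnion fun n =>
        (univ.filter fun l : Slot w → ZMod 2 => wt l = n ∧ dd l = z.2).biUnion fun l =>
          univ.filter fun ω : Om w => cc (piOf ω) l = z.1 := by
    intro ω hω
    rw [Finset.mem_filter] at hω
    obtain ⟨_, l, h1, h2, h3⟩ := hω
    rw [Finset.mem_biUnion]
    refine ⟨(cc (piOf ω) l, dd l), ?_, ?_⟩
    · rw [hHp, Finset.mem_filter]
      exact ⟨mem_univ _, fun h hh => by rw [← dot_BB]; exact h3 h hh⟩
    · rw [Finset.mem_biUnion]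
      refine ⟨wt l, ?_, ?_⟩
      · rw [hD, Finset.mem_Ico]
        omega
      · rw [Finset.mem_biUnion]
        exact ⟨l, Finset.mem_filter.mpr ⟨mem_univ _, rfl, rfl⟩,
          Finset.mem_filter.mpr ⟨mem_univ _, rfl⟩⟩
  set P : ℝ := ((Fintype.card (Om w) : ℕ) : ℝ) with hP
  have hP0 : 0 ≤ P := Nat.cast_nonneg _
  have hone : ∀ z : Gp w, ∀ n ∈ D,
      (∑ l ∈ univ.filter (fun l : Slot w → ZMod 2 => wt l = n ∧ dd l = z.2),
        ((univ.filter fun ω : Om w => cc (piOf ω) l = z.1).card : ℝ)) ≤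
        P * (1 / 2) ^ n := by
    intro z n hn
    rw [hD, Finset.mem_Ico] at hn
    have hn0 : 0 < n := by omega
    have hnw : 608000 * n ≤ 6 * w := by omega
    have hn1 : (0 : ℝ) < n := by exact_mod_cast hn0
    have hw1 : (0 : ℝ) < w := by
      have : 0 < w := by omega
      exact_mod_cast this
    have hC : (0 : ℝ) < ((3 * w : ℝ) / n) ^ n := by positivity
    have h1 : ∀ l ∈ univ.filter (fun l : Slot w → ZMod 2 => wt l = n ∧ dd l = z.2),
        ((univ.filter fun ω : Om w => cc (piOf ω) l = z.1).card : ℝ) ≤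
          P * Ny w n z.1 / ((3 * w : ℝ) / n) ^ n := by
      intro l hl
      rw [Finset.mem_filter] at hl
      have h2 := card_cc_bip l z.1
      have h3 := choose_ge2 w n (wt (resh l false)) (wt (resh l true))
        (by rw [← wt_split, hl.2.1]) hn0 (by omega)
      rw [hl.2.1] at h2
      rw [le_div_iff₀ hC, hP]
      calc ((univ.filter fun ω : Om w => cc (piOf ω) l = z.1).card : ℝ) *
            ((3 * w : ℝ) / n) ^ n
          ≤ ((univ.filter fun ω : Om w => cc (piOf ω) l = z.1).card : ℝ) *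
            (((3 * w).choose (wt (resh l false)) : ℝ) *
              ((3 * w).choose (wt (resh l true)) : ℝ)) :=
            mul_le_mul_of_nonneg_left h3 (Nat.cast_nonneg _)
        _ ≤ _ := by exact_mod_cast h2
    refine (Finset.sum_le_sum h1).trans ?_
    rw [Finset.sum_const, nsmul_eq_mul]
    have h3 := numeric2 hn0 hnw
      (a := ((univ.filter fun l : Slot w → ZMod 2 => wt l = n ∧ dd l = z.2).card : ℝ))
      (b := (Ny w n z.1 : ℝ)) (Nat.cast_nonneg _)
      (fun y hy => Nl_le n z.2 hy) (fun y hy => Ny_le n z.1 hy)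
    rw [← mul_div_assoc, div_le_iff₀ hC]
    calc ((univ.filter fun l : Slot w → ZMod 2 => wt l = n ∧ dd l = z.2).card : ℝ) *
          (P * Ny w n z.1)
        = P * (((univ.filter fun l : Slot w → ZMod 2 => wt l = n ∧ dd l = z.2).card : ℝ) *
          Ny w n z.1) := by ring
      _ ≤ P * ((1 / 2) ^ n * ((3 * w : ℝ) / n) ^ n) := mul_le_mul_of_nonneg_left h3 hP0
      _ = _ := by ring
  calc ((univ.filter fun ω : Om w =>
        ∃ l : Slot w → ZMod 2, τ < wt l ∧ wt l ≤ 2 * τ ∧
          ∀ h ∈ H, dot l (BB (piOf ω) h) = 0).card : ℝ)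
      ≤ ((Hp.biUnion fun z => D.biUnion fun n =>
        (univ.filter fun l : Slot w → ZMod 2 => wt l = n ∧ dd l = z.2).biUnion fun l =>
          univ.filter fun ω : Om w => cc (piOf ω) l = z.1).card : ℝ) := by
        exact_mod_cast Finset.card_le_card hsub
    _ ≤ ∑ z ∈ Hp, ((D.biUnion fun n =>
        (univ.filter fun l : Slot w → ZMod 2 => wt l = n ∧ dd l = z.2).biUnion fun l =>
          univ.filter fun ω : Om w => cc (piOf ω) l = z.1).card : ℝ) := by
        exact_mod_cast Finset.card_biUnion_le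
    _ ≤ ∑ z ∈ Hp, ∑ n ∈ D, ∑ l ∈ univ.filter (fun l : Slot w → ZMod 2 => wt l = n ∧ dd l = z.2),
          ((univ.filter fun ω : Om w => cc (piOf ω) l = z.1).card : ℝ) := by
        refine Finset.sum_le_sum fun z _ => ?_
        refine le_trans (b := ∑ n ∈ D,
          (((univ.filter fun l : Slot w → ZMod 2 => wt l = n ∧ dd l = z.2).biUnion fun l =>
          univ.filter fun ω : Om w => cc (piOf ω) l = z.1).card : ℝ)) ?_ ?_
        · exact_mod_cast Finset.card_biUnion_le
        · refine Finset.sum_le_sum fun n _ => ?_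
          exact_mod_cast Finset.card_biUnion_le
    _ ≤ ∑ _z ∈ Hp, P * (1 / 2) ^ τ := by
        refine Finset.sum_le_sum fun z _ => ?_
        calc (∑ n ∈ D, ∑ l ∈ univ.filter (fun l : Slot w → ZMod 2 => wt l = n ∧ dd l = z.2),
              ((univ.filter fun ω : Om w => cc (piOf ω) l = z.1).card : ℝ))
            ≤ ∑ n ∈ D, P * (1 / 2) ^ n := Finset.sum_le_sum fun n hn => hone z n hn
          _ = P * ∑ n ∈ D, (1 / 2 : ℝ) ^ n := (Finset.mul_sum _ _ _).symm
          _ ≤ P * (1 / 2) ^ τ := by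
              refine mul_le_mul_of_nonneg_left ?_ hP0
              refine (geom_sum_Ico_le_of_lt_one (by norm_num) (by norm_num)).trans ?_
              rw [pow_succ]
              norm_num
    _ = _ := by rw [Finset.sum_const, nsmul_eq_mul]

/-- changing the values of a setup -/
def Setup.mapK {I K K' S G : Type*} [AddCommGroup G] [Module (ZMod 2) G] (Z : Setup I K S G)
    (f : K → K') : Setup I K' S G where
  B := Z.B
  perm := Z.perm
  perm_zero := Z.perm_zero
  perm_add := Z.perm_add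
  x t i := f (Z.x t i)
  equi t h i := congrArg f (Z.equi t h i)
  loc := Z.loc
  loc_x i t e h := congrArg f (Z.loc_x i t e h)
  loc_perm := Z.loc_perm

open Classical in
theorem exists_good_bip {K : Type} {n : ℕ} {Z : Type} (f : ℤ → K)
    (eR : Rw w Z ≃ Fin n) (eC : Cl w Z ≃ Fin n) {Gt : Type} [Fintype Gt]
    (N : Net (Fin n × Fin n) K Gt)
    (hN : ∀ h : Gp w, ∃ φ, N.IsAut
      ((eR.permCongr (rowAct h.2)).prodCongr (eC.permCongr (colAct h.1))) φ)
    (τ : ℕ) (hτ : 210000 * τ ≤ w) (hs : Fintype.card Gt < 2 ^ τ) :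
    ∃ ω : Om w, Good ((setup ℤ (piOf ω) eR eC).mapK f) N τ := by
  by_contra hcon
  rw [not_exists] at hcon
  have hcardS : Fintype.card (Fin w × Fin 3) = Fintype.card (Fin (3 * w)) := by
    rw [Fintype.card_prod, Fintype.card_fin, Fintype.card_fin, Fintype.card_fin, mul_comm]
  let π0 : Fin w × Fin 3 ≃ Fin (3 * w) := Fintype.equivOfCardEq hcardS
  let ω0 : Om w := (π0, π0)
  set S : Finset (Submodule (ZMod 2) (Gp w)) :=
    univ.image (stab ((setup ℤ (piOf ω0) eR eC).mapK f) N) with hS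
  set P : ℝ := ((Fintype.card (Om w) : ℕ) : ℝ) with hP
  have hP0 : 0 < P := by
    have : Nonempty (Om w) := ⟨ω0⟩
    rw [hP]
    exact_mod_cast Fintype.card_pos
  set BH : Submodule (ZMod 2) (Gp w) → Finset (Om w) := fun H =>
    univ.filter fun ω : Om w =>
      ∃ l : Slot w → ZMod 2, τ < wt l ∧ wt l ≤ 2 * τ ∧
        ∀ h ∈ H, dot l (BB (piOf ω) h) = 0 with hBH
  set HP : Submodule (ZMod 2) (Gp w) → Finset (Gp w) := fun H =>
    univ.filter fun z : Gp w => ∀ h ∈ H, pair h z = 0 with hHP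
  have hcov : (univ : Finset (Om w)) ⊆ S.biUnion BH := by
    intro ω _
    have h1 := hcon ω
    unfold Good at h1
    rw [not_forall] at h1
    obtain ⟨g, h1⟩ := h1
    rw [not_forall] at h1
    obtain ⟨l, h1⟩ := h1
    rw [Classical.not_imp] at h1
    obtain ⟨h2, h1⟩ := h1
    rw [Classical.not_imp] at h1
    obtain ⟨h3, h1⟩ := h1
    rw [Finset.mem_biUnion]
    refine ⟨stab ((setup ℤ (piOf ω0) eR eC).mapK f) N g,
      Finset.mem_image_of_mem _ (mem_univ g), ?_⟩
    rw [hBH]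
    refine Finset.mem_filter.mpr ⟨mem_univ _, l, h2, h3, fun h hh => ?_⟩
    by_contra hne
    exact h1 ⟨h, hh, hne⟩
  have hSsum : ∑ H ∈ S, ((HP H).card : ℝ) ≤ Fintype.card Gt := by
    have h1 : (Fintype.card Gt : ℝ) = ∑ H ∈ S,
        ((univ.filter fun g => stab ((setup ℤ (piOf ω0) eR eC).mapK f) N g = H).card : ℝ) := by
      rw [← Nat.cast_sum, ← Finset.card_univ]
      congr 1
      exact Finset.card_eq_sum_card_image (stab ((setup ℤ (piOf ω0) eR eC).mapK f) N) univ
    rw [h1]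
    refine Finset.sum_le_sum fun H hH => ?_
    rw [hS, Finset.mem_image] at hH
    obtain ⟨g, _, rfl⟩ := hH
    set ST := stab ((setup ℤ (piOf ω0) eR eC).mapK f) N with hST
    have h2 := perp_card (ST g)
    have h3 := orbit_le ((setup ℤ (piOf ω0) eR eC).mapK f) N hN g
    rw [← hST] at h3
    have hpos : 0 < Nat.card (ST g) := Nat.card_pos
    have h4 : (HP (ST g)).card * Nat.card (ST g) ≤
        (univ.filter fun g' => ST g' = ST g).card * Nat.card (ST g) := by
      rw [hHP]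
      refine h2.le.trans (h3.trans (le_of_eq ?_))
      exact mul_comm _ _
    have h5 := Nat.le_of_mul_le_mul_right h4 hpos
    exact_mod_cast h5
  have hfin : P ≤ Fintype.card Gt * (P * (1 / 2) ^ τ) := by
    calc P = ((univ : Finset (Om w)).card : ℝ) := by
          rw [Finset.card_univ]
      _ ≤ ((S.biUnion BH).card : ℝ) := by exact_mod_cast Finset.card_le_card hcov
      _ ≤ ∑ H ∈ S, ((BH H).card : ℝ) := by exact_mod_cast Finset.card_biUnion_le
      _ ≤ ∑ H ∈ S, ((HP H).card : ℝ) * (P * (1 / 2) ^ τ) :=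
          Finset.sum_le_sum fun H _ => bad_one_bip H τ hτ
      _ = (∑ H ∈ S, ((HP H).card : ℝ)) * (P * (1 / 2) ^ τ) := (Finset.sum_mul _ _ _).symm
      _ ≤ _ := mul_le_mul_of_nonneg_right hSsum (by positivity)
  have h6 : (Fintype.card Gt : ℝ) < 2 ^ τ := by exact_mod_cast hs
  have h7 : (Fintype.card Gt : ℝ) * (P * (1 / 2) ^ τ) < 2 ^ τ * (P * (1 / 2) ^ τ) :=
    mul_lt_mul_of_pos_right h6 (by positivity)
  have h8 : (2 : ℝ) ^ τ * (P * (1 / 2) ^ τ) = P := by
    have h9 : (2 : ℝ) ^ τ * (1 / 2) ^ τ = 1 := by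
      rw [← mul_pow]
      norm_num
    calc (2 : ℝ) ^ τ * (P * (1 / 2) ^ τ) = P * (2 ^ τ * (1 / 2) ^ τ) := by ring
      _ = P := by rw [h9, mul_one]
  linarith

end Pool.Agent.H30R2.PS
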