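import Pool.Agent.H30R2.PS.Bip2

set_option autoImplicit false
set_option linter.unusedSectionVars false

/-! Networks with several outputs, and the lower bound for counting perfect matchings. -/

namespace Pool.Agent.H30R2.PS

open Finset

/-! ### Several gates at once -/

theorem shift_all {I K S G Gt : Type*} [AddCommGroup G] [Module (ZMod 2) G] [Fintype Gt]
    [Fintype S] [DecidableEq S] {Z : Setup I K S G} {N : Net I K Gt} {τ : ℕ}
    (hG : Good Z N τ) (hτ : 1 ≤ τ) (c : S → ZMod 2) (hc : τ < wt c) :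
    ∃ e : S → ZMod 2, dot c e = 1 ∧ ∀ g, (∀ a, a ∈ stab Z N g) →
      ∀ t, N.val (Z.x (t + e)) g = N.val (Z.x t) g := by
  have h1 : c ∉ vis Z N τ hG N.out := by
    rintro ⟨h, _⟩
    omega
  obtain ⟨e, he, hce⟩ := sep _ c h1
  refine ⟨e, ?_, fun g hg t => ?_⟩
  · rw [dot_comm]
    have : ∀ z : ZMod 2, z ≠ 0 → z = 1 := by decide
    exact this _ hce
  · refine core hG hτ g t e fun s hs => ?_
    rw [dot_comm]
    refine he s ?_
    obtain ⟨hs1, hs2⟩ := hs
    exact ⟨hs1, fun a _ => hs2 a (hg a)⟩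

/-- the contradiction -/
theorem contra {w : ℕ} {K : Type} [CommRing K] (h2 : ∀ k : ℕ, (2 : K) ^ k ≠ 0)
    (π : Slot w ≃ Fin (3 * w) × Bool) (e : Slot w → ZMod 2) (hchi : chi e = -1)
    (hPP : ∀ t, (PP π (t + e) : K) = (PP π t : K)) : False := by
  have hsum := congrArg (Int.cast : ℤ → K) (sum_PP π)
  rw [Int.cast_sum] at hsum
  have hneg : ∑ t : Slot w → ZMod 2, ((chi t * PP π t : ℤ) : K) =
      - ∑ t : Slot w → ZMod 2, ((chi t * PP π t : ℤ) : K) := by
    calc ∑ t : Slot w → ZMod 2, ((chi t * PP π t : ℤ) : K)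
        = ∑ t : Slot w → ZMod 2, ((chi (t + e) * PP π (t + e) : ℤ) : K) :=
          (Equiv.sum_comp (Equiv.addRight e)
            (fun t : Slot w → ZMod 2 => ((chi t * PP π t : ℤ) : K))).symm
      _ = ∑ t : Slot w → ZMod 2, -((chi t * PP π t : ℤ) : K) := by
          refine Finset.sum_congr rfl fun t _ => ?_
          rw [chi_add, hchi, Int.cast_mul, hPP]
          push_cast
          ring
      _ = _ := Finset.sum_neg_distrib _
  have hzero : (2 : K) * ∑ t : Slot w → ZMod 2, ((chi t * PP π t : ℤ) : K) = 0 := by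
    rw [two_mul]
    nth_rewrite 1 [hneg]
    exact neg_add_cancel _
  rw [hsum] at hzero
  have h6 : (2 : K) ^ (1 + 3 * (2 * w) + 3 * w) = 0 := by
    have h7 : (((8 ^ (2 * w) * (-2) ^ (3 * w) : ℤ)) : K) =
        (-1) ^ (3 * w) * ((2 : K) ^ (3 * (2 * w)) * 2 ^ (3 * w)) := by
      push_cast
      have h8 : (8 : K) = 2 ^ 3 := by norm_num
      rw [h8, ← pow_mul]
      have h9 : (-2 : K) ^ (3 * w) = (-1) ^ (3 * w) * 2 ^ (3 * w) := by
        rw [← mul_pow]
        norm_num
      rw [h9]
      ring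
    rw [h7] at hzero
    have h10 : ((-1 : K)) ^ (3 * w) * (-1) ^ (3 * w) = 1 := by
      rw [← mul_pow]
      norm_num
    calc (2 : K) ^ (1 + 3 * (2 * w) + 3 * w)
        = ((-1) ^ (3 * w) * (-1) ^ (3 * w)) * (2 ^ (1 + 3 * (2 * w) + 3 * w)) := by
          rw [h10, one_mul]
      _ = (-1) ^ (3 * w) *
          (2 * ((-1) ^ (3 * w) * ((2 : K) ^ (3 * (2 * w)) * 2 ^ (3 * w)))) := by
          rw [pow_add, pow_add, pow_one]
          ring
      _ = 0 := by rw [hzero, mul_zero]
  exact h2 _ h6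

/-! ### Bipartite graphs -/

/-- The number of perfect matchings of the bipartite graph with adjacency matrix `x`. -/
noncomputable def pm {n : ℕ} (x : Fin n × Fin n → Bool) : ℕ :=
  Nat.card {σ : Equiv.Perm (Fin n) // ∀ i, x (i, σ i) = true}

/-- All the degrees of the bipartite graph with adjacency matrix `x` are at most `Δ`. -/
def DegLe {n : ℕ} (Δ : ℕ) (x : Fin n × Fin n → Bool) : Prop :=
  (∀ i, Nat.card {j // x (i, j) = true} ≤ Δ) ∧ ∀ j, Nat.card {i // x (i, j) = true} ≤ Δ

variable {w : ℕ} {Z : Type}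

/-- the entries of the matrices of the bipartite family are zero or one -/
theorem MM_zero_one (ω : Om w) (t : Slot w → ZMod 2) (r : Rw w Z) (c : Cl w Z) :
    MM ℤ (piOf ω) t r c = 0 ∨ MM ℤ (piOf ω) t r c = 1 := by
  classical
  rcases r with x | z
  · rw [MM_inl]
    by_cases h : ∃ o, c = Sum.inl (fo1 (piOf ω) t x o)
    · obtain ⟨o, rfl⟩ := h
      right
      rw [Finset.sum_eq_single o]
      · exact if_pos rfl
      · intro o' _ ho'
        rw [if_neg]
        intro h1
        have h2 := Sum.inl.inj h1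
        apply ho'
        rcases o with _ | i <;> rcases o' with _ | j
        · rfl
        · exact absurd h2 Sum.inr_ne_inl
        · exact absurd h2 Sum.inl_ne_inr
        · have h3 := Sum.inl.inj h2
          have h4 := (Prod.ext_iff.mp h3).1
          exact congrArg some (piOf_fst_inj ω x.1 i j h4).symm
      · intro h1
        exact absurd (mem_univ _) h1
    · left
      refine Finset.sum_eq_zero fun o _ => ?_
      rw [if_neg]
      exact fun h1 => h ⟨o, h1⟩
  · show (if c = Sum.inr z then (1 : ℤ) else 0) = 0 ∨ (if c = Sum.inr z then (1 : ℤ) else 0) = 1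
    by_cases h : c = Sum.inr z
    · rw [if_pos h]; right; rfl
    · rw [if_neg h]; left; rfl

theorem MM_one_iff (ω : Om w) (t : Slot w → ZMod 2) (r : Rw w Z) (c : Cl w Z) :
    MM ℤ (piOf ω) t r c = 1 ↔
      (∃ x o, r = Sum.inl x ∧ c = Sum.inl (fo1 (piOf ω) t x o)) ∨
      ∃ z, r = Sum.inr z ∧ c = Sum.inr z := by
  classical
  constructor
  · intro h
    rcases r with x | z
    · left
      rw [MM_inl] at h
      by_contra hc
      have h1 : ∑ o, (if c = Sum.inl (fo1 (piOf ω) t x o) then (1 : ℤ) else 0) = 0 := by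
        refine Finset.sum_eq_zero fun o _ => ?_
        rw [if_neg]
        exact fun h1 => hc ⟨x, o, rfl, h1⟩
      rw [h1] at h
      exact absurd h (by norm_num)
    · right
      have h' : (if c = Sum.inr z then (1 : ℤ) else 0) = 1 := h
      by_cases h1 : c = Sum.inr z
      · exact ⟨z, rfl, h1⟩
      · rw [if_neg h1] at h'
        exact absurd h' (by norm_num)
  · rintro (⟨x, o, rfl, rfl⟩ | ⟨z, rfl, rfl⟩)
    · rcases MM_zero_one ω t (Sum.inl x : Rw w Z) (Sum.inl (fo1 (piOf ω) t x o)) with h | h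
      · rw [MM_inl] at h
        have h1 : (1 : ℤ) ≤ ∑ o', (if (Sum.inl (fo1 (piOf ω) t x o) : Cl w Z) =
            Sum.inl (fo1 (piOf ω) t x o') then (1 : ℤ) else 0) := by
          refine le_trans (b := if (Sum.inl (fo1 (piOf ω) t x o) : Cl w Z) =
            Sum.inl (fo1 (piOf ω) t x o) then (1 : ℤ) else 0) (by rw [if_pos rfl]) ?_
          refine Finset.single_le_sum (f := fun o' =>
            (if (Sum.inl (fo1 (piOf ω) t x o) : Cl w Z) =
            Sum.inl (fo1 (piOf ω) t x o') then (1 : ℤ) else 0)) (fun o' _ => ?_) (mem_univ o)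
          show (0 : ℤ) ≤ if _ then 1 else 0
          split_ifs <;> norm_num
        rw [h] at h1
        exact absurd h1 (by norm_num)
      · exact h
    · exact if_pos rfl

/-- the solutions of `lab i s = b` -/
def labInv (i : Fin 3) (b c : ZMod 2) : Four :=
  match i with
  | 0 => (b, c)
  | 1 => (c, b)
  | 2 => (c, b + c)

theorem labInv_spec (i : Fin 3) (s : Four) : ∃ c, s = labInv i (lab i s) c := by
  revert i s
  decide

/-- the Boolean matrix -/
noncomputable def xB (ω : Om w) {n : ℕ} (eR : Rw w Z ≃ Fin n) (eC : Cl w Z ≃ Fin n)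
    (t : Slot w → ZMod 2) (i : Fin n × Fin n) : Bool :=
  decide (MM ℤ (piOf ω) t (eR.symm i.1) (eC.symm i.2) = 1)

theorem degLe_xB (ω : Om w) {n : ℕ} (eR : Rw w Z ≃ Fin n) (eC : Cl w Z ≃ Fin n)
    (t : Slot w → ZMod 2) : DegLe 4 (xB ω eR eC t) := by
  classical
  have key : ∀ (p : Fin n → Prop) (f : Fin 4 → Fin n), (∀ j, p j → ∃ k, j = f k) →
      Nat.card {j // p j} ≤ 4 := by
    intro p f hf
    have h1 : Function.Injective (fun j : {j // p j} => (hf j.1 j.2).choose) := by
      intro j j' h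
      have h2 := (hf j.1 j.2).choose_spec
      have h3 := (hf j'.1 j'.2).choose_spec
      refine Subtype.ext ?_
      rw [h2, h3]
      exact congrArg f h
    have h2 := Nat.card_le_card_of_injective _ h1
    rw [Nat.card_eq_fintype_card (α := Fin 4), Fintype.card_fin] at h2
    exact h2
  have e4 : Fin 4 ≃ Option (Fin 3) := finSuccEquiv 3
  have e22 : Fin 4 ≃ Bool × ZMod 2 := Fintype.equivOfCardEq (by decide)
  have eF : Fin 4 ≃ Four := Fintype.equivOfCardEq (by decide)
  constructor
  · intro i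
    rcases hr : eR.symm i with x | z
    · refine key _ (fun k => eC (Sum.inl (fo1 (piOf ω) t x (e4 k)))) fun j hj => ?_
      have h1 : MM ℤ (piOf ω) t (eR.symm i) (eC.symm j) = 1 := of_decide_eq_true hj
      rw [hr, MM_one_iff] at h1
      rcases h1 with ⟨x', o, h2, h3⟩ | ⟨z, h2, _⟩
      · rw [Sum.inl.inj h2]
        refine ⟨e4.symm o, ?_⟩
        rw [Equiv.apply_symm_apply, ← h3, Equiv.apply_symm_apply]
      · exact absurd h2 Sum.inl_ne_inr
    · refine key _ (fun k => eC (Sum.inr z)) fun j hj => ?_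
      have h1 : MM ℤ (piOf ω) t (eR.symm i) (eC.symm j) = 1 := of_decide_eq_true hj
      rw [hr, MM_one_iff] at h1
      rcases h1 with ⟨x', o, h2, h3⟩ | ⟨z', h2, h3⟩
      · exact absurd h2 Sum.inr_ne_inl
      · refine ⟨0, ?_⟩
        rw [Sum.inr.inj h2, ← h3, Equiv.apply_symm_apply]
  · intro j
    rcases hc : eC.symm j with (⟨p, b⟩ | u) | z
    · refine key _ (fun k => eR (Sum.inl (((piOf ω).symm (p, (e22 k).1)).1,
        labInv ((piOf ω).symm (p, (e22 k).1)).2
          (b + t ((piOf ω).symm (p, (e22 k).1))) (e22 k).2))) fun i hi => ?_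
      have h1 : MM ℤ (piOf ω) t (eR.symm i) (eC.symm j) = 1 := of_decide_eq_true hi
      rw [hc, MM_one_iff] at h1
      rcases h1 with ⟨⟨u, s⟩, o, h2, h3⟩ | ⟨z, _, h3⟩
      · rcases o with _ | l
        · exact absurd (Sum.inl.inj h3) Sum.inl_ne_inr
        · have h4 := Prod.ext_iff.mp (Sum.inl.inj (Sum.inl.inj h3))
          have h5 : p = (piOf ω (u, l)).1 := h4.1
          have h6 : b = lab l s + t (u, l) := h4.2
          obtain ⟨c, hc'⟩ := labInv_spec l s
          refine ⟨e22.symm ((piOf ω (u, l)).2, c), ?_⟩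
          have h7 : (piOf ω).symm (p, (piOf ω (u, l)).2) = (u, l) := by
            rw [h5]
            exact (piOf ω).symm_apply_apply (u, l)
          simp only [Equiv.apply_symm_apply, h7]
          have h8 : b + t (u, l) = lab l s := by
            rw [h6, add_assoc, zmod2_add_self, add_zero]
          rw [h8, ← hc', ← h2, Equiv.apply_symm_apply]
      · exact absurd h3 Sum.inl_ne_inr
    · refine key _ (fun k => eR (Sum.inl (u, eF k))) fun i hi => ?_
      have h1 : MM ℤ (piOf ω) t (eR.symm i) (eC.symm j) = 1 := of_decide_eq_true hi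
      rw [hc, MM_one_iff] at h1
      rcases h1 with ⟨⟨u', s⟩, o, h2, h3⟩ | ⟨z, _, h3⟩
      · rcases o with _ | l
        · have h4 : u = u' := Sum.inr.inj (Sum.inl.inj h3)
          refine ⟨eF.symm s, ?_⟩
          rw [Equiv.apply_symm_apply, h4, ← h2, Equiv.apply_symm_apply]
        · exact absurd (Sum.inl.inj h3) Sum.inr_ne_inl
      · exact absurd h3 Sum.inl_ne_inr
    · refine key _ (fun k => eR (Sum.inr z)) fun i hi => ?_
      have h1 : MM ℤ (piOf ω) t (eR.symm i) (eC.symm j) = 1 := of_decide_eq_true hi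
      rw [hc, MM_one_iff] at h1
      rcases h1 with ⟨x', o, h2, h3⟩ | ⟨z', h2, h3⟩
      · exact absurd h3 Sum.inr_ne_inl
      · refine ⟨0, ?_⟩
        rw [Sum.inr.inj h3, ← h2, Equiv.apply_symm_apply]

theorem pm_xB (ω : Om w) {n : ℕ} [Fintype Z] (eR : Rw w Z ≃ Fin n) (eC : Cl w Z ≃ Fin n)
    (t : Slot w → ZMod 2) : ((pm (xB ω eR eC t) : ℕ) : ℤ) = PP (piOf ω) t := by
  classical
  have h1 := permanent_eq (K := ℤ) (piOf ω) eR eC t
  rw [Int.cast_id] at h1
  rw [← h1]
  unfold pm
  rw [Nat.card_eq_fintype_card, Fintype.card_subtype, Finset.card_filter, Nat.cast_sum]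
  unfold Matrix.permanent
  refine Fintype.sum_equiv (Equiv.inv _) _ _ fun σ => ?_
  show _ = ∏ i, (setup ℤ (piOf ω) eR eC).x t ((σ⁻¹ : Equiv.Perm (Fin n)) i, i)
  rw [← Equiv.prod_comp σ]
  have h2 : ∀ i, (setup ℤ (piOf ω) eR eC).x t ((σ⁻¹ : Equiv.Perm (Fin n)) (σ i), σ i) =
      if xB ω eR eC t (i, σ i) = true then 1 else 0 := by
    intro i
    rw [perm_inv_apply]
    show MM ℤ (piOf ω) t (eR.symm i) (eC.symm (σ i)) = _
    unfold xB
    rcases MM_zero_one ω t (eR.symm i) (eC.symm (σ i)) with h | h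
    · rw [if_neg]
      · exact h
      · intro h3
        have h4 := of_decide_eq_true h3
        change MM ℤ (piOf ω) t (eR.symm i) (eC.symm (σ i)) = 1 at h4
        rw [h] at h4
        exact absurd h4 (by norm_num)
    · rw [if_pos]
      · exact h
      · exact decide_eq_true h
  rw [Finset.prod_congr rfl (fun i _ => h2 i), Fintype.prod_boole]
  push_cast
  by_cases h3 : ∀ i, xB ω eR eC t (i, σ i) = true
  · rw [if_pos h3, if_pos h3]
  · rw [if_neg h3, if_neg h3]

end Pool.Agent.H30R2.PS
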