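import Pool.Agent.H30R2.PS.Bip3

set_option autoImplicit false
set_option linter.unusedSectionVars false

/-! Networks with several outputs. -/

namespace Pool.Agent.H30R2.PS

open Finset

/-- An acyclic network with inputs indexed by `I`, values in `K`, set of gates `Gt` and `m`
outputs. -/
structure Circ (I K : Type*) (m : ℕ) (Gt : Type*) where
  /-- the input read by an input gate (`none` for the other gates) -/
  inp : Gt → Option I
  /-- `w h g` is the number of wires from `h` to `g` -/
  w : Gt → Gt → ℕ
  /-- `F g s` is the value of the gate `g` when `s` is the multiset of the values of its incoming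
  wires -/
  F : Gt → Multiset K → K
  /-- the output gates -/
  outs : Fin m → Gt
  /-- a rank witnessing that the network is acyclic -/
  rank : Gt → ℕ
  acyc : ∀ h g, 0 < w h g → rank h < rank g

variable {I K Gt : Type*} {m : ℕ} [Fintype Gt]

/-- The value of a gate on the input `x`. -/
def Circ.val (C : Circ I K m Gt) (x : I → K) (g : Gt) : K :=
  match C.inp g with
  | some i => x i
  | none => C.F g (∑ h, if _hw : 0 < C.w h g then C.w h g • {C.val x h} else 0)
termination_by C.rank g
decreasing_by exact C.acyc _ _ _hw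

/-- `φ` is an automorphism of the network extending the permutation `p` of the inputs and fixing
the outputs -/
structure Circ.IsAut (C : Circ I K m Gt) (p : Equiv.Perm I) (φ : Equiv.Perm Gt) : Prop where
  inp : ∀ g, C.inp (φ g) = (C.inp g).map p
  w : ∀ h g, C.w (φ h) (φ g) = C.w h g
  F : ∀ g, C.F (φ g) = C.F g
  outs : ∀ j, φ (C.outs j) = C.outs j

theorem Circ.val_some (C : Circ I K m Gt) (x : I → K) {g : Gt} {i : I}
    (h : C.inp g = some i) : C.val x g = x i := by
  rw [Circ.val]
  simp only [h]

theorem Circ.val_none (C : Circ I K m Gt) (x : I → K) {g : Gt}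
    (h : C.inp g = none) : C.val x g = C.F g (∑ h, C.w h g • {C.val x h}) := by
  rw [Circ.val]
  simp only [h]
  congr 1
  apply Finset.sum_congr rfl
  intro k _
  split_ifs with hw
  · rfl
  · have : C.w k g = 0 := by omega
    rw [this, zero_smul]

/-- the network with a single output -/
def Circ.toNet (C : Circ I K m Gt) (o : Gt) : Net I K Gt where
  inp := C.inp
  w := C.w
  F := C.F
  out := o
  rank := C.rank
  acyc := C.acyc

theorem Circ.val_toNet (C : Circ I K m Gt) (o : Gt) (x : I → K) (g : Gt) :
    (C.toNet o).val x g = C.val x g := by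
  have key : ∀ n, ∀ g, C.rank g = n → (C.toNet o).val x g = C.val x g := by
    intro n
    induction n using Nat.strong_induction_on with
    | _ n ih =>
      intro g hg
      cases hi : C.inp g with
      | some e =>
        have hi' : (C.toNet o).inp g = some e := hi
        rw [Net.val_some _ _ hi', C.val_some _ hi]
      | none =>
        have hi' : (C.toNet o).inp g = none := hi
        rw [Net.val_none _ _ hi', C.val_none _ hi]
        show C.F g _ = C.F g _
        congr 1
        refine Finset.sum_congr rfl fun k _ => ?_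
        show C.w k g • _ = _
        by_cases hw : 0 < C.w k g
        · rw [ih (C.rank k) (by rw [← hg]; exact C.acyc _ _ hw) k rfl]
        · have : C.w k g = 0 := by omega
          rw [this, zero_smul, zero_smul]
  exact key _ g rfl

/-! ### The lower bound -/

theorem pm_zero {n : ℕ} (hn : 0 < n) : pm (fun _ : Fin n × Fin n => false) = 0 := by
  unfold pm
  have : IsEmpty {σ : Equiv.Perm (Fin n) //
      ∀ i, (fun _ : Fin n × Fin n => false) (i, σ i) = true} :=
    ⟨fun σ => Bool.false_ne_true (σ.2 ⟨0, hn⟩)⟩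
  exact Nat.card_of_isEmpty

theorem pm_diag (n : ℕ) : pm (fun i : Fin n × Fin n => decide (i.1 = i.2)) = 1 := by
  unfold pm
  have : Unique {σ : Equiv.Perm (Fin n) //
      ∀ i, (fun i : Fin n × Fin n => decide (i.1 = i.2)) (i, σ i) = true} :=
    { default := ⟨1, fun i => decide_eq_true rfl⟩
      uniq := fun σ => by
        refine Subtype.ext (Equiv.ext fun i => ?_)
        exact (of_decide_eq_true (σ.2 i) : i = σ.1 i).symm }
  exact Nat.card_unique

theorem degLe_zero (n : ℕ) : DegLe 4 (fun _ : Fin n × Fin n => false) := by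
  constructor
  · intro i
    have : IsEmpty {j // (fun _ : Fin n × Fin n => false) (i, j) = true} :=
      ⟨fun j => Bool.false_ne_true j.2⟩
    rw [Nat.card_of_isEmpty]
    exact Nat.zero_le _
  · intro j
    have : IsEmpty {i // (fun _ : Fin n × Fin n => false) (i, j) = true} :=
      ⟨fun j => Bool.false_ne_true j.2⟩
    rw [Nat.card_of_isEmpty]
    exact Nat.zero_le _

theorem degLe_diag (n : ℕ) : DegLe 4 (fun i : Fin n × Fin n => decide (i.1 = i.2)) := by
  constructor
  · intro i
    have : Subsingleton {j // (fun i : Fin n × Fin n => decide (i.1 = i.2)) (i, j) = true} :=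
      ⟨fun j j' => Subtype.ext ((of_decide_eq_true j.2 : i = j.1).symm.trans
        (of_decide_eq_true j'.2 : i = j'.1))⟩
    exact (Finite.card_le_one_iff_subsingleton.mpr this).trans (by norm_num)
  · intro j
    have : Subsingleton {i // (fun i : Fin n × Fin n => decide (i.1 = i.2)) (i, j) = true} :=
      ⟨fun i i' => Subtype.ext ((of_decide_eq_true i.2 : i.1 = j).trans
        (of_decide_eq_true i'.2 : i'.1 = j).symm)⟩
    exact (Finite.card_le_one_iff_subsingleton.mpr this).trans (by norm_num)

open Classical in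
theorem match_bound {K : Type} (b0 b1 : K) {m : ℕ} (dec : (Fin m → K) → ℕ) (M : ℕ)
    (hM : ∀ k : ℕ, ¬ M ∣ 2 ^ k) (n w : ℕ) (hn0 : 0 < n)
    (hn : 8 * w ≤ n) (ρ : Fin (2 * w) × Four ↪ Fin n) (κ : Fin (3 * w) × ZMod 2 ↪ Fin n)
    (Gt : Type) [Fintype Gt] (C : Circ (Fin n × Fin n) K m Gt)
    (hcomp : ∀ x : Fin n × Fin n → Bool, DegLe 4 x →
      dec (fun j => C.val (fun i => if x i = true then b1 else b0) (C.outs j)) = pm x % M)
    (hsym : ∀ (U : Fin (2 * w) → Four) (a : Fin (3 * w) → ZMod 2), ∃ φ, C.IsAut
      (((quadPerm U).viaEmbedding ρ).prodCongr ((pairPerm a).viaEmbedding κ)) φ) :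
    2 ^ (w / 210000) ≤ Fintype.card Gt := by
  have hM1 : M ≠ 1 := fun h => hM 0 (by rw [h, pow_zero])
  rcases Nat.eq_zero_or_pos m with rfl | hm
  · have h1 := hcomp _ (degLe_zero n)
    have h2 := hcomp _ (degLe_diag n)
    rw [pm_zero hn0] at h1
    rw [pm_diag] at h2
    have h3 : (fun j : Fin 0 => C.val (fun i => if
        (fun _ : Fin n × Fin n => false) i = true then b1 else b0) (C.outs j)) =
        (fun j : Fin 0 => C.val (fun i => if
        (fun i : Fin n × Fin n => decide (i.1 = i.2)) i = true then b1 else b0) (C.outs j)) :=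
      funext fun j => j.elim0
    rw [h3] at h1
    rw [h1, Nat.zero_mod] at h2
    rcases Nat.lt_or_ge M 2 with h4 | h4
    · interval_cases M
      · exact absurd h2 (by norm_num)
      · exact absurd rfl hM1
    · rw [Nat.mod_eq_of_lt h4] at h2
      exact absurd h2 (by norm_num)
  set j0 : Fin m := ⟨0, hm⟩ with hj0
  rcases Nat.lt_or_ge w 210000 with hw | hw
  · rw [Nat.div_eq_of_lt hw, pow_zero]
    have : Nonempty Gt := ⟨C.outs j0⟩
    exact Fintype.card_pos
  by_contra hcon
  rw [not_le] at hcon
  set τ : ℕ := w / 210000 with hτ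
  have hτ1 : 1 ≤ τ := by omega
  have hτw : 210000 * τ ≤ w := Nat.mul_div_le w 210000
  obtain ⟨eR, heR⟩ := exists_extend (γ := Fin (n - 8 * w)) ρ (by
    rw [Fintype.card_prod, Fintype.card_prod, Fintype.card_fin, Fintype.card_fin,
      Fintype.card_fin, ZMod.card]
    omega)
  obtain ⟨eC', heC'⟩ := exists_extend (γ := Fin (2 * w) ⊕ Fin (n - 8 * w)) κ (by
    rw [Fintype.card_sum, Fintype.card_prod, Fintype.card_fin, Fintype.card_fin,
      Fintype.card_fin, Fintype.card_fin, ZMod.card]
    omega)
  let eC : Cl w (Fin (n - 8 * w)) ≃ Fin n := (Equiv.sumAssoc _ _ _).trans eC'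
  have heC : ∀ x, eC (Sum.inl (Sum.inl x)) = κ x := heC'
  set N : Net (Fin n × Fin n) K Gt := C.toNet (C.outs j0) with hN
  have hsym' : ∀ h : Gp w, ∃ φ, N.IsAut
      ((eR.permCongr (rowAct h.2)).prodCongr (eC.permCongr (colAct h.1))) φ ∧
        ∀ j, φ (C.outs j) = C.outs j := by
    intro h
    obtain ⟨φ, hφ⟩ := hsym h.2 h.1
    have h3 : eR.permCongr (rowAct h.2) = (quadPerm h.2).viaEmbedding ρ := by
      refine Equiv.ext fun b => ?_
      obtain ⟨r, rfl⟩ := eR.surjective b
      rw [Equiv.permCongr_apply, Equiv.symm_apply_apply]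
      rcases r with x | z
      · rw [heR, Equiv.Perm.viaEmbedding_apply, ← heR]
        rfl
      · rw [Equiv.Perm.viaEmbedding_apply_of_notMem]
        · rfl
        · rintro ⟨x, hx⟩
          rw [← heR] at hx
          exact Sum.inl_ne_inr (eR.injective hx)
    have h4 : eC.permCongr (colAct h.1) = (pairPerm h.1).viaEmbedding κ := by
      refine Equiv.ext fun b => ?_
      obtain ⟨r, rfl⟩ := eC.surjective b
      rw [Equiv.permCongr_apply, Equiv.symm_apply_apply]
      rcases r with (x | u) | z
      · rw [heC, Equiv.Perm.viaEmbedding_apply, ← heC]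
        rfl
      · rw [Equiv.Perm.viaEmbedding_apply_of_notMem]
        · rfl
        · rintro ⟨x, hx⟩
          rw [← heC] at hx
          exact Sum.inl_ne_inr (Sum.inl.inj (eC.injective hx))
      · rw [Equiv.Perm.viaEmbedding_apply_of_notMem]
        · rfl
        · rintro ⟨x, hx⟩
          rw [← heC] at hx
          exact Sum.inl_ne_inr (eC.injective hx)
    rw [h3, h4]
    exact ⟨φ, ⟨hφ.inp, hφ.w, hφ.F, hφ.outs j0⟩, hφ.outs⟩
  obtain ⟨ω, hG⟩ := exists_good_bip (fun z : ℤ => if z = 1 then b1 else b0) eR eC N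
    (fun h => (hsym' h).imp fun φ hφ => hφ.1) τ hτw hcon
  have hwt : τ < wt (fun _ : Slot w => (1 : ZMod 2)) := by
    have h3 : wt (fun _ : Slot w => (1 : ZMod 2)) = 6 * w := by
      unfold wt
      rw [Finset.filter_true_of_mem (fun _ _ => (by decide : (1 : ZMod 2) ≠ 0)),
        Finset.card_univ, Fintype.card_prod, Fintype.card_fin, Fintype.card_fin]
      ring
    rw [h3]
    omega
  obtain ⟨e, he, hshift⟩ := shift_all hG hτ1 _ hwt
  have hx : ∀ t, ((setup ℤ (piOf ω) eR eC).mapK (fun z : ℤ => if z = 1 then b1 else b0)).x t =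
      fun i => if xB ω eR eC t i = true then b1 else b0 := by
    intro t
    funext i
    show (if MM ℤ (piOf ω) t (eR.symm i.1) (eC.symm i.2) = 1 then b1 else b0) = _
    exact if_congr (decide_eq_true_iff).symm rfl rfl
  have hval : ∀ t, pm (xB ω eR eC (t + e)) % M = pm (xB ω eR eC t) % M := by
    intro t
    rw [← hcomp _ (degLe_xB ω eR eC (t + e)), ← hcomp _ (degLe_xB ω eR eC t)]
    congr 1
    funext j
    rw [← hx, ← hx, ← C.val_toNet (C.outs j0), ← C.val_toNet (C.outs j0)]
    refine hshift (C.outs j) (fun a => ?_) t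
    obtain ⟨φ, h1, h2⟩ := hsym' a
    exact ⟨φ, h1, h2 j⟩
  have hchi : chi e = -1 := by
    rw [chi_eq_sg]
    have h5 : ∑ s, e s = 1 := by
      rw [← he]
      unfold dot
      exact Finset.sum_congr rfl fun s _ => (one_mul _).symm
    rw [h5]
    rfl
  refine contra (K := ZMod M) (fun k h => hM k ?_) (piOf ω) e hchi fun t => ?_
  · rw [← ZMod.natCast_eq_zero_iff]
    push_cast
    exact h
  · rw [← pm_xB ω eR eC, ← pm_xB ω eR eC, Int.cast_natCast, Int.cast_natCast]
    exact (ZMod.natCast_eq_natCast_iff' _ _ _).mpr (hval t)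

end Pool.Agent.H30R2.PS
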