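import Pool.Agent.H30R2.PS.Circ

set_option autoImplicit false
set_option linter.unusedSectionVars false

/-! Making a network symmetric. -/

namespace Pool.Agent.H30R2.PS

open Finset

variable {K : Type} {n m : ℕ} {Gt : Type}

/-- the permutation of the entries given by a permutation of the rows and one of the columns -/
def rc (d : Equiv.Perm (Fin n) × Equiv.Perm (Fin n)) : Equiv.Perm (Fin n × Fin n) :=
  d.1.prodCongr d.2

open Classical in
/-- Copies of the network for all elements of `D`, joined at the outputs. -/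
noncomputable def symCirc [Fintype Gt] (C : Circ (Fin n × Fin n) K m Gt) (F0 : Multiset K → K)
    (D : Subgroup (Equiv.Perm (Fin n) × Equiv.Perm (Fin n))) :
    Circ (Fin n × Fin n) K m ((D × Gt) ⊕ Fin m) where
  inp g := match g with
    | Sum.inl (d, g) => (C.inp g).map (rc d.1)
    | Sum.inr _ => none
  w h g := match h, g with
    | Sum.inl (d, h), Sum.inl (d', g) => if d = d' then C.w h g else 0
    | Sum.inl (_, h), Sum.inr j => if h = C.outs j then 1 else 0
    | Sum.inr _, _ => 0
  F g := match g with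
    | Sum.inl (_, g) => C.F g
    | Sum.inr _ => F0
  outs j := Sum.inr j
  rank g := match g with
    | Sum.inl (_, g) => C.rank g
    | Sum.inr j => C.rank (C.outs j) + 1
  acyc := by
    rintro (⟨d, h⟩ | i) (⟨d', g⟩ | j) hw
    · by_cases hd : d = d'
      · have hw' : 0 < (if d = d' then C.w h g else 0) := hw
        rw [if_pos hd] at hw'
        exact C.acyc h g hw'
      · have hw' : 0 < (if d = d' then C.w h g else 0) := hw
        rw [if_neg hd] at hw'
        exact absurd hw' (lt_irrefl _)
    · by_cases hh : h = C.outs j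
      · show C.rank h < C.rank (C.outs j) + 1
        rw [hh]
        exact Nat.lt_succ_self _
      · have hw' : 0 < (if h = C.outs j then 1 else 0) := hw
        rw [if_neg hh] at hw'
        exact absurd hw' (lt_irrefl _)
    · exact absurd hw (lt_irrefl _)
    · exact absurd hw (lt_irrefl _)

open Classical in
theorem symCirc_val [Fintype Gt] (C : Circ (Fin n × Fin n) K m Gt) (F0 : Multiset K → K)
    (D : Subgroup (Equiv.Perm (Fin n) × Equiv.Perm (Fin n))) [Fintype D]
    (x : Fin n × Fin n → K) (d : D) (g : Gt) :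
    (symCirc C F0 D).val x (Sum.inl (d, g)) = C.val (fun i => x (rc d.1 i)) g := by
  have key : ∀ k, ∀ g, C.rank g = k →
      (symCirc C F0 D).val x (Sum.inl (d, g)) = C.val (fun i => x (rc d.1 i)) g := by
    intro k
    induction k using Nat.strong_induction_on with
    | _ k ih =>
      intro g hg
      cases hi : C.inp g with
      | some e =>
        have hi' : (symCirc C F0 D).inp (Sum.inl (d, g)) = some (rc d.1 e) := by
          show (C.inp g).map (rc d.1) = _
          rw [hi]
          rfl
        rw [Circ.val_some _ _ hi', C.val_some _ hi]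
      | none =>
        have hi' : (symCirc C F0 D).inp (Sum.inl (d, g)) = none := by
          show (C.inp g).map (rc d.1) = _
          rw [hi]
          rfl
        rw [Circ.val_none _ _ hi', C.val_none _ hi]
        show C.F g _ = C.F g _
        congr 1
        rw [Fintype.sum_sum_type, Fintype.sum_prod_type]
        have h0 : ∑ i : Fin m, (symCirc C F0 D).w (Sum.inr i) (Sum.inl (d, g)) •
            ({(symCirc C F0 D).val x (Sum.inr i)} : Multiset K) = 0 :=
          Finset.sum_eq_zero fun i _ => zero_smul _ _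
        rw [h0, add_zero, Finset.sum_eq_single d]
        · refine Finset.sum_congr rfl fun h _ => ?_
          have h1 : (symCirc C F0 D).w (Sum.inl (d, h)) (Sum.inl (d, g)) = C.w h g := if_pos rfl
          rw [h1]
          by_cases hw : 0 < C.w h g
          · rw [ih (C.rank h) (by rw [← hg]; exact C.acyc _ _ hw) h rfl]
          · have : C.w h g = 0 := by omega
            rw [this, zero_smul, zero_smul]
        · intro b _ hb
          refine Finset.sum_eq_zero fun h _ => ?_
          have h1 : (symCirc C F0 D).w (Sum.inl (b, h)) (Sum.inl (d, g)) = 0 := if_neg hb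
          rw [h1, zero_smul]
        · intro h
          exact absurd (mem_univ d) h
  exact key _ g rfl

open Classical in
theorem symCirc_out [Fintype Gt] (C : Circ (Fin n × Fin n) K m Gt) (F0 : Multiset K → K)
    (D : Subgroup (Equiv.Perm (Fin n) × Equiv.Perm (Fin n))) [Fintype D]
    (x : Fin n × Fin n → K) (j : Fin m) :
    (symCirc C F0 D).val x (Sum.inr j) =
      F0 (∑ d : D, {C.val (fun i => x (rc d.1 i)) (C.outs j)}) := by
  have hi : (symCirc C F0 D).inp (Sum.inr j) = none := rfl
  rw [Circ.val_none _ _ hi]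
  show F0 _ = F0 _
  congr 1
  rw [Fintype.sum_sum_type, Fintype.sum_prod_type]
  have h0 : ∑ i : Fin m, (symCirc C F0 D).w (Sum.inr i) (Sum.inr j) •
      ({(symCirc C F0 D).val x (Sum.inr i)} : Multiset K) = 0 :=
    Finset.sum_eq_zero fun i _ => zero_smul _ _
  rw [h0, add_zero]
  refine Finset.sum_congr rfl fun d _ => ?_
  rw [Finset.sum_eq_single (C.outs j)]
  · have h1 : (symCirc C F0 D).w (Sum.inl (d, C.outs j)) (Sum.inr j) = 1 := if_pos rfl
    rw [h1, one_smul, symCirc_val]
  · intro h _ hh
    have h1 : (symCirc C F0 D).w (Sum.inl (d, h)) (Sum.inr j) = 0 := if_neg hh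
    rw [h1, zero_smul]
  · intro h
    exact absurd (mem_univ _) h

theorem symCirc_sym [Fintype Gt] (C : Circ (Fin n × Fin n) K m Gt) (F0 : Multiset K → K)
    (D : Subgroup (Equiv.Perm (Fin n) × Equiv.Perm (Fin n)))
    (d : Equiv.Perm (Fin n) × Equiv.Perm (Fin n)) (hd : d ∈ D) :
    ∃ φ, (symCirc C F0 D).IsAut (rc d) φ := by
  classical
  refine ⟨((Equiv.mulLeft (⟨d, hd⟩ : D)).prodCongr (Equiv.refl Gt)).sumCongr (Equiv.refl _),
    ?_, ?_, ?_, fun _ => rfl⟩
  · rintro (⟨d', g⟩ | i)
    · show (C.inp g).map (rc (d * d'.1)) = ((C.inp g).map (rc d'.1)).map (rc d)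
      rw [Option.map_map]
      rfl
    · rfl
  · rintro (⟨d', h⟩ | i) (⟨d'', g⟩ | j)
    · show (if (⟨d, hd⟩ : D) * d' = (⟨d, hd⟩ : D) * d'' then C.w h g else 0)
        = if d' = d'' then C.w h g else 0
      by_cases hab : d' = d''
      · rw [if_pos hab, if_pos (by rw [hab])]
      · rw [if_neg hab, if_neg (fun h' => hab (mul_left_cancel h'))]
    · rfl
    · rfl
    · rfl
  · rintro (⟨d', g⟩ | i)
    · rfl
    · rfl

theorem pm_rc (d : Equiv.Perm (Fin n) × Equiv.Perm (Fin n)) (x : Fin n × Fin n → Bool) :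
    pm (fun i => x (rc d i)) = pm x := by
  unfold pm
  refine Nat.card_congr (Equiv.subtypeEquiv
    (⟨fun σ => d.2 * σ * d.1⁻¹, fun σ => d.2⁻¹ * σ * d.1, fun σ => by group, fun σ => by group⟩ :
      Equiv.Perm (Fin n) ≃ Equiv.Perm (Fin n)) fun σ => ?_)
  show (∀ i, x (d.1 i, d.2 (σ i)) = true) ↔ ∀ i, x (i, (d.2 * σ * d.1⁻¹) i) = true
  constructor
  · intro h i
    have h1 := h (d.1⁻¹ i)
    rw [perm_apply_inv] at h1
    exact h1
  · intro h i
    have h1 := h (d.1 i)
    rw [Equiv.Perm.mul_apply, perm_inv_apply, Equiv.Perm.mul_apply] at h1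
    exact h1

theorem degLe_rc (d : Equiv.Perm (Fin n) × Equiv.Perm (Fin n)) (x : Fin n × Fin n → Bool)
    (Δ : ℕ) (hx : DegLe Δ x) : DegLe Δ (fun i => x (rc d i)) := by
  constructor
  · intro i
    refine le_trans (le_of_eq ?_) (hx.1 (d.1 i))
    exact Nat.card_congr (Equiv.subtypeEquiv d.2 fun j => Iff.rfl)
  · intro j
    refine le_trans (le_of_eq ?_) (hx.2 (d.2 j))
    exact Nat.card_congr (Equiv.subtypeEquiv d.1 fun i => Iff.rfl)

theorem match_converse (b0 b1 : K) (enc : ℕ → Fin m → K) (F0 : Multiset K → K)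
    (hF0 : ∀ (a : K) (k : ℕ), 0 < k → F0 (k • {a}) = a) (Δ : ℕ)
    (D : Subgroup (Equiv.Perm (Fin n) × Equiv.Perm (Fin n)))
    (Gt : Type) [Fintype Gt] (C : Circ (Fin n × Fin n) K m Gt)
    (hcomp : ∀ x : Fin n × Fin n → Bool, DegLe Δ x → ∀ j,
      C.val (fun i => if x i = true then b1 else b0) (C.outs j) = enc (pm x) j) :
    ∃ (Gt' : Type) (_ : Fintype Gt') (C' : Circ (Fin n × Fin n) K m Gt'),
      (∀ x : Fin n × Fin n → Bool, DegLe Δ x → ∀ j,
        C'.val (fun i => if x i = true then b1 else b0) (C'.outs j) = enc (pm x) j) ∧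
      (∀ d ∈ D, ∃ φ, C'.IsAut (d.1.prodCongr d.2) φ) ∧
      (∀ g, C'.F g = F0 ∨ ∃ h, C'.F g = C.F h) ∧
      Nat.card Gt' = Nat.card D * Nat.card Gt + m := by
  classical
  letI : Fintype D := Fintype.ofFinite D
  refine ⟨(D × Gt) ⊕ Fin m, inferInstance, symCirc C F0 D, ?_,
    fun d hd => symCirc_sym C F0 D d hd, ?_, ?_⟩
  · intro x hx j
    show (symCirc C F0 D).val _ (Sum.inr j) = _
    rw [symCirc_out]
    have h1 : ∀ d : D, C.val (fun i => (fun i => if x i = true then b1 else b0) (rc d.1 i))
        (C.outs j) = enc (pm x) j := by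
      intro d
      rw [← pm_rc d.1 x]
      exact hcomp _ (degLe_rc d.1 x Δ hx) j
    rw [Finset.sum_congr rfl (fun d _ => by rw [h1 d]), Finset.sum_const, Finset.card_univ]
    exact hF0 _ _ Fintype.card_pos
  · rintro (⟨d, g⟩ | i)
    · exact Or.inr ⟨g, rfl⟩
    · exact Or.inl rfl
  · rw [Nat.card_sum, Nat.card_prod, Nat.card_eq_fintype_card (α := Fin m), Fintype.card_fin]

end Pool.Agent.H30R2.PS
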