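import Pool.Agent.H30R2.PS.Fam

set_option autoImplicit false
set_option linter.unusedSectionVars false

/-! Counting the bijections for which a short combination is invisible. -/

namespace Pool.Agent.H30R2.PS

open Finset

section weight

variable {S : Type*} [Fintype S] [DecidableEq S]

/-- the number of vectors of a given weight -/
theorem card_wt (l : ℕ) : (univ.filter fun x : S → ZMod 2 => wt x = l).card =
    (Fintype.card S).choose l := by
  rw [← Finset.card_univ, ← Finset.card_powersetCard l (univ : Finset S)]
  refine Finset.card_bij (fun x _ => univ.filter fun j => x j ≠ 0) ?_ ?_ ?_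
  · intro x hx
    rw [Finset.mem_filter] at hx
    rw [Finset.mem_powersetCard]
    exact ⟨Finset.subset_univ _, hx.2⟩
  · intro x _ y _ hxy
    funext j
    have h1 : (x j ≠ 0) ↔ (y j ≠ 0) := by
      have h2 := Finset.ext_iff.mp hxy j
      rw [Finset.mem_filter, Finset.mem_filter] at h2
      exact ⟨fun h => (h2.mp ⟨mem_univ _, h⟩).2, fun h => (h2.mpr ⟨mem_univ _, h⟩).2⟩
    have h3 : ∀ a b : ZMod 2, ((a ≠ 0) ↔ (b ≠ 0)) → a = b := by decide
    exact h3 _ _ h1
  · intro J hJ
    rw [Finset.mem_powersetCard] at hJ
    have h1 : (univ.filter fun j => (fun j => if j ∈ J then (1 : ZMod 2) else 0) j ≠ 0) = J := by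
      ext j
      rw [Finset.mem_filter]
      constructor
      · rintro ⟨_, h⟩
        by_contra hn
        exact h (if_neg hn)
      · intro h
        refine ⟨mem_univ _, ?_⟩
        show (if j ∈ J then (1 : ZMod 2) else 0) ≠ 0
        rw [if_pos h]
        decide
    refine ⟨fun j => if j ∈ J then 1 else 0, ?_, h1⟩
    rw [Finset.mem_filter]
    refine ⟨mem_univ _, ?_⟩
    unfold wt
    rw [h1]
    exact hJ.2

/-- vectors of the same weight are permutations of each other -/
theorem exists_perm_of_wt (x y : S → ZMod 2) (h : wt x = wt y) :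
    ∃ τ : Equiv.Perm S, ∀ j, y (τ j) = x j := by
  have hc : Fintype.card {j // x j ≠ 0} = Fintype.card {j // y j ≠ 0} := by
    rw [Fintype.card_subtype, Fintype.card_subtype]
    exact h
  obtain ⟨e⟩ := Fintype.card_eq.mp hc
  refine ⟨e.extendSubtype, fun j => ?_⟩
  have h3 : ∀ a b : ZMod 2, ((a ≠ 0) ↔ (b ≠ 0)) → a = b := by decide
  refine h3 _ _ ⟨fun h1 => ?_, fun h1 => ?_⟩
  · by_contra hx
    exact Equiv.extendSubtype_not_mem e j (fun h2 => h2 hx) h1
  · exact Equiv.extendSubtype_mem e j h1

end weight

variable {w : ℕ}

/-- the parities at the pairs -/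
def cc (π : Slot w ≃ Fin (3 * w) × Bool) (l : Slot w → ZMod 2) (p : Fin (3 * w)) : ZMod 2 :=
  l (π.symm (p, false)) + l (π.symm (p, true))

/-- the parities at the quadruples -/
def dd (l : Slot w → ZMod 2) (u : Fin (2 * w)) : Four :=
  (l (u, 0) + l (u, 2), l (u, 1) + l (u, 2))

/-- the pairing on the group -/
def pair (h z : Gp w) : ZMod 2 :=
  ∑ p, h.1 p * z.1 p + ∑ u, ((h.2 u).1 * (z.2 u).1 + (h.2 u).2 * (z.2 u).2)

theorem dot_BB (π : Slot w ≃ Fin (3 * w) × Bool) (l : Slot w → ZMod 2) (h : Gp w) :
    dot l (BB π h) = pair h (cc π l, dd l) := by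
  unfold dot pair
  have h1 : ∀ s : Slot w, l s * BB π h s = l s * h.1 (π s).1 + l s * lab s.2 (h.2 s.1) := by
    intro s
    rw [BB_apply, mul_add]
  rw [Finset.sum_congr rfl (fun s _ => h1 s), Finset.sum_add_distrib]
  congr 1
  · rw [← Equiv.sum_comp π.symm, Fintype.sum_prod_type]
    refine Finset.sum_congr rfl fun p _ => ?_
    rw [Fintype.sum_bool, Equiv.apply_symm_apply, Equiv.apply_symm_apply]
    show l (π.symm (p, true)) * h.1 p + l (π.symm (p, false)) * h.1 p =
      h.1 p * (l (π.symm (p, false)) + l (π.symm (p, true)))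
    ring
  · rw [Fintype.sum_prod_type]
    refine Finset.sum_congr rfl fun u _ => ?_
    rw [Fin.sum_univ_three]
    show l (u, 0) * (h.2 u).1 + l (u, 1) * (h.2 u).2 + l (u, 2) * ((h.2 u).1 + (h.2 u).2) =
      (h.2 u).1 * (l (u, 0) + l (u, 2)) + (h.2 u).2 * (l (u, 1) + l (u, 2))
    ring

/-- The number of bijections with given parities depends only on the weight. -/
theorem card_cc_eq (x y : Slot w → ZMod 2) (h : wt x = wt y) (κ : Fin (3 * w) → ZMod 2) :
    (univ.filter fun π : Slot w ≃ Fin (3 * w) × Bool => cc π x = κ).card =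
      (univ.filter fun π : Slot w ≃ Fin (3 * w) × Bool => cc π y = κ).card := by
  obtain ⟨τ, hτ⟩ := exists_perm_of_wt x y h
  refine Finset.card_bij (fun π _ => τ.symm.trans π) ?_ ?_ ?_
  · intro π hπ
    rw [Finset.mem_filter] at hπ ⊢
    refine ⟨mem_univ _, ?_⟩
    rw [← hπ.2]
    funext p
    show y (τ (π.symm (p, false))) + y (τ (π.symm (p, true))) = _
    rw [hτ, hτ]
    rfl
  · intro π _ π' _ h'
    refine Equiv.ext fun s => ?_
    have h1 := Equiv.congr_fun h' (τ s)
    have h2 : π (τ.symm (τ s)) = π' (τ.symm (τ s)) := h1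
    rw [Equiv.symm_apply_apply] at h2
    exact h2
  · intro π hπ
    rw [Finset.mem_filter] at hπ
    refine ⟨τ.trans π, ?_, ?_⟩
    · rw [Finset.mem_filter]
      refine ⟨mem_univ _, ?_⟩
      rw [← hπ.2]
      funext p
      show x (τ.symm (π.symm (p, false))) + x (τ.symm (π.symm (p, true))) =
        y (π.symm (p, false)) + y (π.symm (p, true))
      rw [← hτ, ← hτ, Equiv.apply_symm_apply, Equiv.apply_symm_apply]
    · refine Equiv.ext fun s => ?_
      show π (τ (τ.symm s)) = π s
      rw [Equiv.apply_symm_apply]

/-- the number of vectors of weight `l` on the pairs with given parities -/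
def Ny (w l : ℕ) (κ : Fin (3 * w) → ZMod 2) : ℕ :=
  (univ.filter fun y : Fin (3 * w) × Bool → ZMod 2 =>
    wt y = l ∧ ∀ p, y (p, false) + y (p, true) = κ p).card

theorem card_cc (x : Slot w → ZMod 2) (κ : Fin (3 * w) → ZMod 2) :
    (univ.filter fun π : Slot w ≃ Fin (3 * w) × Bool => cc π x = κ).card *
      (6 * w).choose (wt x) =
      Fintype.card (Slot w ≃ Fin (3 * w) × Bool) * Ny w (wt x) κ := by
  have hcard : Fintype.card (Slot w) = 6 * w := by
    rw [Fintype.card_prod, Fintype.card_fin, Fintype.card_fin]
    ring
  have h1 : ∑ y ∈ univ.filter (fun y : Slot w → ZMod 2 => wt y = wt x),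
      (univ.filter fun π : Slot w ≃ Fin (3 * w) × Bool => cc π y = κ).card =
      (univ.filter fun π : Slot w ≃ Fin (3 * w) × Bool => cc π x = κ).card *
      (6 * w).choose (wt x) := by
    rw [Finset.sum_congr rfl (fun y hy => card_cc_eq y x (Finset.mem_filter.mp hy).2 κ),
      Finset.sum_const, card_wt, hcard, smul_eq_mul, mul_comm]
  rw [← h1]
  have h2 : ∑ y ∈ univ.filter (fun y : Slot w → ZMod 2 => wt y = wt x),
      (univ.filter fun π : Slot w ≃ Fin (3 * w) × Bool => cc π y = κ).card =
      ∑ π : Slot w ≃ Fin (3 * w) × Bool,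
        (univ.filter fun y : Slot w → ZMod 2 => wt y = wt x ∧ cc π y = κ).card := by
    have h6 : ∀ π : Slot w ≃ Fin (3 * w) × Bool,
        (univ.filter fun y : Slot w → ZMod 2 => wt y = wt x ∧ cc π y = κ).card =
        ∑ y : Slot w → ZMod 2, if wt y = wt x ∧ cc π y = κ then 1 else 0 :=
      fun π => Finset.card_filter _ _
    rw [Finset.sum_congr rfl (fun π _ => h6 π), Finset.sum_comm, Finset.sum_filter]
    refine Finset.sum_congr rfl fun y _ => ?_
    by_cases h3 : wt y = wt x
    · rw [if_pos h3, Finset.card_filter]
      refine Finset.sum_congr rfl fun π _ => ?_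
      by_cases h4 : cc π y = κ
      · rw [if_pos h4, if_pos ⟨h3, h4⟩]
      · rw [if_neg h4, if_neg (fun h => h4 h.2)]
    · rw [if_neg h3]
      exact (Finset.sum_eq_zero fun π _ => if_neg (fun h => h3 h.1)).symm
  rw [h2]
  have h5 : ∀ π : Slot w ≃ Fin (3 * w) × Bool,
      (univ.filter fun y : Slot w → ZMod 2 => wt y = wt x ∧ cc π y = κ).card =
        Ny w (wt x) κ := by
    intro π
    unfold Ny
    refine Finset.card_bij (fun y _ => fun q => y (π.symm q)) ?_ ?_ ?_
    · intro y hy
      rw [Finset.mem_filter] at hy ⊢
      refine ⟨mem_univ _, ?_, fun p => ?_⟩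
      · rw [← hy.2.1]
        unfold wt
        refine Finset.card_bij (fun q _ => π.symm q) ?_ ?_ ?_
        · intro q hq
          rw [Finset.mem_filter] at hq ⊢
          exact ⟨mem_univ _, hq.2⟩
        · intro q _ q' _ h
          exact π.symm.injective h
        · intro s hs
          rw [Finset.mem_filter] at hs
          refine ⟨π s, ?_, π.symm_apply_apply s⟩
          rw [Finset.mem_filter]
          refine ⟨mem_univ _, ?_⟩
          show y (π.symm (π s)) ≠ 0
          rw [Equiv.symm_apply_apply]
          exact hs.2
      · exact congrFun hy.2.2 p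
    · intro y _ y' _ h
      funext s
      have h6 := congrFun h (π s)
      have h7 : y (π.symm (π s)) = y' (π.symm (π s)) := h6
      rw [Equiv.symm_apply_apply] at h7
      exact h7
    · intro q hq
      rw [Finset.mem_filter] at hq
      refine ⟨fun s => q (π s), ?_, ?_⟩
      · rw [Finset.mem_filter]
        refine ⟨mem_univ _, ?_, ?_⟩
        · rw [← hq.2.1]
          unfold wt
          refine Finset.card_bij (fun s _ => π s) ?_ ?_ ?_
          · intro s hs
            rw [Finset.mem_filter] at hs ⊢
            exact ⟨mem_univ _, hs.2⟩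
          · intro s _ s' _ h
            exact π.injective h
          · intro r hr
            rw [Finset.mem_filter] at hr
            refine ⟨π.symm r, ?_, π.apply_symm_apply r⟩
            rw [Finset.mem_filter]
            refine ⟨mem_univ _, ?_⟩
            show q (π (π.symm r)) ≠ 0
            rw [Equiv.apply_symm_apply]
            exact hr.2
        · funext p
          show q (π (π.symm (p, false))) + q (π (π.symm (p, true))) = κ p
          rw [Equiv.apply_symm_apply, Equiv.apply_symm_apply]
          exact hq.2.2 p
      · funext r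
        show q (π (π.symm r)) = q r
        rw [Equiv.apply_symm_apply]
  rw [Finset.sum_congr rfl (fun π _ => h5 π), Finset.sum_const, Finset.card_univ, smul_eq_mul]

/-- the local weight -/
noncomputable def zw (z : ℝ) (x : ZMod 2) : ℝ := if x = 0 then 1 else z

theorem zw_zero (z : ℝ) : zw z 0 = 1 := if_pos rfl

theorem zw_one (z : ℝ) : zw z 1 = z := if_neg (by decide)

theorem pow_wt {S : Type*} [Fintype S] (z : ℝ) (x : S → ZMod 2) :
    z ^ wt x = ∏ s, zw z (x s) := by
  unfold wt zw
  rw [Finset.prod_ite, Finset.prod_const_one, one_mul, Finset.prod_const]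

/-- generating function bound for the vectors on the pairs -/
theorem Ny_le (l : ℕ) (κ : Fin (3 * w) → ZMod 2) {z : ℝ} (hz : 0 < z) :
    (Ny w l κ : ℝ) * z ^ l ≤ (1 + z ^ 2) ^ (3 * w) := by
  classical
  let e : (Fin (3 * w) → Bool → ZMod 2) ≃ (Fin (3 * w) × Bool → ZMod 2) :=
    (Equiv.curry _ _ _).symm
  calc (Ny w l κ : ℝ) * z ^ l
      = ∑ y ∈ univ.filter (fun y : Fin (3 * w) × Bool → ZMod 2 =>
          wt y = l ∧ ∀ p, y (p, false) + y (p, true) = κ p), z ^ wt y := by
        rw [Finset.sum_congr rfl (fun y hy => by rw [(Finset.mem_filter.mp hy).2.1]),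
          Finset.sum_const, nsmul_eq_mul]
        rfl
    _ ≤ ∑ y ∈ univ.filter (fun y : Fin (3 * w) × Bool → ZMod 2 =>
          ∀ p, y (p, false) + y (p, true) = κ p), z ^ wt y := by
        refine Finset.sum_le_sum_of_subset_of_nonneg ?_ fun y _ _ => by positivity
        intro y hy
        rw [Finset.mem_filter] at hy ⊢
        exact ⟨hy.1, hy.2.2⟩
    _ = ∑ y : Fin (3 * w) → Bool → ZMod 2, ∏ p,
          (if y p false + y p true = κ p then zw z (y p false) * zw z (y p true) else 0) := by
        rw [Finset.sum_filter, ← Equiv.sum_comp e]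
        refine Finset.sum_congr rfl fun y _ => ?_
        have h1 : z ^ wt (e y) = ∏ p, zw z (y p false) * zw z (y p true) := by
          rw [pow_wt, Fintype.prod_prod_type]
          refine Finset.prod_congr rfl fun p _ => ?_
          rw [Fintype.prod_bool, mul_comm]
          rfl
        by_cases h : ∀ p, y p false + y p true = κ p
        · have h' : ∀ p, e y (p, false) + e y (p, true) = κ p := h
          rw [if_pos h', h1]
          exact Finset.prod_congr rfl fun p _ => (if_pos (h p)).symm
        · have h' : ¬ ∀ p, e y (p, false) + e y (p, true) = κ p := h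
          rw [if_neg h']
          rw [not_forall] at h
          obtain ⟨p, hp⟩ := h
          exact (Finset.prod_eq_zero (mem_univ p) (if_neg hp)).symm
    _ = ∏ p, ∑ y : Bool → ZMod 2,
          (if y false + y true = κ p then zw z (y false) * zw z (y true) else 0) :=
        (Fintype.prod_sum (fun (p : Fin (3 * w)) (y : Bool → ZMod 2) =>
          if y false + y true = κ p then zw z (y false) * zw z (y true) else 0)).symm
    _ ≤ ∏ _p : Fin (3 * w), (1 + z ^ 2) := by
        refine Finset.prod_le_prod (fun p _ => ?_) fun p _ => ?_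
        · refine Finset.sum_nonneg fun y _ => ?_
          split_ifs
          · have h0 : ∀ x : ZMod 2, 0 ≤ zw z x := by
              intro x
              unfold zw
              split_ifs
              · norm_num
              · exact hz.le
            exact mul_nonneg (h0 _) (h0 _)
          · exact le_rfl
        · have h2 : ∀ f : (Bool → ZMod 2) → ℝ, ∑ y : Bool → ZMod 2, f y =
              ∑ a : ZMod 2, ∑ b : ZMod 2, f (fun c => if c then b else a) := by
            intro f
            let e2 : (ZMod 2 × ZMod 2) ≃ (Bool → ZMod 2) :=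
              { toFun := fun q c => if c then q.2 else q.1
                invFun := fun y => (y false, y true)
                left_inv := fun q => rfl
                right_inv := fun y => by
                  funext c
                  cases c <;> rfl }
            rw [← Equiv.sum_comp e2, Fintype.sum_prod_type]
            rfl
          rw [h2]
          have h3 : ∀ g : ZMod 2 → ℝ, ∑ a : ZMod 2, g a = g 0 + g 1 := Fin.sum_univ_two
          rw [h3, h3, h3]
          show (if (0 : ZMod 2) + 0 = κ p then zw z 0 * zw z 0 else 0) +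
            (if (0 : ZMod 2) + 1 = κ p then zw z 0 * zw z 1 else 0) +
            ((if (1 : ZMod 2) + 0 = κ p then zw z 1 * zw z 0 else 0) +
            (if (1 : ZMod 2) + 1 = κ p then zw z 1 * zw z 1 else 0)) ≤ 1 + z ^ 2
          rw [zw_zero, zw_one]
          have h4 : κ p = 0 ∨ κ p = 1 := by
            generalize κ p = c
            revert c
            decide
          rcases h4 with h4 | h4
          · rw [h4, if_pos (by decide), if_neg (by decide), if_neg (by decide),
              if_pos (by decide)]
            nlinarith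
          · rw [h4, if_neg (by decide), if_pos (by decide), if_pos (by decide),
              if_neg (by decide)]
            nlinarith [sq_nonneg (z - 1)]
    _ = (1 + z ^ 2) ^ (3 * w) := by
        rw [Finset.prod_const, Finset.card_univ, Fintype.card_fin]

/-- generating function bound for the vectors on the slots -/
theorem Nl_le (l : ℕ) (δ : Fin (2 * w) → Four) {z : ℝ} (hz : 0 < z) :
    ((univ.filter fun x : Slot w → ZMod 2 => wt x = l ∧ dd x = δ).card : ℝ) * z ^ l ≤
      (1 + z ^ 3) ^ (2 * w) := by
  classical
  let e : (Fin (2 * w) → Fin 3 → ZMod 2) ≃ (Fin (2 * w) × Fin 3 → ZMod 2) :=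
    (Equiv.curry _ _ _).symm
  calc ((univ.filter fun x : Slot w → ZMod 2 => wt x = l ∧ dd x = δ).card : ℝ) * z ^ l
      = ∑ y ∈ univ.filter (fun x : Slot w → ZMod 2 => wt x = l ∧ dd x = δ), z ^ wt y := by
        rw [Finset.sum_congr rfl (fun y hy => by rw [(Finset.mem_filter.mp hy).2.1]),
          Finset.sum_const, nsmul_eq_mul]
    _ ≤ ∑ y ∈ univ.filter (fun x : Slot w → ZMod 2 => dd x = δ), z ^ wt y := by
        refine Finset.sum_le_sum_of_subset_of_nonneg ?_ fun y _ _ => by positivity
        intro y hy
        rw [Finset.mem_filter] at hy ⊢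
        exact ⟨hy.1, hy.2.2⟩
    _ = ∑ y : Fin (2 * w) → Fin 3 → ZMod 2, ∏ u,
          (if (y u 0 + y u 2, y u 1 + y u 2) = δ u then
            zw z (y u 0) * zw z (y u 1) * zw z (y u 2) else 0) := by
        rw [Finset.sum_filter, ← Equiv.sum_comp e]
        refine Finset.sum_congr rfl fun y _ => ?_
        have h1 : z ^ wt (e y) = ∏ u, zw z (y u 0) * zw z (y u 1) * zw z (y u 2) := by
          rw [pow_wt, Fintype.prod_prod_type]
          refine Finset.prod_congr rfl fun p _ => ?_
          rw [Fin.prod_univ_three]
          rfl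
        by_cases h : ∀ u, (y u 0 + y u 2, y u 1 + y u 2) = δ u
        · have h' : dd (e y) = δ := funext h
          rw [if_pos h', h1]
          exact Finset.prod_congr rfl fun p _ => (if_pos (h p)).symm
        · have h' : ¬ dd (e y) = δ := fun h2 => h (congrFun h2)
          rw [if_neg h']
          rw [not_forall] at h
          obtain ⟨p, hp⟩ := h
          exact (Finset.prod_eq_zero (mem_univ p) (if_neg hp)).symm
    _ = ∏ u, ∑ y : Fin 3 → ZMod 2,
          (if (y 0 + y 2, y 1 + y 2) = δ u then zw z (y 0) * zw z (y 1) * zw z (y 2) else 0) :=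
        (Fintype.prod_sum (fun (u : Fin (2 * w)) (y : Fin 3 → ZMod 2) =>
          if (y 0 + y 2, y 1 + y 2) = δ u then
            zw z (y 0) * zw z (y 1) * zw z (y 2) else 0)).symm
    _ ≤ ∏ _u : Fin (2 * w), (1 + z ^ 3) := by
        refine Finset.prod_le_prod (fun p _ => ?_) fun u _ => ?_
        · refine Finset.sum_nonneg fun y _ => ?_
          split_ifs
          · have h0 : ∀ x : ZMod 2, 0 ≤ zw z x := by
              intro x
              unfold zw
              split_ifs
              · norm_num
              · exact hz.le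
            exact mul_nonneg (mul_nonneg (h0 _) (h0 _)) (h0 _)
          · exact le_rfl
        · have h2 : ∀ f : (Fin 3 → ZMod 2) → ℝ, ∑ y : Fin 3 → ZMod 2, f y =
              ∑ a : ZMod 2, ∑ b : ZMod 2, ∑ c : ZMod 2, f ![a, b, c] := by
            intro f
            let e2 : (ZMod 2 × ZMod 2 × ZMod 2) ≃ (Fin 3 → ZMod 2) :=
              { toFun := fun q => ![q.1, q.2.1, q.2.2]
                invFun := fun y => (y 0, y 1, y 2)
                left_inv := fun q => rfl
                right_inv := fun y => by
                  funext c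
                  fin_cases c <;> rfl }
            rw [← Equiv.sum_comp e2, Fintype.sum_prod_type]
            refine Finset.sum_congr rfl fun a _ => ?_
            rw [Fintype.sum_prod_type]
            rfl
          rw [h2]
          have h3 : ∀ g : ZMod 2 → ℝ, ∑ a : ZMod 2, g a = g 0 + g 1 := Fin.sum_univ_two
          rw [h3, h3, h3, h3, h3, h3, h3]
          have h5 : ∀ a b c : ZMod 2, (if ((![a, b, c] : Fin 3 → ZMod 2) 0 +
              (![a, b, c] : Fin 3 → ZMod 2) 2, (![a, b, c] : Fin 3 → ZMod 2) 1 +
              (![a, b, c] : Fin 3 → ZMod 2) 2) = δ u then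
              zw z ((![a, b, c] : Fin 3 → ZMod 2) 0) * zw z ((![a, b, c] : Fin 3 → ZMod 2) 1) *
              zw z ((![a, b, c] : Fin 3 → ZMod 2) 2) else 0) =
              (if (a + c, b + c) = δ u then zw z a * zw z b * zw z c else 0) := fun a b c => rfl
          rw [h5, h5, h5, h5, h5, h5, h5, h5, zw_zero, zw_one]
          have h4 : δ u = (0, 0) ∨ δ u = (0, 1) ∨ δ u = (1, 0) ∨ δ u = (1, 1) := by
            generalize δ u = c
            revert c
            decide
          rcases h4 with h4 | h4 | h4 | h4
          · rw [h4, if_pos (by decide), if_neg (by decide), if_neg (by decide),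
              if_neg (by decide), if_neg (by decide), if_neg (by decide), if_neg (by decide),
              if_pos (by decide)]
            nlinarith
          · rw [h4, if_neg (by decide), if_neg (by decide), if_pos (by decide),
              if_neg (by decide), if_neg (by decide), if_pos (by decide), if_neg (by decide),
              if_neg (by decide)]
            nlinarith [mul_nonneg (sq_nonneg (z - 1)) (by linarith : (0 : ℝ) ≤ z + 1)]
          · rw [h4, if_neg (by decide), if_neg (by decide), if_neg (by decide),
              if_pos (by decide), if_pos (by decide), if_neg (by decide), if_neg (by decide),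
              if_neg (by decide)]
            nlinarith [mul_nonneg (sq_nonneg (z - 1)) (by linarith : (0 : ℝ) ≤ z + 1)]
          · rw [h4, if_neg (by decide), if_pos (by decide), if_neg (by decide),
              if_neg (by decide), if_neg (by decide), if_neg (by decide), if_pos (by decide),
              if_neg (by decide)]
            nlinarith [mul_nonneg (sq_nonneg (z - 1)) (by linarith : (0 : ℝ) ≤ z + 1)]
    _ = (1 + z ^ 3) ^ (2 * w) := by
        rw [Finset.prod_const, Finset.card_univ, Fintype.card_fin]

end Pool.Agent.H30R2.PS
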