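import Pool.Agent.H30R2.PS.Net

set_option autoImplicit false
set_option linter.unusedSectionVars false

/-! Making an arithmetic circuit for the permanent symmetric. -/

namespace Pool.Agent.H30R2.PS

open Finset

/-- An arithmetic circuit: each gate is an input, a constant, a sum or a product. -/
def Net.Arith {I K Gt : Type*} [CommSemiring K] (N : Net I K Gt) : Prop :=
  ∀ g, N.inp g ≠ none ∨ (∃ c, N.F g = fun _ => c) ∨ N.F g = Multiset.sum ∨
    N.F g = Multiset.prod

variable {K : Type} [Field K] {n : ℕ} {Gt : Type}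

/-- the permutation of the entries given by a permutation of the rows and one of the columns -/
def ent (d : Equiv.Perm (Fin n) × Equiv.Perm (Fin n)) : Equiv.Perm (Fin n × Fin n) :=
  d.1.prodCongr d.2

open Classical in
/-- Copies of the circuit for all elements of `D`, averaged. -/
noncomputable def symNet [Fintype Gt] (N : Net (Fin n × Fin n) K Gt)
    (D : Subgroup (Equiv.Perm (Fin n) × Equiv.Perm (Fin n))) :
    Net (Fin n × Fin n) K ((D × Gt) ⊕ Fin 3) where
  inp g := match g with
    | Sum.inl (d, g) => (N.inp g).map (ent d.1)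
    | Sum.inr _ => none
  w h g := match h, g with
    | Sum.inl (d, h), Sum.inl (d', g) => if d = d' then N.w h g else 0
    | Sum.inl (_, h), Sum.inr i => if h = N.out ∧ i = 0 then 1 else 0
    | Sum.inr i, Sum.inr j => if i ≠ 2 ∧ j = 2 then 1 else 0
    | Sum.inr _, Sum.inl _ => 0
  F g := match g with
    | Sum.inl (_, g) => N.F g
    | Sum.inr i => if i = 0 then Multiset.sum else if i = 1 then fun _ => (Nat.card D : K)⁻¹
        else Multiset.prod
  out := Sum.inr 2
  rank g := match g with
    | Sum.inl (_, g) => N.rank g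
    | Sum.inr i => if i = 2 then N.rank N.out + 2 else N.rank N.out + 1
  acyc := by
    rintro (⟨d, h⟩ | i) (⟨d', g⟩ | j) hw
    · by_cases hd : d = d'
      · have hw' : 0 < (if d = d' then N.w h g else 0) := hw
        rw [if_pos hd] at hw'
        exact N.acyc h g hw'
      · have hw' : 0 < (if d = d' then N.w h g else 0) := hw
        rw [if_neg hd] at hw'
        exact absurd hw' (lt_irrefl _)
    · by_cases hh : h = N.out ∧ j = 0
      · show N.rank h < if j = 2 then N.rank N.out + 2 else N.rank N.out + 1
        rw [hh.1, hh.2, if_neg (by decide)]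
        exact Nat.lt_succ_self _
      · have hw' : 0 < (if h = N.out ∧ j = 0 then 1 else 0) := hw
        rw [if_neg hh] at hw'
        exact absurd hw' (lt_irrefl _)
    · exact absurd hw (lt_irrefl _)
    · by_cases hh : i ≠ 2 ∧ j = 2
      · show (if i = 2 then N.rank N.out + 2 else N.rank N.out + 1) <
          if j = 2 then N.rank N.out + 2 else N.rank N.out + 1
        rw [if_neg hh.1, if_pos hh.2]
        exact Nat.lt_succ_self _
      · have hw' : 0 < (if i ≠ 2 ∧ j = 2 then 1 else 0) := hw
        rw [if_neg hh] at hw'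
        exact absurd hw' (lt_irrefl _)

open Classical in
theorem symNet_val [Fintype Gt] (N : Net (Fin n × Fin n) K Gt)
    (D : Subgroup (Equiv.Perm (Fin n) × Equiv.Perm (Fin n))) [Fintype D]
    (x : Fin n × Fin n → K) (d : D) (g : Gt) :
    (symNet N D).val x (Sum.inl (d, g)) = N.val (fun i => x (ent d.1 i)) g := by
  have key : ∀ m, ∀ g, N.rank g = m →
      (symNet N D).val x (Sum.inl (d, g)) = N.val (fun i => x (ent d.1 i)) g := by
    intro m
    induction m using Nat.strong_induction_on with
    | _ m ih =>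
      intro g hg
      cases hi : N.inp g with
      | some e =>
        have hi' : (symNet N D).inp (Sum.inl (d, g)) = some (ent d.1 e) := by
          show (N.inp g).map (ent d.1) = _
          rw [hi]
          rfl
        rw [Net.val_some _ _ hi', N.val_some _ hi]
      | none =>
        have hi' : (symNet N D).inp (Sum.inl (d, g)) = none := by
          show (N.inp g).map (ent d.1) = _
          rw [hi]
          rfl
        rw [Net.val_none _ _ hi', N.val_none _ hi]
        show N.F g _ = N.F g _
        congr 1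
        rw [Fintype.sum_sum_type, Fintype.sum_prod_type]
        have h0 : ∑ i : Fin 3, (symNet N D).w (Sum.inr i) (Sum.inl (d, g)) •
            ({(symNet N D).val x (Sum.inr i)} : Multiset K) = 0 :=
          Finset.sum_eq_zero fun i _ => zero_smul _ _
        rw [h0, add_zero, Finset.sum_eq_single d]
        · refine Finset.sum_congr rfl fun h _ => ?_
          have h1 : (symNet N D).w (Sum.inl (d, h)) (Sum.inl (d, g)) = N.w h g := if_pos rfl
          rw [h1]
          by_cases hw : 0 < N.w h g
          · rw [ih (N.rank h) (by rw [← hg]; exact N.acyc _ _ hw) h rfl]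
          · have : N.w h g = 0 := by omega
            rw [this, zero_smul, zero_smul]
        · intro b _ hb
          refine Finset.sum_eq_zero fun h _ => ?_
          have h1 : (symNet N D).w (Sum.inl (b, h)) (Sum.inl (d, g)) = 0 := if_neg hb
          rw [h1, zero_smul]
        · intro h
          exact absurd (mem_univ d) h
  exact key _ g rfl

open Classical in
theorem symNet_val0 [Fintype Gt] (N : Net (Fin n × Fin n) K Gt)
    (D : Subgroup (Equiv.Perm (Fin n) × Equiv.Perm (Fin n))) [Fintype D]
    (x : Fin n × Fin n → K) :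
    (symNet N D).val x (Sum.inr 0) = ∑ d : D, N.eval (fun i => x (ent d.1 i)) := by
  have hi : (symNet N D).inp (Sum.inr 0) = none := rfl
  rw [Net.val_none _ _ hi]
  show Multiset.sum _ = _
  rw [Fintype.sum_sum_type, Fintype.sum_prod_type]
  have h0 : ∑ i : Fin 3, (symNet N D).w (Sum.inr i) (Sum.inr 0) •
      ({(symNet N D).val x (Sum.inr i)} : Multiset K) = 0 := by
    refine Finset.sum_eq_zero fun i _ => ?_
    have h1 : (symNet N D).w (Sum.inr i) (Sum.inr 0) = 0 := if_neg fun h => by
      exact absurd h.2 (by decide)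
    rw [h1, zero_smul]
  rw [h0, add_zero]
  have h2 : ∀ d : D, ∑ h : Gt, (symNet N D).w (Sum.inl (d, h)) (Sum.inr 0) •
      ({(symNet N D).val x (Sum.inl (d, h))} : Multiset K) =
        {N.eval (fun i => x (ent d.1 i))} := by
    intro d
    rw [Finset.sum_eq_single N.out]
    · have h1 : (symNet N D).w (Sum.inl (d, N.out)) (Sum.inr 0) = 1 := if_pos ⟨rfl, rfl⟩
      rw [h1, one_smul, symNet_val]
      rfl
    · intro h _ hh
      have h1 : (symNet N D).w (Sum.inl (d, h)) (Sum.inr 0) = 0 := if_neg fun h' => hh h'.1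
      rw [h1, zero_smul]
    · intro h
      exact absurd (mem_univ _) h
  rw [Finset.sum_congr rfl (fun d _ => h2 d)]
  have h3 : ∀ F : Finset D, (∑ d ∈ F, ({N.eval (fun i => x (ent d.1 i))} : Multiset K)).sum =
      ∑ d ∈ F, N.eval (fun i => x (ent d.1 i)) := by
    intro F
    induction F using Finset.induction_on with
    | empty => rfl
    | insert a F ha ih =>
      rw [Finset.sum_insert ha, Finset.sum_insert ha, Multiset.sum_add, Multiset.sum_singleton, ih]
  exact h3 univ

open Classical in
theorem symNet_w_rr [Fintype Gt] (N : Net (Fin n × Fin n) K Gt)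
    (D : Subgroup (Equiv.Perm (Fin n) × Equiv.Perm (Fin n))) (i j : Fin 3) :
    (symNet N D).w (Sum.inr i) (Sum.inr j) = if i ≠ 2 ∧ j = 2 then 1 else 0 := rfl

open Classical in
theorem symNet_eval [Fintype Gt] (N : Net (Fin n × Fin n) K Gt)
    (D : Subgroup (Equiv.Perm (Fin n) × Equiv.Perm (Fin n))) [Fintype D]
    (x : Fin n × Fin n → K) :
    (symNet N D).eval x =
      (∑ d : D, N.eval (fun i => x (ent d.1 i))) * (Nat.card D : K)⁻¹ := by
  have hi : (symNet N D).inp (Sum.inr 2) = none := rfl
  show (symNet N D).val x (Sum.inr 2) = _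
  rw [Net.val_none _ _ hi]
  have hF : (symNet N D).F (Sum.inr 2) = Multiset.prod := by
    show (if (2 : Fin 3) = 0 then Multiset.sum else if (2 : Fin 3) = 1 then
      fun _ => (Nat.card D : K)⁻¹ else Multiset.prod) = _
    rw [if_neg (by decide), if_neg (by decide)]
  rw [hF, Fintype.sum_sum_type]
  have h0 : ∑ q : D × Gt, (symNet N D).w (Sum.inl q) (Sum.inr 2) •
      ({(symNet N D).val x (Sum.inl q)} : Multiset K) = 0 := by
    refine Finset.sum_eq_zero fun q _ => ?_
    have h1 : (symNet N D).w (Sum.inl q) (Sum.inr 2) = 0 := if_neg fun h => by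
      exact absurd h.2 (by decide)
    rw [h1, zero_smul]
  rw [h0, zero_add, Fin.sum_univ_three]
  have h1 : (symNet N D).w (Sum.inr 0) (Sum.inr 2) = 1 := by
    rw [symNet_w_rr]
    exact if_pos ⟨by decide, rfl⟩
  have h2 : (symNet N D).w (Sum.inr 1) (Sum.inr 2) = 1 := by
    rw [symNet_w_rr]
    exact if_pos ⟨by decide, rfl⟩
  have h3 : (symNet N D).w (Sum.inr 2) (Sum.inr 2) = 0 := by
    rw [symNet_w_rr]
    exact if_neg fun h => h.1 rfl
  rw [h1, h2, h3, one_smul, one_smul, zero_smul, add_zero, Multiset.prod_add,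
    Multiset.prod_singleton, Multiset.prod_singleton, symNet_val0]
  congr 1
  have hi1 : (symNet N D).inp (Sum.inr 1) = none := rfl
  rw [Net.val_none _ _ hi1]
  rfl

theorem symNet_sym [Fintype Gt] (N : Net (Fin n × Fin n) K Gt)
    (D : Subgroup (Equiv.Perm (Fin n) × Equiv.Perm (Fin n)))
    (d : Equiv.Perm (Fin n) × Equiv.Perm (Fin n)) (hd : d ∈ D) :
    ∃ φ, (symNet N D).IsAut (ent d) φ := by
  classical
  refine ⟨((Equiv.mulLeft (⟨d, hd⟩ : D)).prodCongr (Equiv.refl Gt)).sumCongr (Equiv.refl _),
    ?_, ?_, ?_, rfl⟩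
  · rintro (⟨d', g⟩ | i)
    · show (N.inp g).map (ent (d * d'.1)) = ((N.inp g).map (ent d'.1)).map (ent d)
      rw [Option.map_map]
      rfl
    · rfl
  · rintro (⟨d', h⟩ | i) (⟨d'', g⟩ | j)
    · show (if (⟨d, hd⟩ : D) * d' = (⟨d, hd⟩ : D) * d'' then N.w h g else 0)
        = if d' = d'' then N.w h g else 0
      by_cases hab : d' = d''
      · rw [if_pos hab, if_pos (by rw [hab])]
      · rw [if_neg hab, if_neg (fun h' => hab (mul_left_cancel h'))]
    · rfl
    · rfl
    · rfl
  · rintro (⟨d', g⟩ | i)
    · rfl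
    · rfl

theorem symNet_arith [Fintype Gt] (N : Net (Fin n × Fin n) K Gt) (hN : N.Arith)
    (D : Subgroup (Equiv.Perm (Fin n) × Equiv.Perm (Fin n))) : (symNet N D).Arith := by
  classical
  rintro (⟨d, g⟩ | i)
  · rcases hN g with h | h | h | h
    · left
      show (N.inp g).map (ent d.1) ≠ none
      intro h'
      rw [Option.map_eq_none_iff] at h'
      exact h h'
    · exact Or.inr (Or.inl h)
    · exact Or.inr (Or.inr (Or.inl h))
    · exact Or.inr (Or.inr (Or.inr h))
  · right
    have hF : (symNet N D).F (Sum.inr i) = if i = 0 then Multiset.sum else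
      if i = 1 then fun _ => (Nat.card D : K)⁻¹ else Multiset.prod := rfl
    rw [hF]
    by_cases h0 : i = 0
    · rw [if_pos h0]
      exact Or.inr (Or.inl rfl)
    · rw [if_neg h0]
      by_cases h1 : i = 1
      · rw [if_pos h1]
        exact Or.inl ⟨_, rfl⟩
      · rw [if_neg h1]
        exact Or.inr (Or.inr rfl)

/-- The converse: symmetrization of circuits for the permanent. -/
theorem perm_converse [CharZero K] (D : Subgroup (Equiv.Perm (Fin n) × Equiv.Perm (Fin n)))
    (Gt : Type) [Fintype Gt] (N : Net (Fin n × Fin n) K Gt) (hN : N.Arith)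
    (hcomp : ∀ x : Fin n × Fin n → K,
      N.eval x = Matrix.permanent (Matrix.of fun i j => x (i, j))) :
    ∃ (Gt' : Type) (_ : Fintype Gt') (N' : Net (Fin n × Fin n) K Gt'), N'.Arith ∧
      (∀ x : Fin n × Fin n → K,
        N'.eval x = Matrix.permanent (Matrix.of fun i j => x (i, j))) ∧
      (∀ d ∈ D, ∃ φ, N'.IsAut (ent d) φ) ∧
      Nat.card Gt' = Nat.card D * Nat.card Gt + 3 := by
  classical
  letI : Fintype D := Fintype.ofFinite D
  refine ⟨(D × Gt) ⊕ Fin 3, inferInstance, symNet N D, symNet_arith N hN D, ?_,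
    fun d hd => symNet_sym N D d hd, ?_⟩
  · intro x
    rw [symNet_eval]
    have h1 : ∀ d : D, N.eval (fun i => x (ent d.1 i)) =
        Matrix.permanent (Matrix.of fun i j => x (i, j)) := by
      intro d
      rw [hcomp]
      have h2 : (Matrix.of fun i j => x (ent d.1 (i, j))) =
          ((Matrix.of fun i j => x (i, j)).submatrix d.1.1 d.1.2 :
            Matrix (Fin n) (Fin n) K) := rfl
      rw [h2]
      unfold Matrix.permanent
      let e : Equiv.Perm (Fin n) ≃ Equiv.Perm (Fin n) :=
        { toFun := fun σ => d.1.1 * σ * d.1.2⁻¹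
          invFun := fun σ => d.1.1⁻¹ * σ * d.1.2
          left_inv := fun σ => by group
          right_inv := fun σ => by group }
      refine Eq.trans ?_ (Equiv.sum_comp e
        (fun σ => ∏ i, (Matrix.of fun i j => x (i, j) : Matrix (Fin n) (Fin n) K) (σ i) i))
      refine Finset.sum_congr rfl fun σ _ => ?_
      refine Eq.trans ?_ (Equiv.prod_comp d.1.2
        (fun i => (Matrix.of fun i j => x (i, j) : Matrix (Fin n) (Fin n) K) (e σ i) i))
      refine Finset.prod_congr rfl fun i _ => ?_
      show x (d.1.1 (σ i), d.1.2 i) = x ((d.1.1 * σ * d.1.2⁻¹) (d.1.2 i), d.1.2 i)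
      rw [Equiv.Perm.mul_apply, perm_inv_apply, Equiv.Perm.mul_apply]
    rw [Finset.sum_congr rfl (fun d _ => h1 d), Finset.sum_const, Finset.card_univ,
      nsmul_eq_mul, Nat.card_eq_fintype_card]
    have h3 : ((Fintype.card D : ℕ) : K) ≠ 0 := by
      have : 0 < Fintype.card D := Fintype.card_pos
      exact_mod_cast this.ne'
    rw [mul_comm, ← mul_assoc, inv_mul_cancel₀ h3, one_mul]
  · rw [Nat.card_sum, Nat.card_prod, Nat.card_eq_fintype_card (α := Fin 3), Fintype.card_fin]

end Pool.Agent.H30R2.PS
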