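import Mathlib

set_option autoImplicit false
set_option linter.unusedSectionVars false

/-! Networks with values in an arbitrary set `K`, whose gates compute functions of the multiset of
their inputs. -/

namespace Pool.Agent.H30R2.PS

open Finset

/-- An acyclic network with inputs indexed by `I`, values in `K` and set of gates `Gt`. -/
structure Net (I K Gt : Type*) where
  /-- the input read by an input gate (`none` for the other gates) -/
  inp : Gt → Option I
  /-- `w h g` is the number of wires from `h` to `g` -/
  w : Gt → Gt → ℕ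
  /-- `F g s` is the value of the gate `g` when `s` is the multiset of the values of its incoming
  wires -/
  F : Gt → Multiset K → K
  /-- the output gate -/
  out : Gt
  /-- a rank witnessing that the network is acyclic -/
  rank : Gt → ℕ
  acyc : ∀ h g, 0 < w h g → rank h < rank g

variable {I K Gt : Type*} [Fintype Gt]

/-- The value of a gate on the input `x`. -/
def Net.val (N : Net I K Gt) (x : I → K) (g : Gt) : K :=
  match N.inp g with
  | some i => x i
  | none => N.F g (∑ h, if _hw : 0 < N.w h g then N.w h g • {N.val x h} else 0)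
termination_by N.rank g
decreasing_by exact N.acyc _ _ _hw

/-- The output of the network. -/
def Net.eval (N : Net I K Gt) (x : I → K) : K := N.val x N.out

theorem Net.val_some (N : Net I K Gt) (x : I → K) {g : Gt} {i : I}
    (h : N.inp g = some i) : N.val x g = x i := by
  rw [Net.val]
  simp only [h]

theorem Net.val_none (N : Net I K Gt) (x : I → K) {g : Gt}
    (h : N.inp g = none) : N.val x g = N.F g (∑ h, N.w h g • {N.val x h}) := by
  rw [Net.val]
  simp only [h]
  congr 1
  apply Finset.sum_congr rfl
  intro k _
  split_ifs with hw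
  · rfl
  · have : N.w k g = 0 := by omega
    rw [this, zero_smul]

/-- `φ` is an automorphism of the network extending the permutation `p` of the inputs -/
structure Net.IsAut (N : Net I K Gt) (p : Equiv.Perm I) (φ : Equiv.Perm Gt) : Prop where
  inp : ∀ g, N.inp (φ g) = (N.inp g).map p
  w : ∀ h g, N.w (φ h) (φ g) = N.w h g
  F : ∀ g, N.F (φ g) = N.F g
  out : φ N.out = N.out

variable {N : Net I K Gt}

omit [Fintype Gt] in
theorem Net.IsAut.one : N.IsAut 1 1 := by
  refine ⟨?_, fun _ _ => rfl, fun _ => rfl, rfl⟩
  intro g
  cases h : N.inp g with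
  | none => simp [h]
  | some e => simp [h]

omit [Fintype Gt] in
theorem Net.IsAut.mul {p p' : Equiv.Perm I} {φ φ' : Equiv.Perm Gt} (h : N.IsAut p φ)
    (h' : N.IsAut p' φ') : N.IsAut (p * p') (φ * φ') := by
  refine ⟨?_, ?_, ?_, ?_⟩
  · intro g
    rw [Equiv.Perm.mul_apply, h.inp, h'.inp, Option.map_map]
    rfl
  · intro k g
    rw [Equiv.Perm.mul_apply, Equiv.Perm.mul_apply, h.w, h'.w]
  · intro g
    rw [Equiv.Perm.mul_apply, h.F, h'.F]
  · rw [Equiv.Perm.mul_apply, h'.out, h.out]

theorem perm_apply_inv {α : Type*} (p : Equiv.Perm α) (x : α) : p (p⁻¹ x) = x :=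
  Equiv.apply_symm_apply p x

theorem perm_inv_apply {α : Type*} (p : Equiv.Perm α) (x : α) : p⁻¹ (p x) = x :=
  Equiv.symm_apply_apply p x

omit [Fintype Gt] in
theorem Net.IsAut.inv {p : Equiv.Perm I} {φ : Equiv.Perm Gt} (h : N.IsAut p φ) :
    N.IsAut p⁻¹ φ⁻¹ := by
  refine ⟨?_, ?_, ?_, ?_⟩
  · intro g
    have h1 := h.inp (φ⁻¹ g)
    rw [perm_apply_inv] at h1
    rw [h1, Option.map_map]
    have : ((p⁻¹ : Equiv.Perm I) : I → I) ∘ p = id := by
      ext x; exact perm_inv_apply p x
    rw [this, Option.map_id]
    rfl
  · intro k g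
    rw [← h.w, perm_apply_inv, perm_apply_inv]
  · intro g
    rw [← h.F, perm_apply_inv]
  · exact (congrArg (φ⁻¹ : Equiv.Perm Gt) h.out).symm.trans (perm_inv_apply φ _)

/-- Isomorphism invariance of evaluation. -/
theorem Net.IsAut.val {p : Equiv.Perm I} {φ : Equiv.Perm Gt} (h : N.IsAut p φ)
    {x x' : I → K} (hx : ∀ i, x' (p i) = x i) (g : Gt) :
    N.val x' (φ g) = N.val x g := by
  have key : ∀ n, ∀ g, N.rank g = n → N.val x' (φ g) = N.val x g := by
    intro n
    induction n using Nat.strong_induction_on with
    | _ n ih =>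
      intro g hg
      cases hi : N.inp g with
      | some e =>
        have hi' : N.inp (φ g) = some (p e) := by rw [h.inp, hi]; rfl
        rw [N.val_some x' hi', N.val_some x hi]
        exact hx e
      | none =>
        have hi' : N.inp (φ g) = none := by rw [h.inp, hi]; rfl
        rw [N.val_none x' hi', N.val_none x hi, h.F]
        congr 1
        rw [← Equiv.sum_comp φ]
        apply Finset.sum_congr rfl
        intro k _
        rw [h.w]
        by_cases hw : 0 < N.w k g
        · rw [ih (N.rank k) (by rw [← hg]; exact N.acyc _ _ hw) k rfl]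
        · have : N.w k g = 0 := by omega
          rw [this, zero_smul, zero_smul]
  exact key _ g rfl

end Pool.Agent.H30R2.PS
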