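import Pool.Agent.H30R2.PS.Lin
import Pool.Agent.H30R2.PS.Net

set_option autoImplicit false
set_option linter.unusedSectionVars false

/-! The abstract engine: a family of inputs indexed by `S → ZMod 2` on which an elementary abelian
2-group acts by translations. -/

namespace Pool.Agent.H30R2.PS

open Finset

/-- A family of inputs `x t`, `t : S → ZMod 2`, on which the group `G` acts by the translations
`t ↦ t + B h`. -/
structure Setup (I K S G : Type*) [AddCommGroup G] [Module (ZMod 2) G] where
  B : G →ₗ[ZMod 2] (S → ZMod 2)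
  perm : G → Equiv.Perm I
  perm_zero : perm 0 = 1
  perm_add : ∀ h h', perm (h + h') = perm h * perm h'
  x : (S → ZMod 2) → I → K
  equi : ∀ t h i, x (t + B h) (perm h i) = x t i
  loc : I → Set S
  loc_x : ∀ i t e, (∀ s ∈ loc i, e s = 0) → x (t + e) i = x t i
  loc_perm : ∀ i h, perm h i = i → ∀ s ∈ loc i, B h s = 0

variable {I K S G Gt : Type*} [AddCommGroup G] [Module (ZMod 2) G] [Fintype Gt]

/-- The elements having an automorphism which fixes the gate `g`. -/
def stab (Z : Setup I K S G) (N : Net I K Gt) (g : Gt) : Submodule (ZMod 2) G where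
  carrier := {a | ∃ φ, N.IsAut (Z.perm a) φ ∧ φ g = g}
  add_mem' := by
    rintro a b ⟨φ, hφ, hg⟩ ⟨ψ, hψ, hg'⟩
    refine ⟨φ * ψ, ?_, ?_⟩
    · rw [Z.perm_add]
      exact hφ.mul hψ
    · rw [Equiv.Perm.mul_apply, hg', hg]
  zero_mem' := by
    refine ⟨1, ?_, rfl⟩
    rw [Z.perm_zero]
    exact Net.IsAut.one
  smul_mem' := by
    rintro c a h
    have hc : c = 0 ∨ c = 1 := by revert c; decide
    rcases hc with rfl | rfl
    · rw [zero_smul]
      refine ⟨1, ?_, rfl⟩
      rw [Z.perm_zero]
      exact Net.IsAut.one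
    · rw [one_smul]
      exact h

theorem mem_stab (Z : Setup I K S G) (N : Net I K Gt) (g : Gt) (a : G) :
    a ∈ stab Z N g ↔ ∃ φ, N.IsAut (Z.perm a) φ ∧ φ g = g := Iff.rfl

variable [Fintype S] [DecidableEq S]

/-- No combination of weight in `(τ, 2τ]` is invisible at a gate. -/
def Good (Z : Setup I K S G) (N : Net I K Gt) (τ : ℕ) : Prop :=
  ∀ g, ∀ l : S → ZMod 2, τ < wt l → wt l ≤ 2 * τ → ∃ a ∈ stab Z N g, dot l (Z.B a) ≠ 0

/-- the short combinations invisible at the gate `g` -/
def vis (Z : Setup I K S G) (N : Net I K Gt) (τ : ℕ) (hG : Good Z N τ) (g : Gt) :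
    Submodule (ZMod 2) (S → ZMod 2) where
  carrier := {x | wt x ≤ τ ∧ ∀ a ∈ stab Z N g, dot x (Z.B a) = 0}
  add_mem' := by
    rintro x y ⟨hx, hx'⟩ ⟨hy, hy'⟩
    have hkill : ∀ a ∈ stab Z N g, dot (x + y) (Z.B a) = 0 := by
      intro a ha
      rw [add_dot, hx' a ha, hy' a ha, add_zero]
    refine ⟨?_, hkill⟩
    by_contra hlt
    rw [not_le] at hlt
    have hle : wt (x + y) ≤ 2 * τ := by
      have := wt_add_le x y
      omega
    obtain ⟨a, ha, hne⟩ := hG g (x + y) hlt hle
    exact hne (hkill a ha)
  zero_mem' := by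
    refine ⟨?_, fun a _ => zero_dot _⟩
    rw [wt_zero]
    exact Nat.zero_le _
  smul_mem' := by
    rintro c x ⟨hx, hx'⟩
    refine ⟨(wt_smul_le c x).trans hx, fun a ha => ?_⟩
    rw [smul_dot, hx' a ha, mul_zero]

variable {Z : Setup I K S G} {N : Net I K Gt} {τ : ℕ}

/-- automorphism invariance of the values -/
theorem val_shift {a : G} {φ : Equiv.Perm Gt} (h : N.IsAut (Z.perm a) φ)
    (t : S → ZMod 2) (g : Gt) :
    N.val (Z.x (t + Z.B a)) (φ g) = N.val (Z.x t) g :=
  h.val (fun i => Z.equi t a i) g

/-- the multiset of the inputs of a gate -/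
def ms (Z : Setup I K S G) (N : Net I K Gt) (g : Gt) (t : S → ZMod 2) : Multiset K :=
  ∑ h, N.w h g • {N.val (Z.x t) h}

theorem ms_shift (g : Gt) (t : S → ZMod 2) {a : G} (ha : a ∈ stab Z N g) :
    ms Z N g (t + Z.B a) = ms Z N g t := by
  obtain ⟨φ, hφ, hg⟩ := ha
  unfold ms
  rw [← Equiv.sum_comp φ]
  refine Finset.sum_congr rfl fun h _ => ?_
  rw [val_shift hφ]
  congr 1
  conv_lhs => rw [← hg]
  exact hφ.w h g

theorem core (hG : Good Z N τ) (hτ : 1 ≤ τ) (g : Gt) :
    ∀ t e : S → ZMod 2, (∀ s ∈ vis Z N τ hG g, dot s e = 0) →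
      N.val (Z.x (t + e)) g = N.val (Z.x t) g := by
  classical
  have key : ∀ n, ∀ g, N.rank g = n →
      ∀ t e : S → ZMod 2, (∀ s ∈ vis Z N τ hG g, dot s e = 0) →
      N.val (Z.x (t + e)) g = N.val (Z.x t) g := by
    intro n
    induction n using Nat.strong_induction_on with
    | _ n ih =>
      intro g hgn t e he
      cases hi : N.inp g with
      | some i =>
        rw [N.val_some _ hi, N.val_some _ hi]
        refine Z.loc_x i t e fun s hs => ?_
        rw [← dot_single e s]
        apply he
        refine ⟨by rw [wt_single]; exact hτ, ?_⟩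
        rintro a ⟨φ, hφ, hg⟩
        rw [dot_single]
        have h1 := hφ.inp g
        rw [hg, hi, Option.map_some] at h1
        exact Z.loc_perm i a (Option.some.inj h1).symm s hs
      | none =>
        rw [N.val_none _ hi, N.val_none _ hi]
        congr 1
        show ms Z N g (t + e) = ms Z N g t
        set Q : Submodule (ZMod 2) (S → ZMod 2) := (stab Z N g).map Z.B with hQ
        have : Fintype Q := Fintype.ofFinite _
        have hinv : ∀ t : S → ZMod 2, ∀ q : Q, ms Z N g (t + q.1) = ms Z N g t := by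
          rintro t ⟨q, hq⟩
          rw [hQ, Submodule.mem_map] at hq
          obtain ⟨a, ha, rfl⟩ := hq
          exact ms_shift g t ha
        have hsum : ∀ t : S → ZMod 2,
            Fintype.card Q • ms Z N g t =
              ∑ h, N.w h g • ∑ q : Q, ({N.val (Z.x (t + q.1)) h} : Multiset K) := by
          intro t
          calc Fintype.card Q • ms Z N g t = ∑ q : Q, ms Z N g (t + q.1) := by
                rw [Finset.sum_congr rfl (fun q _ => hinv t q), Finset.sum_const,
                  Finset.card_univ]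
            _ = ∑ h, N.w h g • ∑ q : Q, ({N.val (Z.x (t + q.1)) h} : Multiset K) := by
                unfold ms
                rw [Finset.sum_comm]
                exact Finset.sum_congr rfl fun h _ => (Finset.smul_sum).symm
        have hpos : 0 < Fintype.card Q := Fintype.card_pos
        have hmul : Fintype.card Q • ms Z N g (t + e) = Fintype.card Q • ms Z N g t := by
          rw [hsum, hsum]
          refine Finset.sum_congr rfl fun h _ => ?_
          by_cases hw : 0 < N.w h g
          · congr 1
            obtain ⟨e', q, he', hq, rfl⟩ := decomp (vis Z N τ hG h) (vis Z N τ hG g) Q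
              (by
                rintro μ ⟨hμ, _⟩ hk
                exact ⟨hμ, fun a ha => hk _ (Submodule.mem_map_of_mem ha)⟩) e he
            have h1 : ∀ q' : Q, N.val (Z.x (t + (e' + q) + q'.1)) h
                = N.val (Z.x (t + ((⟨q, hq⟩ : Q) + q').1)) h := by
              intro q'
              have h2 : t + (e' + q) + q'.1 = (t + (q + q'.1)) + e' := by abel
              rw [h2]
              exact ih (N.rank h) (by rw [← hgn]; exact N.acyc _ _ hw) h rfl _ e' he'
            calc ∑ q' : Q, ({N.val (Z.x (t + (e' + q) + q'.1)) h} : Multiset K)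
                = ∑ q' : Q, {N.val (Z.x (t + ((⟨q, hq⟩ : Q) + q').1)) h} :=
                  Finset.sum_congr rfl fun q' _ => by rw [h1]
              _ = ∑ q' : Q, {N.val (Z.x (t + q'.1)) h} :=
                  Equiv.sum_comp (Equiv.addLeft (⟨q, hq⟩ : Q))
                    (fun q' : Q => ({N.val (Z.x (t + q'.1)) h} : Multiset K))
          · have : N.w h g = 0 := by omega
            rw [this, zero_smul, zero_smul]
        refine Multiset.ext.mpr fun v => ?_
        have h3 := congrArg (Multiset.count v) hmul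
        rw [Multiset.count_nsmul, Multiset.count_nsmul] at h3
        exact Nat.eq_of_mul_eq_mul_left hpos h3
  exact key _ g rfl

/-- If a long combination `c` is given, some translation changing `c` does not change the
output. -/
theorem eval_shift (hG : Good Z N τ) (hτ : 1 ≤ τ) (c : S → ZMod 2) (hc : τ < wt c) :
    ∃ e : S → ZMod 2, dot c e = 1 ∧ ∀ t, N.eval (Z.x (t + e)) = N.eval (Z.x t) := by
  have h1 : c ∉ vis Z N τ hG N.out := by
    rintro ⟨h, _⟩
    omega
  obtain ⟨e, he, hce⟩ := sep _ c h1
  refine ⟨e, ?_, fun t => ?_⟩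
  · rw [dot_comm]
    have : ∀ z : ZMod 2, z ≠ 0 → z = 1 := by decide
    exact this _ hce
  · refine core hG hτ N.out t e fun s hs => ?_
    rw [dot_comm]
    exact he s hs

/-! ### Orbits of gates -/

theorem stab_conj (Z : Setup I K S G) (N : Net I K Gt) {a : G} {φ : Equiv.Perm Gt}
    (h : N.IsAut (Z.perm a) φ) (g : Gt) : stab Z N (φ g) = stab Z N g := by
  have hcomm : ∀ a b, Z.perm a * Z.perm b = Z.perm b * Z.perm a := by
    intro a b
    rw [← Z.perm_add, ← Z.perm_add, add_comm]
  ext b
  rw [mem_stab, mem_stab]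
  constructor
  · rintro ⟨ψ, hψ, hg⟩
    refine ⟨φ⁻¹ * (ψ * φ), ?_, ?_⟩
    · have h1 := h.inv.mul (hψ.mul h)
      have h2 : (Z.perm a)⁻¹ * (Z.perm b * Z.perm a) = Z.perm b := by
        rw [hcomm b a, ← mul_assoc, inv_mul_cancel, one_mul]
      rw [h2] at h1
      exact h1
    · rw [Equiv.Perm.mul_apply, Equiv.Perm.mul_apply, hg]
      exact perm_inv_apply φ g
  · rintro ⟨ψ, hψ, hg⟩
    refine ⟨φ * (ψ * φ⁻¹), ?_, ?_⟩
    · have h1 := h.mul (hψ.mul h.inv)
      have h2 : Z.perm a * (Z.perm b * (Z.perm a)⁻¹) = Z.perm b := by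
        rw [← mul_assoc, hcomm a b, mul_assoc, mul_inv_cancel, mul_one]
      rw [h2] at h1
      exact h1
    · rw [Equiv.Perm.mul_apply, Equiv.Perm.mul_apply, perm_inv_apply, hg]

variable [Fintype G]

open Classical in
/-- The orbit of a gate is large if its stabilizer is small. -/
theorem orbit_le (Z : Setup I K S G) (N : Net I K Gt) (hN : ∀ a, ∃ φ, N.IsAut (Z.perm a) φ)
    (g : Gt) :
    Fintype.card G ≤ Nat.card (stab Z N g) *
      (univ.filter fun g' => stab Z N g' = stab Z N g).card := by
  choose φ hφ using hN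
  have hself : ∀ a : G, a + a = 0 := fun a => by
    have h1 : ((1 : ZMod 2) + 1) • a = 0 := by
      rw [show (1 : ZMod 2) + 1 = 0 by decide, zero_smul]
    rw [add_smul, one_smul] at h1
    exact h1
  have h1 : (univ : Finset G).card ≤ Nat.card (stab Z N g) *
      ((univ : Finset G).image fun a => φ a g).card := by
    refine Finset.card_le_mul_card_image _ _ ?_
    intro x hx
    rw [Finset.mem_image] at hx
    obtain ⟨a0, _, rfl⟩ := hx
    have : Fintype (stab Z N g) := Fintype.ofFinite _
    rw [Nat.card_eq_fintype_card, ← Finset.card_univ]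
    refine Finset.card_le_card_of_injOn
      (fun a => if h : a + a0 ∈ stab Z N g then (⟨a + a0, h⟩ : stab Z N g) else 0) ?_ ?_
    · intro a _
      exact Finset.mem_coe.mpr (mem_univ _)
    · have hmem : ∀ a, φ a g = φ a0 g → a + a0 ∈ stab Z N g := by
        intro a ha
        have h2 : a0 + a ∈ stab Z N g := by
          refine ⟨(φ a0)⁻¹ * φ a, ?_, ?_⟩
          · have h3 := (hφ a0).inv.mul (hφ a)
            have h4 : (Z.perm a0)⁻¹ * Z.perm a = Z.perm (a0 + a) := by
              have h5 : Z.perm a0 * Z.perm (a0 + a) = Z.perm a := by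
                rw [← Z.perm_add, ← add_assoc, hself, zero_add]
              rw [← h5, ← mul_assoc, inv_mul_cancel, one_mul]
            rw [h4] at h3
            exact h3
          · rw [Equiv.Perm.mul_apply, ha]
            exact perm_inv_apply _ _
        rw [add_comm]
        exact h2
      intro a ha b hb hab
      have ha' := hmem a (Finset.mem_filter.mp (Finset.mem_coe.mp ha)).2
      have hb' := hmem b (Finset.mem_filter.mp (Finset.mem_coe.mp hb)).2
      simp only [ha', hb', dif_pos] at hab
      exact add_right_cancel (congrArg Subtype.val hab)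
  rw [Finset.card_univ] at h1
  refine h1.trans (Nat.mul_le_mul_left _ (Finset.card_le_card ?_))
  intro x hx
  rw [Finset.mem_image] at hx
  obtain ⟨a, _, rfl⟩ := hx
  exact Finset.mem_filter.mpr ⟨mem_univ _, stab_conj Z N (hφ a) g⟩

end Pool.Agent.H30R2.PS
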