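import Pool.Agent.H30R2.PS.Engine

set_option autoImplicit false
set_option linter.unusedSectionVars false

/-! The family of matrices. -/

namespace Pool.Agent.H30R2.PS

open Finset

/-- the elements of Klein's four-group, labelling the rows of a quadruple -/
abbrev Four := ZMod 2 × ZMod 2

/-- the three nontrivial characters of `Four` -/
def lab (i : Fin 3) (s : Four) : ZMod 2 :=
  match i with
  | 0 => s.1
  | 1 => s.2
  | 2 => s.1 + s.2

theorem lab_add (i : Fin 3) (s s' : Four) : lab i (s + s') = lab i s + lab i s' := by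
  revert i s s'
  decide

theorem lab_zero (i : Fin 3) : lab i 0 = 0 := by
  revert i
  decide

theorem lab_smul (i : Fin 3) (c : ZMod 2) (s : Four) : lab i (c • s) = c * lab i s := by
  revert i c s
  decide

variable (w : ℕ)

/-- the slots: three for each of the `2 w` row quadruples -/
abbrev Slot := Fin (2 * w) × Fin 3

/-- the group: swaps of the column pairs and translations of the row quadruples -/
abbrev Gp := (Fin (3 * w) → ZMod 2) × (Fin (2 * w) → Four)

variable {w}

/-- the translation of the family -/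
def BB (π : Slot w ≃ Fin (3 * w) × Bool) : Gp w →ₗ[ZMod 2] (Slot w → ZMod 2) where
  toFun h := fun s => h.1 (π s).1 + lab s.2 (h.2 s.1)
  map_add' h h' := by
    funext s
    show (h.1 + h'.1) (π s).1 + lab s.2 ((h.2 + h'.2) s.1) =
      (h.1 (π s).1 + lab s.2 (h.2 s.1)) + (h'.1 (π s).1 + lab s.2 (h'.2 s.1))
    rw [Pi.add_apply, Pi.add_apply, lab_add]
    ring
  map_smul' c h := by
    funext s
    show (c • h.1) (π s).1 + lab s.2 ((c • h.2) s.1) = c * (h.1 (π s).1 + lab s.2 (h.2 s.1))
    rw [Pi.smul_apply, Pi.smul_apply, lab_smul, smul_eq_mul, mul_add]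

theorem BB_apply (π : Slot w ≃ Fin (3 * w) × Bool) (h : Gp w) (s : Slot w) :
    BB π h s = h.1 (π s).1 + lab s.2 (h.2 s.1) := rfl

/-- rows: the quadruples and the rest -/
abbrev Rw (w : ℕ) (Z : Type) := (Fin (2 * w) × Four) ⊕ Z

/-- columns: the pairs, one more column for each quadruple, and the rest -/
abbrev Cl (w : ℕ) (Z : Type) := ((Fin (3 * w) × ZMod 2) ⊕ Fin (2 * w)) ⊕ Z

variable {Z : Type}

/-- translations of the quadruples -/
def rowAct (U : Fin (2 * w) → Four) : Equiv.Perm (Rw w Z) where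
  toFun r := match r with
    | Sum.inl (u, s) => Sum.inl (u, s + U u)
    | Sum.inr z => Sum.inr z
  invFun r := match r with
    | Sum.inl (u, s) => Sum.inl (u, s - U u)
    | Sum.inr z => Sum.inr z
  left_inv r := by
    rcases r with ⟨u, s⟩ | z
    · show Sum.inl (u, s + U u - U u) = _
      rw [add_sub_cancel_right]
    · rfl
  right_inv r := by
    rcases r with ⟨u, s⟩ | z
    · show Sum.inl (u, s - U u + U u) = _
      rw [sub_add_cancel]
    · rfl

/-- swaps of the pairs -/
def colAct (a : Fin (3 * w) → ZMod 2) : Equiv.Perm (Cl w Z) where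
  toFun r := match r with
    | Sum.inl (Sum.inl (p, c)) => Sum.inl (Sum.inl (p, c + a p))
    | Sum.inl (Sum.inr u) => Sum.inl (Sum.inr u)
    | Sum.inr z => Sum.inr z
  invFun r := match r with
    | Sum.inl (Sum.inl (p, c)) => Sum.inl (Sum.inl (p, c - a p))
    | Sum.inl (Sum.inr u) => Sum.inl (Sum.inr u)
    | Sum.inr z => Sum.inr z
  left_inv r := by
    rcases r with (⟨u, s⟩ | u) | z
    · show Sum.inl (Sum.inl (u, s + a u - a u)) = _
      rw [add_sub_cancel_right]
    · rfl
    · rfl
  right_inv r := by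
    rcases r with (⟨u, s⟩ | u) | z
    · show Sum.inl (Sum.inl (u, s - a u + a u)) = _
      rw [sub_add_cancel]
    · rfl
    · rfl

theorem rowAct_zero : rowAct (Z := Z) (0 : Fin (2 * w) → Four) = 1 := by
  ext r
  rcases r with ⟨u, s⟩ | z
  · show Sum.inl (u, s + 0) = _
    rw [add_zero]
    rfl
  · rfl

theorem rowAct_add (U U' : Fin (2 * w) → Four) :
    rowAct (Z := Z) (U + U') = rowAct U * rowAct U' := by
  ext r
  rcases r with ⟨u, s⟩ | z
  · show Sum.inl (u, s + (U u + U' u)) = Sum.inl (u, (s + U' u) + U u)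
    rw [add_assoc, add_comm (U u)]
  · rfl

theorem colAct_zero : colAct (Z := Z) (0 : Fin (3 * w) → ZMod 2) = 1 := by
  ext r
  rcases r with (⟨u, s⟩ | u) | z
  · show Sum.inl (Sum.inl (u, s + 0)) = _
    rw [add_zero]
    rfl
  · rfl
  · rfl

theorem colAct_add (a a' : Fin (3 * w) → ZMod 2) :
    colAct (Z := Z) (a + a') = colAct a * colAct a' := by
  ext r
  rcases r with (⟨u, s⟩ | u) | z
  · show Sum.inl (Sum.inl (u, s + (a u + a' u))) = Sum.inl (Sum.inl (u, (s + a' u) + a u))
    rw [add_assoc, add_comm (a u)]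
  · rfl
  · rfl

variable {K : Type} [CommRing K]

open Classical in
/-- The matrix: the row `(u, s)` is the sum of the unit vector of the extra column of `u` and of
the unit vectors of the columns `(p, lab i s + t (u, i))`, where `p` is the pair of the slot
`(u, i)`. -/
noncomputable def MM (K : Type) [CommRing K] (π : Slot w ≃ Fin (3 * w) × Bool)
    (t : Slot w → ZMod 2) (r : Rw w Z) (c : Cl w Z) : K :=
  match r with
  | Sum.inl (u, s) => (if c = Sum.inl (Sum.inr u) then 1 else 0) +
      ∑ i, if c = Sum.inl (Sum.inl ((π (u, i)).1, lab i s + t (u, i))) then 1 else 0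
  | Sum.inr z => if c = Sum.inr z then 1 else 0

theorem zmod2_add_self (x : ZMod 2) : x + x = 0 := by
  revert x; decide

theorem MM_equi (π : Slot w ≃ Fin (3 * w) × Bool) (t : Slot w → ZMod 2) (h : Gp w)
    (r : Rw w Z) (c : Cl w Z) :
    MM K π (t + BB π h) (rowAct h.2 r) (colAct h.1 c) = MM K π t r c := by
  classical
  rcases r with ⟨u, s⟩ | z
  · show (if colAct h.1 c = Sum.inl (Sum.inr u) then (1 : K) else 0) +
      (∑ i, if colAct h.1 c = Sum.inl (Sum.inl ((π (u, i)).1,
        lab i (s + h.2 u) + (t + BB π h) (u, i))) then (1 : K) else 0) =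
      (if c = Sum.inl (Sum.inr u) then 1 else 0) +
      ∑ i, if c = Sum.inl (Sum.inl ((π (u, i)).1, lab i s + t (u, i))) then 1 else 0
    congr 1
    · have h1 : colAct h.1 c = Sum.inl (Sum.inr u) ↔ c = Sum.inl (Sum.inr u) := by
        rw [show (Sum.inl (Sum.inr u) : Cl w Z) = colAct h.1 (Sum.inl (Sum.inr u)) from rfl]
        exact (colAct h.1).injective.eq_iff
      exact if_congr h1 rfl rfl
    · refine Finset.sum_congr rfl fun i _ => ?_
      have h1 : colAct h.1 c = Sum.inl (Sum.inl ((π (u, i)).1,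
          lab i (s + h.2 u) + (t + BB π h) (u, i))) ↔
          c = Sum.inl (Sum.inl ((π (u, i)).1, lab i s + t (u, i))) := by
        have h2 : (Sum.inl (Sum.inl ((π (u, i)).1,
            lab i (s + h.2 u) + (t + BB π h) (u, i))) : Cl w Z) =
            colAct h.1 (Sum.inl (Sum.inl ((π (u, i)).1, lab i s + t (u, i)))) := by
          show _ = Sum.inl (Sum.inl ((π (u, i)).1, lab i s + t (u, i) + h.1 (π (u, i)).1))
          congr 3
          rw [Pi.add_apply, BB_apply, lab_add]
          have h3 := zmod2_add_self (lab i (h.2 u))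
          calc lab i s + lab i (h.2 u) + (t (u, i) + (h.1 (π (u, i)).1 + lab i (h.2 u)))
              = lab i s + t (u, i) + h.1 (π (u, i)).1 + (lab i (h.2 u) + lab i (h.2 u)) := by ring
            _ = _ := by rw [h3, add_zero]
        rw [h2]
        exact (colAct h.1).injective.eq_iff
      exact if_congr h1 rfl rfl
  · show (if colAct h.1 c = Sum.inr z then (1 : K) else 0) = if c = Sum.inr z then 1 else 0
    have h1 : colAct h.1 c = Sum.inr z ↔ c = Sum.inr z := by
      rw [show (Sum.inr z : Cl w Z) = colAct h.1 (Sum.inr z) from rfl]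
      exact (colAct h.1).injective.eq_iff
    exact if_congr h1 rfl rfl

/-- the slots on which an entry depends -/
def locc (π : Slot w ≃ Fin (3 * w) × Bool) (r : Rw w Z) (c : Cl w Z) : Set (Slot w) :=
  {s | ∃ s' c', r = Sum.inl (s.1, s') ∧ c = Sum.inl (Sum.inl ((π s).1, c'))}

theorem MM_loc (π : Slot w ≃ Fin (3 * w) × Bool) (t e : Slot w → ZMod 2)
    (r : Rw w Z) (c : Cl w Z) (h : ∀ s ∈ locc π r c, e s = 0) :
    MM K π (t + e) r c = MM K π t r c := by
  classical
  rcases r with ⟨u, s⟩ | z
  · show (if c = Sum.inl (Sum.inr u) then (1 : K) else 0) +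
      (∑ i, if c = Sum.inl (Sum.inl ((π (u, i)).1, lab i s + (t + e) (u, i))) then (1 : K) else 0)
      = (if c = Sum.inl (Sum.inr u) then 1 else 0) +
      ∑ i, if c = Sum.inl (Sum.inl ((π (u, i)).1, lab i s + t (u, i))) then 1 else 0
    congr 1
    refine Finset.sum_congr rfl fun i _ => ?_
    by_cases h1 : ∃ c', c = Sum.inl (Sum.inl ((π (u, i)).1, c'))
    · obtain ⟨c', hc'⟩ := h1
      have h2 : e (u, i) = 0 := h (u, i) ⟨s, c', rfl, hc'⟩
      rw [Pi.add_apply, h2, add_zero]
    · rw [if_neg fun h2 => h1 ⟨_, h2⟩, if_neg fun h2 => h1 ⟨_, h2⟩]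
  · rfl

/-- The setup for the engine. -/
noncomputable def setup (K : Type) [CommRing K] {n : ℕ} (π : Slot w ≃ Fin (3 * w) × Bool)
    (eR : Rw w Z ≃ Fin n) (eC : Cl w Z ≃ Fin n) : Setup (Fin n × Fin n) K (Slot w) (Gp w) where
  B := BB π
  perm h := (eR.permCongr (rowAct h.2)).prodCongr (eC.permCongr (colAct h.1))
  perm_zero := by
    show (eR.permCongr (rowAct 0)).prodCongr (eC.permCongr (colAct 0)) = 1
    rw [rowAct_zero, colAct_zero]
    ext i
    · show ((eR (eR.symm i.1) : Fin n) : ℕ) = _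
      rw [Equiv.apply_symm_apply]
      rfl
    · show ((eC (eC.symm i.2) : Fin n) : ℕ) = _
      rw [Equiv.apply_symm_apply]
      rfl
  perm_add h h' := by
    show (eR.permCongr (rowAct (h.2 + h'.2))).prodCongr (eC.permCongr (colAct (h.1 + h'.1))) = _
    rw [rowAct_add, colAct_add]
    refine Equiv.ext fun i => ?_
    refine Prod.ext ?_ ?_
    · show eR (rowAct h.2 (rowAct h'.2 (eR.symm i.1)))
        = eR (rowAct h.2 (eR.symm (eR (rowAct h'.2 (eR.symm i.1)))))
      rw [Equiv.symm_apply_apply]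
    · show eC (colAct h.1 (colAct h'.1 (eC.symm i.2)))
        = eC (colAct h.1 (eC.symm (eC (colAct h'.1 (eC.symm i.2)))))
      rw [Equiv.symm_apply_apply]
  x t i := MM K π t (eR.symm i.1) (eC.symm i.2)
  equi t h i := by
    show MM K π (t + BB π h) (eR.symm (eR (rowAct h.2 (eR.symm i.1))))
      (eC.symm (eC (colAct h.1 (eC.symm i.2)))) = _
    rw [Equiv.symm_apply_apply, Equiv.symm_apply_apply, MM_equi]
  loc i := locc π (eR.symm i.1) (eC.symm i.2)
  loc_x i t e h := MM_loc π t e _ _ h
  loc_perm i h hi := by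
    rintro ⟨u, j⟩ ⟨s', c', h1, h2⟩
    have h3 := congrArg Prod.fst hi
    have h4 := congrArg Prod.snd hi
    have h5 : eR (rowAct h.2 (eR.symm i.1)) = i.1 := h3
    have h6 : eC (colAct h.1 (eC.symm i.2)) = i.2 := h4
    have h7 : rowAct h.2 (eR.symm i.1) = eR.symm i.1 := by
      rw [Equiv.eq_symm_apply]
      exact h5
    have h8 : colAct h.1 (eC.symm i.2) = eC.symm i.2 := by
      rw [Equiv.eq_symm_apply]
      exact h6
    rw [h1] at h7
    rw [h2] at h8
    have h9 : (Sum.inl (u, s' + h.2 u) : Rw w Z) = Sum.inl (u, s') := h7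
    have h10 : (Sum.inl (Sum.inl ((π (u, j)).1, c' + h.1 (π (u, j)).1)) : Cl w Z)
      = Sum.inl (Sum.inl ((π (u, j)).1, c')) := h8
    have h11 : s' + h.2 u = s' + 0 := by
      rw [add_zero]
      exact congrArg Prod.snd (Sum.inl.inj h9)
    have h12 : c' + h.1 (π (u, j)).1 = c' + 0 := by
      rw [add_zero]
      exact congrArg Prod.snd (Sum.inl.inj (Sum.inl.inj h10))
    rw [BB_apply, add_left_cancel h12]
    show 0 + lab j (h.2 u) = 0
    rw [add_left_cancel h11, lab_zero, add_zero]

end Pool.Agent.H30R2.PS
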