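import Pool.Agent.H30R2.PS.Bad

set_option autoImplicit false
set_option linter.unusedSectionVars false

/-! The lower bound for the permanent. -/

namespace Pool.Agent.H30R2.PS

open Finset

variable {w : ℕ}

/-- The translation by `U u` of the labels of the quadruple `u`. -/
def quadPerm {m : ℕ} (U : Fin m → Four) : Equiv.Perm (Fin m × Four) where
  toFun x := (x.1, x.2 + U x.1)
  invFun x := (x.1, x.2 - U x.1)
  left_inv x := by
    refine Prod.ext rfl ?_
    exact add_sub_cancel_right _ _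
  right_inv x := by
    refine Prod.ext rfl ?_
    exact sub_add_cancel _ _

/-- The swap of the pair `p` if `a p = 1`. -/
def pairPerm {m : ℕ} (a : Fin m → ZMod 2) : Equiv.Perm (Fin m × ZMod 2) where
  toFun x := (x.1, x.2 + a x.1)
  invFun x := (x.1, x.2 - a x.1)
  left_inv x := by
    refine Prod.ext rfl ?_
    exact add_sub_cancel_right _ _
  right_inv x := by
    refine Prod.ext rfl ?_
    exact sub_add_cancel _ _

open Classical in
theorem exists_good {K : Type} [CommRing K] {n : ℕ} {Z : Type}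
    (eR : Rw w Z ≃ Fin n) (eC : Cl w Z ≃ Fin n) {Gt : Type} [Fintype Gt]
    (N : Net (Fin n × Fin n) K Gt)
    (hN : ∀ h : Gp w, ∃ φ, N.IsAut
      ((eR.permCongr (rowAct h.2)).prodCongr (eC.permCongr (colAct h.1))) φ)
    (τ : ℕ) (hτ : 3200 * τ ≤ w) (hs : Fintype.card Gt < 2 ^ τ) :
    ∃ π : Slot w ≃ Fin (3 * w) × Bool, Good (setup K π eR eC) N τ := by
  by_contra hcon
  rw [not_exists] at hcon
  have hcardS : Fintype.card (Slot w) = Fintype.card (Fin (3 * w) × Bool) := by
    rw [Fintype.card_prod, Fintype.card_prod, Fintype.card_fin, Fintype.card_fin,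
      Fintype.card_fin, Fintype.card_bool]
    ring
  let π0 : Slot w ≃ Fin (3 * w) × Bool := Fintype.equivOfCardEq hcardS
  set S : Finset (Submodule (ZMod 2) (Gp w)) :=
    univ.image (stab (setup K π0 eR eC) N) with hS
  set P : ℝ := ((Fintype.card (Slot w ≃ Fin (3 * w) × Bool) : ℕ) : ℝ) with hP
  have hP0 : 0 < P := by
    have : Nonempty (Slot w ≃ Fin (3 * w) × Bool) := ⟨π0⟩
    rw [hP]
    exact_mod_cast Fintype.card_pos
  set BH : Submodule (ZMod 2) (Gp w) → Finset (Slot w ≃ Fin (3 * w) × Bool) := fun H =>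
    univ.filter fun π : Slot w ≃ Fin (3 * w) × Bool =>
      ∃ l : Slot w → ZMod 2, τ < wt l ∧ wt l ≤ 2 * τ ∧ ∀ h ∈ H, dot l (BB π h) = 0 with hBH
  set HP : Submodule (ZMod 2) (Gp w) → Finset (Gp w) := fun H =>
    univ.filter fun z : Gp w => ∀ h ∈ H, pair h z = 0 with hHP
  have hcov : (univ : Finset (Slot w ≃ Fin (3 * w) × Bool)) ⊆ S.biUnion BH := by
    intro π _
    have h1 := hcon π
    unfold Good at h1
    rw [not_forall] at h1
    obtain ⟨g, h1⟩ := h1
    rw [not_forall] at h1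
    obtain ⟨l, h1⟩ := h1
    rw [Classical.not_imp] at h1
    obtain ⟨h2, h1⟩ := h1
    rw [Classical.not_imp] at h1
    obtain ⟨h3, h1⟩ := h1
    rw [Finset.mem_biUnion]
    refine ⟨stab (setup K π0 eR eC) N g, Finset.mem_image_of_mem _ (mem_univ g), ?_⟩
    rw [hBH]
    refine Finset.mem_filter.mpr ⟨mem_univ _, l, h2, h3, fun h hh => ?_⟩
    by_contra hne
    exact h1 ⟨h, hh, hne⟩
  have hSsum : ∑ H ∈ S, ((HP H).card : ℝ) ≤ Fintype.card Gt := by
    have h1 : (Fintype.card Gt : ℝ) = ∑ H ∈ S,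
        ((univ.filter fun g => stab (setup K π0 eR eC) N g = H).card : ℝ) := by
      rw [← Nat.cast_sum, ← Finset.card_univ]
      congr 1
      exact Finset.card_eq_sum_card_image (stab (setup K π0 eR eC) N) univ
    rw [h1]
    refine Finset.sum_le_sum fun H hH => ?_
    rw [hS, Finset.mem_image] at hH
    obtain ⟨g, _, rfl⟩ := hH
    have h2 := perp_card (stab (setup K π0 eR eC) N g)
    have h3 := orbit_le (setup K π0 eR eC) N hN g
    have hpos : 0 < Nat.card (stab (setup K π0 eR eC) N g) := Nat.card_pos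
    have h4 : (HP (stab (setup K π0 eR eC) N g)).card *
        Nat.card (stab (setup K π0 eR eC) N g) ≤
        (univ.filter fun g' => stab (setup K π0 eR eC) N g' =
          stab (setup K π0 eR eC) N g).card * Nat.card (stab (setup K π0 eR eC) N g) := by
      rw [hHP]
      refine h2.le.trans (h3.trans (le_of_eq ?_))
      exact mul_comm _ _
    have h5 := Nat.le_of_mul_le_mul_right h4 hpos
    exact_mod_cast h5
  have hfin : P ≤ Fintype.card Gt * (P * (1 / 2) ^ τ) := by
    calc P = ((univ : Finset (Slot w ≃ Fin (3 * w) × Bool)).card : ℝ) := by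
          rw [Finset.card_univ]
      _ ≤ ((S.biUnion BH).card : ℝ) := by exact_mod_cast Finset.card_le_card hcov
      _ ≤ ∑ H ∈ S, ((BH H).card : ℝ) := by exact_mod_cast Finset.card_biUnion_le
      _ ≤ ∑ H ∈ S, ((HP H).card : ℝ) * (P * (1 / 2) ^ τ) :=
          Finset.sum_le_sum fun H _ => bad_one H τ hτ
      _ = (∑ H ∈ S, ((HP H).card : ℝ)) * (P * (1 / 2) ^ τ) := (Finset.sum_mul _ _ _).symm
      _ ≤ _ := mul_le_mul_of_nonneg_right hSsum (by positivity)
  have h6 : (Fintype.card Gt : ℝ) < 2 ^ τ := by exact_mod_cast hs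
  have h7 : (Fintype.card Gt : ℝ) * (P * (1 / 2) ^ τ) < 2 ^ τ * (P * (1 / 2) ^ τ) :=
    mul_lt_mul_of_pos_right h6 (by positivity)
  have h8 : (2 : ℝ) ^ τ * (P * (1 / 2) ^ τ) = P := by
    have h9 : (2 : ℝ) ^ τ * (1 / 2) ^ τ = 1 := by
      rw [← mul_pow]
      norm_num
    calc (2 : ℝ) ^ τ * (P * (1 / 2) ^ τ) = P * (2 ^ τ * (1 / 2) ^ τ) := by ring
      _ = P := by rw [h9, mul_one]
  linarith

theorem chi_eq_sg {S : Type*} [Fintype S] (t : S → ZMod 2) : chi t = sg (∑ s, t s) := by
  classical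
  unfold chi
  have key : ∀ F : Finset S, ∏ s ∈ F, sg (t s) = sg (∑ s ∈ F, t s) := by
    intro F
    induction F using Finset.induction_on with
    | empty => rfl
    | insert a F ha ih => rw [Finset.prod_insert ha, Finset.sum_insert ha, sg_add, ih]
  exact key univ

/-- The labelled version of the lower bound. -/
theorem bound_labelled {K : Type} [CommRing K] (h2 : ∀ k : ℕ, (2 : K) ^ k ≠ 0) {n : ℕ}
    {Z : Type} [Fintype Z] (eR : Rw w Z ≃ Fin n) (eC : Cl w Z ≃ Fin n) {Gt : Type} [Fintype Gt]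
    (N : Net (Fin n × Fin n) K Gt)
    (hcomp : ∀ x : Fin n × Fin n → K, N.eval x = Matrix.permanent (Matrix.of fun i j => x (i, j)))
    (hN : ∀ h : Gp w, ∃ φ, N.IsAut
      ((eR.permCongr (rowAct h.2)).prodCongr (eC.permCongr (colAct h.1))) φ) :
    2 ^ (w / 3200) ≤ Fintype.card Gt := by
  classical
  rcases Nat.lt_or_ge w 3200 with hw | hw
  · rw [Nat.div_eq_of_lt hw, pow_zero]
    have : Nonempty Gt := ⟨N.out⟩
    exact Fintype.card_pos
  by_contra hcon
  rw [not_le] at hcon
  set τ : ℕ := w / 3200 with hτ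
  have hτ1 : 1 ≤ τ := by omega
  have hτw : 3200 * τ ≤ w := Nat.mul_div_le w 3200
  obtain ⟨π, hG⟩ := exists_good eR eC N hN τ hτw hcon
  have hwt : τ < wt (fun _ : Slot w => (1 : ZMod 2)) := by
    have h3 : wt (fun _ : Slot w => (1 : ZMod 2)) = 6 * w := by
      unfold wt
      rw [Finset.filter_true_of_mem (fun _ _ => (by decide : (1 : ZMod 2) ≠ 0)),
        Finset.card_univ, Fintype.card_prod, Fintype.card_fin, Fintype.card_fin]
      ring
    rw [h3]
    omega
  obtain ⟨e, he, hshift⟩ := eval_shift hG hτ1 _ hwt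
  have hval : ∀ t, N.eval ((setup K π eR eC).x t) = (PP π t : K) := by
    intro t
    rw [hcomp]
    have h4 := permanent_eq (K := K) π eR eC t
    exact h4
  have hPP : ∀ t, (PP π (t + e) : K) = (PP π t : K) := by
    intro t
    rw [← hval, ← hval, hshift]
  have hchi : chi e = -1 := by
    rw [chi_eq_sg]
    have h5 : ∑ s, e s = 1 := by
      rw [← he]
      unfold dot
      exact Finset.sum_congr rfl fun s _ => (one_mul _).symm
    rw [h5]
    rfl
  have hsum := congrArg (Int.cast : ℤ → K) (sum_PP π)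
  rw [Int.cast_sum] at hsum
  have hneg : ∑ t : Slot w → ZMod 2, ((chi t * PP π t : ℤ) : K) =
      - ∑ t : Slot w → ZMod 2, ((chi t * PP π t : ℤ) : K) := by
    calc ∑ t : Slot w → ZMod 2, ((chi t * PP π t : ℤ) : K)
        = ∑ t : Slot w → ZMod 2, ((chi (t + e) * PP π (t + e) : ℤ) : K) :=
          (Equiv.sum_comp (Equiv.addRight e)
            (fun t : Slot w → ZMod 2 => ((chi t * PP π t : ℤ) : K))).symm
      _ = ∑ t : Slot w → ZMod 2, -((chi t * PP π t : ℤ) : K) := by
          refine Finset.sum_congr rfl fun t _ => ?_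
          rw [chi_add, hchi, Int.cast_mul, hPP]
          push_cast
          ring
      _ = _ := Finset.sum_neg_distrib _
  have hzero : (2 : K) * ∑ t : Slot w → ZMod 2, ((chi t * PP π t : ℤ) : K) = 0 := by
    rw [two_mul]
    nth_rewrite 1 [hneg]
    exact neg_add_cancel _
  rw [hsum] at hzero
  have h6 : (2 : K) ^ (1 + 3 * (2 * w) + 3 * w) = 0 := by
    have h7 : (((8 ^ (2 * w) * (-2) ^ (3 * w) : ℤ)) : K) =
        (-1) ^ (3 * w) * ((2 : K) ^ (3 * (2 * w)) * 2 ^ (3 * w)) := by
      push_cast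
      have h8 : (8 : K) = 2 ^ 3 := by norm_num
      rw [h8, ← pow_mul]
      have h9 : (-2 : K) ^ (3 * w) = (-1) ^ (3 * w) * 2 ^ (3 * w) := by
        rw [← mul_pow]
        norm_num
      rw [h9]
      ring
    rw [h7] at hzero
    have h10 : ((-1 : K)) ^ (3 * w) * (-1) ^ (3 * w) = 1 := by
      rw [← mul_pow]
      norm_num
    calc (2 : K) ^ (1 + 3 * (2 * w) + 3 * w)
        = ((-1) ^ (3 * w) * (-1) ^ (3 * w)) * (2 ^ (1 + 3 * (2 * w) + 3 * w)) := by
          rw [h10, one_mul]
      _ = (-1) ^ (3 * w) *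
          (2 * ((-1) ^ (3 * w) * ((2 : K) ^ (3 * (2 * w)) * 2 ^ (3 * w)))) := by
          rw [pow_add, pow_add, pow_one]
          ring
      _ = 0 := by rw [hzero, mul_zero]
  exact h2 _ h6

/-- extending an embedding to a bijection -/
theorem exists_extend {α β γ : Type} [Fintype α] [Fintype β] [Fintype γ] (f : α ↪ β)
    (h : Fintype.card α + Fintype.card γ = Fintype.card β) :
    ∃ e : α ⊕ γ ≃ β, ∀ x, e (Sum.inl x) = f x := by
  classical
  have h1 : Fintype.card {b // b ∉ Set.range f} = Fintype.card γ := by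
    rw [Fintype.card_subtype_compl]
    have h2 : Fintype.card {b // b ∈ Set.range f} = Fintype.card α :=
      (Fintype.card_congr (Equiv.ofInjective f f.injective)).symm
    rw [h2]
    omega
  let e1 : γ ≃ {b // b ∉ Set.range f} := Fintype.equivOfCardEq h1.symm
  refine ⟨((Equiv.ofInjective f f.injective).sumCongr e1).trans
    (Equiv.sumCompl (· ∈ Set.range f)), fun x => rfl⟩

/-- The lower bound for the permanent. -/
theorem perm_bound {K : Type} [CommRing K] (h2 : ∀ k : ℕ, (2 : K) ^ k ≠ 0) (n w : ℕ)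
    (hn : 8 * w ≤ n) (ρ : Fin (2 * w) × Four ↪ Fin n) (κ : Fin (3 * w) × ZMod 2 ↪ Fin n)
    (Gt : Type) [Fintype Gt] (N : Net (Fin n × Fin n) K Gt)
    (hcomp : ∀ x : Fin n × Fin n → K, N.eval x = Matrix.permanent (Matrix.of fun i j => x (i, j)))
    (hsym : ∀ (U : Fin (2 * w) → Four) (a : Fin (3 * w) → ZMod 2), ∃ φ, N.IsAut
      (((quadPerm U).viaEmbedding ρ).prodCongr ((pairPerm a).viaEmbedding κ)) φ) :
    2 ^ (w / 3200) ≤ Fintype.card Gt := by
  classical
  obtain ⟨eR, heR⟩ := exists_extend (γ := Fin (n - 8 * w)) ρ (by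
    rw [Fintype.card_prod, Fintype.card_prod, Fintype.card_fin, Fintype.card_fin,
      Fintype.card_fin, ZMod.card]
    omega)
  obtain ⟨eC', heC'⟩ := exists_extend (γ := Fin (2 * w) ⊕ Fin (n - 8 * w)) κ (by
    rw [Fintype.card_sum, Fintype.card_prod, Fintype.card_fin, Fintype.card_fin,
      Fintype.card_fin, Fintype.card_fin, ZMod.card]
    omega)
  let eC : Cl w (Fin (n - 8 * w)) ≃ Fin n := (Equiv.sumAssoc _ _ _).trans eC'
  have heC : ∀ x, eC (Sum.inl (Sum.inl x)) = κ x := heC'
  refine bound_labelled (w := w) h2 eR eC N hcomp fun h => ?_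
  obtain ⟨φ, hφ⟩ := hsym h.2 h.1
  refine ⟨φ, ?_⟩
  have h3 : eR.permCongr (rowAct h.2) = (quadPerm h.2).viaEmbedding ρ := by
    refine Equiv.ext fun b => ?_
    obtain ⟨r, rfl⟩ := eR.surjective b
    rw [Equiv.permCongr_apply, Equiv.symm_apply_apply]
    rcases r with x | z
    · rw [heR, Equiv.Perm.viaEmbedding_apply, ← heR]
      rfl
    · rw [Equiv.Perm.viaEmbedding_apply_of_notMem]
      · rfl
      · rintro ⟨x, hx⟩
        rw [← heR] at hx
        exact Sum.inl_ne_inr (eR.injective hx)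
  have h4 : eC.permCongr (colAct h.1) = (pairPerm h.1).viaEmbedding κ := by
    refine Equiv.ext fun b => ?_
    obtain ⟨r, rfl⟩ := eC.surjective b
    rw [Equiv.permCongr_apply, Equiv.symm_apply_apply]
    rcases r with (x | u) | z
    · rw [heC, Equiv.Perm.viaEmbedding_apply, ← heC]
      rfl
    · rw [Equiv.Perm.viaEmbedding_apply_of_notMem]
      · rfl
      · rintro ⟨x, hx⟩
        rw [← heC] at hx
        exact Sum.inl_ne_inr (Sum.inl.inj (eC.injective hx))
    · rw [Equiv.Perm.viaEmbedding_apply_of_notMem]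
      · rfl
      · rintro ⟨x, hx⟩
        rw [← heC] at hx
        exact Sum.inl_ne_inr (eC.injective hx)
  rw [h3, h4]
  exact hφ

end Pool.Agent.H30R2.PS
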