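import Mathlib

set_option autoImplicit false

/-! Linear algebra over `ZMod 2`: separation and double annihilators in `S → ZMod 2`. -/

namespace Pool.Agent.H30R2.PS

open Finset

variable {S : Type*} [Fintype S]

/-- the dot product -/
def dot (x y : S → ZMod 2) : ZMod 2 := ∑ j, x j * y j

theorem dot_comm (x y : S → ZMod 2) : dot x y = dot y x := by
  unfold dot
  exact Finset.sum_congr rfl fun j _ => mul_comm _ _

theorem dot_add (x y z : S → ZMod 2) : dot x (y + z) = dot x y + dot x z := by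
  unfold dot
  rw [← Finset.sum_add_distrib]
  exact Finset.sum_congr rfl fun j _ => by rw [Pi.add_apply, mul_add]

theorem add_dot (x y z : S → ZMod 2) : dot (x + y) z = dot x z + dot y z := by
  rw [dot_comm, dot_add, dot_comm z x, dot_comm z y]

theorem smul_dot (c : ZMod 2) (x z : S → ZMod 2) : dot (c • x) z = c * dot x z := by
  unfold dot
  rw [Finset.mul_sum]
  exact Finset.sum_congr rfl fun j _ => by rw [Pi.smul_apply, smul_eq_mul, mul_assoc]

theorem zero_dot (z : S → ZMod 2) : dot 0 z = 0 := by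
  unfold dot
  exact Finset.sum_eq_zero fun j _ => by rw [Pi.zero_apply, zero_mul]

theorem dot_zero (z : S → ZMod 2) : dot z 0 = 0 := by
  rw [dot_comm, zero_dot]

variable [DecidableEq S]

theorem dot_single (x : S → ZMod 2) (j : S) : dot (Pi.single j 1) x = x j := by
  unfold dot
  rw [Finset.sum_eq_single j]
  · rw [Pi.single_eq_same, one_mul]
  · intro i _ hi
    rw [Pi.single_eq_of_ne hi, zero_mul]
  · intro h
    exact absurd (Finset.mem_univ j) h

/-- every linear functional is a dot product -/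
theorem exists_dot (f : (S → ZMod 2) →ₗ[ZMod 2] ZMod 2) :
    ∃ μ : S → ZMod 2, ∀ x, f x = dot μ x := by
  refine ⟨fun j => f (Pi.single j 1), fun x => ?_⟩
  have hx : x = ∑ j, x j • (Pi.single j 1 : S → ZMod 2) := by
    funext i
    rw [Finset.sum_apply, Finset.sum_eq_single i]
    · rw [Pi.smul_apply, Pi.single_eq_same, smul_eq_mul, mul_one]
    · intro j _ hj
      rw [Pi.smul_apply, Pi.single_eq_of_ne (Ne.symm hj), smul_zero]
    · intro h
      exact absurd (Finset.mem_univ i) h
  conv_lhs => rw [hx]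
  rw [map_sum]
  unfold dot
  refine Finset.sum_congr rfl fun j _ => ?_
  rw [map_smul, smul_eq_mul, mul_comm]

/-- separation of a vector from a subspace -/
theorem sep (U : Submodule (ZMod 2) (S → ZMod 2)) (x : S → ZMod 2) (hx : x ∉ U) :
    ∃ μ : S → ZMod 2, (∀ s ∈ U, dot μ s = 0) ∧ dot μ x ≠ 0 := by
  obtain ⟨f, hf, hfx⟩ := Submodule.exists_le_ker_of_notMem hx
  obtain ⟨μ, hμ⟩ := exists_dot f
  refine ⟨μ, fun s hs => ?_, ?_⟩
  · rw [← hμ]
    exact LinearMap.mem_ker.mp (hfx hs)
  · rw [← hμ]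
    exact hf

omit [DecidableEq S] in
/-- the annihilator of a subspace -/
def ann (U : Submodule (ZMod 2) (S → ZMod 2)) : Submodule (ZMod 2) (S → ZMod 2) where
  carrier := {x | ∀ s ∈ U, dot s x = 0}
  add_mem' := by
    intro x y hx hy s hs
    rw [dot_add, hx s hs, hy s hs, add_zero]
  zero_mem' := fun s _ => dot_zero s
  smul_mem' := by
    intro c x hx s hs
    rw [dot_comm, smul_dot, dot_comm, hx s hs, mul_zero]

/-- a vector killing the annihilator of `U` is in `U` -/
theorem mem_of_kills_ann (U : Submodule (ZMod 2) (S → ZMod 2)) (μ : S → ZMod 2)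
    (h : ∀ x ∈ ann U, dot μ x = 0) : μ ∈ U := by
  by_contra hμ
  obtain ⟨ν, hν, hνμ⟩ := sep U μ hμ
  refine hνμ ?_
  rw [dot_comm]
  refine h ν ?_
  intro s hs
  rw [dot_comm]
  exact hν s hs

/-- The decomposition lemma: if every vector of `U` killing `Q` is in `U'`, then every vector
killed by `U'` is the sum of a vector killed by `U` and a vector of `Q`. -/
theorem decomp (U U' Q : Submodule (ZMod 2) (S → ZMod 2))
    (hU : ∀ μ ∈ U, (∀ q ∈ Q, dot μ q = 0) → μ ∈ U')
    (e : S → ZMod 2) (he : ∀ s ∈ U', dot s e = 0) :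
    ∃ e' q, (∀ s ∈ U, dot s e' = 0) ∧ q ∈ Q ∧ e = e' + q := by
  have : e ∈ ann U ⊔ Q := by
    by_contra hn
    obtain ⟨μ, hμ, hμe⟩ := sep _ e hn
    refine hμe (he μ (hU μ ?_ ?_))
    · exact mem_of_kills_ann U μ fun x hx => hμ x (Submodule.mem_sup_left hx)
    · exact fun q hq => hμ q (Submodule.mem_sup_right hq)
  obtain ⟨e', he', q, hq, h⟩ := Submodule.mem_sup.mp this
  exact ⟨e', q, he', hq, h.symm⟩

/-- weight of a vector -/
def wt (x : S → ZMod 2) : ℕ := (univ.filter fun j => x j ≠ 0).card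

theorem wt_add_le (x y : S → ZMod 2) : wt (x + y) ≤ wt x + wt y := by
  unfold wt
  refine le_trans (Finset.card_le_card ?_) (Finset.card_union_le _ _)
  intro j hj
  rw [Finset.mem_union, Finset.mem_filter, Finset.mem_filter]
  by_contra hn
  rw [not_or, not_and, not_and, not_not, not_not] at hn
  have h1 := hn.1 (mem_univ j)
  have h2 := hn.2 (mem_univ j)
  rw [Finset.mem_filter, Pi.add_apply, h1, h2] at hj
  exact hj.2 (add_zero _)

theorem wt_zero : wt (0 : S → ZMod 2) = 0 := by
  unfold wt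
  rw [Finset.card_eq_zero, Finset.filter_eq_empty_iff]
  intro j _
  exact not_not.mpr rfl

theorem wt_smul_le (c : ZMod 2) (x : S → ZMod 2) : wt (c • x) ≤ wt x := by
  unfold wt
  refine Finset.card_le_card ?_
  intro j hj
  rw [Finset.mem_filter, Pi.smul_apply, smul_eq_mul] at hj
  rw [Finset.mem_filter]
  exact ⟨mem_univ j, right_ne_zero_of_mul hj.2⟩

theorem wt_single (j : S) : wt (Pi.single j 1 : S → ZMod 2) = 1 := by
  unfold wt
  rw [Finset.card_eq_one]
  refine ⟨j, ?_⟩
  ext i
  rw [Finset.mem_filter, Finset.mem_singleton]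
  constructor
  · rintro ⟨_, h⟩
    by_contra hi
    exact h (Pi.single_eq_of_ne hi 1)
  · rintro rfl
    refine ⟨mem_univ _, ?_⟩
    rw [Pi.single_eq_same]
    decide

end Pool.Agent.H30R2.PS
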