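import Pool.Agent.H30R2.PS.Fam

set_option autoImplicit false
set_option linter.unusedSectionVars false

/-! The permanents of the matrices of the family. -/

namespace Pool.Agent.H30R2.PS

open Finset

variable {w : ℕ} {Z : Type}

/-- the column chosen by the option `o` in the row `(u, s)` -/
def fo1 (π : Slot w ≃ Fin (3 * w) × Bool) (t : Slot w → ZMod 2) (x : Fin (2 * w) × Four)
    (o : Option (Fin 3)) : (Fin (3 * w) × ZMod 2) ⊕ Fin (2 * w) :=
  match o with
  | none => Sum.inr x.1
  | some i => Sum.inl ((π (x.1, i)).1, lab i x.2 + t (x.1, i))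

/-- the columns chosen by a family of options -/
def FO (π : Slot w ≃ Fin (3 * w) × Bool) (t : Slot w → ZMod 2)
    (o : Fin (2 * w) × Four → Option (Fin 3)) (x : Fin (2 * w) × Four) :
    (Fin (3 * w) × ZMod 2) ⊕ Fin (2 * w) := fo1 π t x (o x)

open Classical in
/-- the number of families of options choosing each column once -/
noncomputable def PP (π : Slot w ≃ Fin (3 * w) × Bool) (t : Slot w → ZMod 2) : ℤ :=
  ∑ o : Fin (2 * w) × Four → Option (Fin 3), if Function.Bijective (FO π t o) then 1 else 0

variable {K : Type} [CommRing K]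

open Classical in
theorem MM_inl (π : Slot w ≃ Fin (3 * w) × Bool) (t : Slot w → ZMod 2)
    (x : Fin (2 * w) × Four) (c : Cl w Z) :
    MM K π t (Sum.inl x) c = ∑ o, if c = Sum.inl (fo1 π t x o) then (1 : K) else 0 := by
  rw [Fintype.sum_option]
  rfl

open Classical in
/-- permanents as sums over bijections between rows and columns -/
theorem perm_eq {n : ℕ} [Fintype Z] (π : Slot w ≃ Fin (3 * w) × Bool)
    (eR : Rw w Z ≃ Fin n) (eC : Cl w Z ≃ Fin n) (t : Slot w → ZMod 2) :
    Matrix.permanent (Matrix.of fun i j => (setup K π eR eC).x t (i, j)) =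
      ∑ τ : Rw w Z ≃ Cl w Z, ∏ r, MM K π t r (τ r) := by
  unfold Matrix.permanent
  let e : Equiv.Perm (Fin n) ≃ (Rw w Z ≃ Cl w Z) :=
    { toFun := fun σ => eR.trans ((σ⁻¹ : Equiv.Perm (Fin n)).trans eC.symm)
      invFun := fun τ => (eR.symm.trans (τ.trans eC))⁻¹
      left_inv := by
        intro σ
        refine inv_eq_iff_eq_inv.mpr ?_
        refine Equiv.ext fun i => ?_
        show eC (eC.symm (σ⁻¹ (eR (eR.symm i)))) = σ⁻¹ i
        rw [Equiv.apply_symm_apply, Equiv.apply_symm_apply]
      right_inv := by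
        intro τ
        refine Equiv.ext fun r => ?_
        show eC.symm (((eR.symm.trans (τ.trans eC))⁻¹⁻¹ : Equiv.Perm (Fin n)) (eR r)) = τ r
        rw [inv_inv]
        show eC.symm (eC (τ (eR.symm (eR r)))) = τ r
        rw [Equiv.symm_apply_apply, Equiv.symm_apply_apply] }
  rw [← Equiv.sum_comp e]
  refine Finset.sum_congr rfl fun σ _ => ?_
  rw [← Equiv.prod_comp (eR.trans (σ⁻¹ : Equiv.Perm (Fin n)))]
  refine Finset.prod_congr rfl fun r _ => ?_
  show MM K π t (eR.symm (σ (σ⁻¹ (eR r)))) (eC.symm (σ⁻¹ (eR r))) =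
    MM K π t r (eC.symm (σ⁻¹ (eR r)))
  rw [perm_apply_inv, Equiv.symm_apply_apply]

open Classical in
theorem sum_tau [Fintype Z] (π : Slot w ≃ Fin (3 * w) × Bool) (t : Slot w → ZMod 2)
    (o : Fin (2 * w) × Four → Option (Fin 3)) :
    ∑ τ : Rw w Z ≃ Cl w Z, (if (∀ x, τ (Sum.inl x) = Sum.inl (FO π t o x)) ∧
      (∀ z, τ (Sum.inr z) = Sum.inr z) then (1 : K) else 0) =
      if Function.Bijective (FO π t o) then 1 else 0 := by
  by_cases hb : Function.Bijective (FO π t o)
  · rw [if_pos hb, Finset.sum_eq_single ((Equiv.ofBijective _ hb).sumCongr (Equiv.refl Z))]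
    · exact if_pos ⟨fun x => rfl, fun z => rfl⟩
    · intro τ _ hτ
      rw [if_neg]
      rintro ⟨h1, h2⟩
      refine hτ (Equiv.ext fun r => ?_)
      rcases r with x | z
      · exact h1 x
      · exact h2 z
    · intro h
      exact absurd (mem_univ _) h
  · rw [if_neg hb]
    refine Finset.sum_eq_zero fun τ _ => ?_
    rw [if_neg]
    rintro ⟨h1, h2⟩
    refine hb ⟨?_, ?_⟩
    · intro x y hxy
      have h3 : τ (Sum.inl x) = τ (Sum.inl y) := by rw [h1, h1, hxy]
      exact Sum.inl.inj (τ.injective h3)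
    · intro y
      obtain ⟨r, hr⟩ := τ.surjective (Sum.inl y)
      rcases r with x | z
      · rw [h1] at hr
        exact ⟨x, Sum.inl.inj hr⟩
      · rw [h2] at hr
        exact absurd hr Sum.inr_ne_inl

open Classical in
theorem permanent_eq {n : ℕ} [Fintype Z] (π : Slot w ≃ Fin (3 * w) × Bool)
    (eR : Rw w Z ≃ Fin n) (eC : Cl w Z ≃ Fin n) (t : Slot w → ZMod 2) :
    Matrix.permanent (Matrix.of fun i j => (setup K π eR eC).x t (i, j)) = (PP π t : K) := by
  rw [perm_eq]
  have h1 : ∀ τ : Rw w Z ≃ Cl w Z, ∏ r, MM K π t r (τ r) =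
      ∑ o : Fin (2 * w) × Four → Option (Fin 3),
        if (∀ x, τ (Sum.inl x) = Sum.inl (FO π t o x)) ∧
          (∀ z, τ (Sum.inr z) = Sum.inr z) then (1 : K) else 0 := by
    intro τ
    rw [Fintype.prod_sum_type]
    have h2 : ∏ z : Z, MM K π t (Sum.inr z) (τ (Sum.inr z)) =
        if ∀ z, τ (Sum.inr z) = Sum.inr z then (1 : K) else 0 := by
      rw [← Fintype.prod_boole]
      rfl
    have h3 : ∏ x : Fin (2 * w) × Four, MM K π t (Sum.inl x) (τ (Sum.inl x)) =
        ∑ o : Fin (2 * w) × Four → Option (Fin 3),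
          if (∀ x, τ (Sum.inl x) = Sum.inl (FO π t o x)) then (1 : K) else 0 := by
      rw [Finset.prod_congr rfl (fun x _ => MM_inl π t x (τ (Sum.inl x))), Fintype.prod_sum]
      refine Finset.sum_congr rfl fun o _ => ?_
      rw [← Fintype.prod_boole]
      rfl
    rw [h2, h3, Finset.sum_mul]
    refine Finset.sum_congr rfl fun o _ => ?_
    by_cases h4 : ∀ x, τ (Sum.inl x) = Sum.inl (FO π t o x)
    · by_cases h5 : ∀ z, τ (Sum.inr z) = Sum.inr z
      · rw [if_pos h4, if_pos h5, if_pos ⟨h4, h5⟩, one_mul]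
      · rw [if_pos h4, if_neg h5, if_neg (fun h => h5 h.2), one_mul]
    · rw [if_neg h4, zero_mul, if_neg (fun h => h4 h.1)]
  rw [Finset.sum_congr rfl (fun τ _ => h1 τ), Finset.sum_comm]
  rw [Finset.sum_congr rfl (fun o _ => sum_tau (K := K) (Z := Z) π t o)]
  unfold PP
  rw [Int.cast_sum]
  refine Finset.sum_congr rfl fun o _ => ?_
  split_ifs
  · exact Int.cast_one.symm
  · exact Int.cast_zero.symm

/-! ### The character sum -/

/-- the sign of an element of `ZMod 2` -/
def sg (x : ZMod 2) : ℤ := if x = 0 then 1 else -1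

theorem sg_add (x y : ZMod 2) : sg (x + y) = sg x * sg y := by
  revert x y
  decide

theorem sg_mul_self (x : ZMod 2) : sg x * sg x = 1 := by
  revert x
  decide

/-- the character of `Slot w → ZMod 2` given by the sum of the coordinates -/
def chi {S : Type*} [Fintype S] (t : S → ZMod 2) : ℤ := ∏ s, sg (t s)

theorem chi_add {S : Type*} [Fintype S] (t t' : S → ZMod 2) : chi (t + t') = chi t * chi t' := by
  unfold chi
  rw [← Finset.prod_mul_distrib]
  exact Finset.prod_congr rfl fun s _ => sg_add _ _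

/-- the weight of an option -/
def wgt (s : Four) (o : Option (Fin 3)) : ℤ :=
  match o with
  | none => 1
  | some i => sg (lab i s)

theorem per8 : ∑ ψ : Four → Option (Fin 3),
    (if Function.Bijective ψ then ∏ s, wgt s (ψ s) else 0) = 8 := by
  decide +kernel

/-- Families of options leaving out a slot do not contribute. -/
theorem sum_unused (π : Slot w ≃ Fin (3 * w) × Bool)
    (o : Fin (2 * w) × Four → Option (Fin 3)) (u : Fin (2 * w)) (i : Fin 3)
    (h : ∀ s, o (u, s) ≠ some i) [∀ t, Decidable (Function.Bijective (FO π t o))] :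
    ∑ t : Slot w → ZMod 2, (if Function.Bijective (FO π t o) then chi t else 0) = 0 := by
  classical
  have hFO : ∀ t : Slot w → ZMod 2, FO π (t + Pi.single (u, i) 1) o = FO π t o := by
    intro t
    funext x
    obtain ⟨u', s⟩ := x
    unfold FO
    cases ho : o (u', s) with
    | none => rfl
    | some j =>
      show Sum.inl ((π (u', j)).1, lab j s + (t + Pi.single (u, i) 1 : Slot w → ZMod 2) (u', j)) =
        Sum.inl ((π (u', j)).1, lab j s + t (u', j))
      have hne : (u', j) ≠ (u, i) := by
        intro heq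
        have h1 : u' = u := congrArg Prod.fst heq
        have h2 : j = i := congrArg Prod.snd heq
        refine h s ?_
        rw [← h1, ho, h2]
      rw [Pi.add_apply, Pi.single_eq_of_ne hne, add_zero]
  have hchi : ∀ t : Slot w → ZMod 2, chi (t + Pi.single (u, i) 1) = - chi t := by
    intro t
    rw [chi_add]
    have h1 : chi (Pi.single (u, i) 1 : Slot w → ZMod 2) = -1 := by
      unfold chi
      rw [Finset.prod_eq_single (u, i)]
      · rw [Pi.single_eq_same]
        decide
      · intro b _ hb
        rw [Pi.single_eq_of_ne hb]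
        decide
      · intro hn
        exact absurd (mem_univ _) hn
    rw [h1, mul_neg_one]
  refine Finset.sum_involution (fun t _ => t + Pi.single (u, i) 1) ?_ ?_ ?_ ?_
  · intro t _
    rw [hchi]
    have h1 : Function.Bijective (FO π (t + Pi.single (u, i) 1) o) ↔
        Function.Bijective (FO π t o) := by rw [hFO]
    by_cases hb : Function.Bijective (FO π t o)
    · rw [if_pos hb, if_pos (h1.mpr hb), add_neg_cancel]
    · rw [if_neg hb, if_neg (fun hb' => hb (h1.mp hb')), add_zero]
  · intro t _ _ heq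
    have h1 : (Pi.single (u, i) 1 : Slot w → ZMod 2) = 0 := by
      have h2 : t + Pi.single (u, i) 1 = t + 0 := by rw [add_zero]; exact heq
      exact add_left_cancel h2
    have h3 := congrFun h1 (u, i)
    rw [Pi.single_eq_same] at h3
    have h4 : (1 : ZMod 2) = 0 := h3
    exact absurd h4 (by decide)
  · intro t _
    exact mem_univ _
  · intro t _
    rw [add_assoc]
    have h1 : (Pi.single (u, i) 1 : Slot w → ZMod 2) + Pi.single (u, i) 1 = 0 := by
      funext s
      exact zmod2_add_self _
    rw [h1, add_zero]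

end Pool.Agent.H30R2.PS
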